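import Mathlib

/-!
# Invariant subgroups close to almost invariant ones

Let a group `G` act on the abelian group `Γ` by automorphisms and let `H` be a finite subgroup with
`[H : H ∩ g H] ≤ n` for all `g ∈ G` (and finite orbit). For subgroups `V`, `U` put
`δ(V, U) = [V : V ∩ U] [U : V ∩ U]`. The function `V ↦ ∏_U δ(V, U)`, the product being over the orbit
of `H`, is submodular on the lattice of the finite subgroups, so its minimisers are closed under
intersection, and the smallest one is invariant.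
-/

set_option autoImplicit false
open scoped Pointwise

namespace Pool.Agent.U128.Eqv

section lattice
variable {Γ : Type*} [AddCommGroup Γ]

theorem card_mul_relIndex {U V : AddSubgroup Γ} (h : U ≤ V) :
    Nat.card U * U.relIndex V = Nat.card V := by
  have := AddSubgroup.relIndex_mul_relIndex ⊥ U V bot_le h
  simpa using this

/-- `|V ⊓ U| [V : V ⊓ U] = |V|` -/
theorem card_inf_mul (V U : AddSubgroup Γ) :
    Nat.card (V ⊓ U : AddSubgroup Γ) * U.relIndex V = Nat.card V := by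
  have h := card_mul_relIndex (U := V ⊓ U) (V := V) inf_le_left
  rwa [AddSubgroup.inf_relIndex_left] at h

theorem card_sup_inf (V U : AddSubgroup Γ) :
    Nat.card (V ⊔ U : AddSubgroup Γ) * Nat.card (V ⊓ U : AddSubgroup Γ) =
      Nat.card V * Nat.card U := by
  have h1 := card_mul_relIndex (U := U) (V := V ⊔ U) le_sup_right
  rw [AddSubgroup.relIndex_sup_right] at h1
  rw [← h1, ← card_inf_mul V U]
  ring

/-- the index distance of two subgroups -/
noncomputable def dl (V U : AddSubgroup Γ) : ℕ := U.relIndex V * V.relIndex U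

theorem dl_mul (V U : AddSubgroup Γ) :
    dl V U * Nat.card (V ⊓ U : AddSubgroup Γ) ^ 2 = Nat.card V * Nat.card U := by
  unfold dl
  have h1 := card_inf_mul V U
  have h2 := card_inf_mul U V
  rw [inf_comm] at h2
  rw [← h1, ← h2]
  ring

theorem dl_pos (V U : AddSubgroup Γ) [Finite V] [Finite U] : 0 < dl V U := by
  have h := dl_mul V U
  rcases Nat.eq_zero_or_pos (dl V U) with h0 | h0
  · rw [h0, Nat.zero_mul] at h
    have h1 : 0 < Nat.card V := Nat.card_pos
    have h2 : 0 < Nat.card U := Nat.card_pos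
    have := Nat.mul_pos h1 h2
    omega
  · exact h0

theorem finite_sup (V U : AddSubgroup Γ) [Finite V] [Finite U] :
    Finite (V ⊔ U : AddSubgroup Γ) := by
  have h := card_sup_inf V U
  by_contra hne
  rw [not_finite_iff_infinite] at hne
  rw [Nat.card_eq_zero_of_infinite, Nat.zero_mul] at h
  have h1 : 0 < Nat.card V := Nat.card_pos
  have h2 : 0 < Nat.card U := Nat.card_pos
  have := Nat.mul_pos h1 h2
  omega

theorem finite_inf (V U : AddSubgroup Γ) [Finite V] : Finite (V ⊓ U : AddSubgroup Γ) :=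
  (Set.toFinite (V : Set Γ)).subset (fun _ hx => hx.1)

theorem card_le_of_le {V U : AddSubgroup Γ} [Finite U] (h : V ≤ U) : Nat.card V ≤ Nat.card U :=
  Nat.card_mono (Set.toFinite _) h

/-- submodularity -/
theorem dl_submod (V₁ V₂ U : AddSubgroup Γ) [Finite V₁] [Finite V₂] [Finite U] :
    dl (V₁ ⊓ V₂) U * dl (V₁ ⊔ V₂) U ≤ dl V₁ U * dl V₂ U := by
  have := finite_sup V₁ V₂
  have := finite_inf V₁ V₂
  have : Finite (V₁ ⊓ V₂ ⊓ U : AddSubgroup Γ) := finite_inf _ _
  have : Finite ((V₁ ⊔ V₂) ⊓ U : AddSubgroup Γ) := finite_inf _ _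
  set x := Nat.card (V₁ ⊓ V₂ ⊓ U : AddSubgroup Γ) with hx
  set y := Nat.card ((V₁ ⊔ V₂) ⊓ U : AddSubgroup Γ) with hy
  set a := Nat.card (V₁ ⊓ U : AddSubgroup Γ) with ha
  set b := Nat.card (V₂ ⊓ U : AddSubgroup Γ) with hb
  have e1 := dl_mul (V₁ ⊓ V₂) U
  have e2 := dl_mul (V₁ ⊔ V₂) U
  have e3 := dl_mul V₁ U
  have e4 := dl_mul V₂ U
  have e5 := card_sup_inf V₁ V₂
  -- `a b ≤ x y`
  have hab : a * b ≤ x * y := by
    have h := card_sup_inf (V₁ ⊓ U) (V₂ ⊓ U)
    have hle1 : ((V₁ ⊓ U) ⊓ (V₂ ⊓ U) : AddSubgroup Γ) = V₁ ⊓ V₂ ⊓ U := by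
      rw [inf_inf_inf_comm, inf_idem]
    have hle2 : Nat.card ((V₁ ⊓ U) ⊔ (V₂ ⊓ U) : AddSubgroup Γ) ≤ y :=
      card_le_of_le (sup_le (inf_le_inf_right _ le_sup_left) (inf_le_inf_right _ le_sup_right))
    rw [hle1, ← hx] at h
    rw [← ha, ← hb] at h
    calc a * b = Nat.card ((V₁ ⊓ U) ⊔ (V₂ ⊓ U) : AddSubgroup Γ) * x := h.symm
      _ ≤ y * x := Nat.mul_le_mul_right _ hle2
      _ = x * y := Nat.mul_comm _ _
  have hx0 : 0 < x := Nat.card_pos
  have hy0 : 0 < y := Nat.card_pos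
  have key : (dl (V₁ ⊓ V₂) U * dl (V₁ ⊔ V₂) U) * (x * y) ^ 2 =
      (dl V₁ U * dl V₂ U) * (a * b) ^ 2 := by
    calc (dl (V₁ ⊓ V₂) U * dl (V₁ ⊔ V₂) U) * (x * y) ^ 2
        = (dl (V₁ ⊓ V₂) U * x ^ 2) * (dl (V₁ ⊔ V₂) U * y ^ 2) := by ring
      _ = (Nat.card (V₁ ⊓ V₂ : AddSubgroup Γ) * Nat.card U) *
          (Nat.card (V₁ ⊔ V₂ : AddSubgroup Γ) * Nat.card U) := by rw [e1, e2]
      _ = (Nat.card (V₁ ⊔ V₂ : AddSubgroup Γ) * Nat.card (V₁ ⊓ V₂ : AddSubgroup Γ)) *
          Nat.card U ^ 2 := by ring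
      _ = (Nat.card V₁ * Nat.card V₂) * Nat.card U ^ 2 := by rw [e5]
      _ = (Nat.card V₁ * Nat.card U) * (Nat.card V₂ * Nat.card U) := by ring
      _ = (dl V₁ U * a ^ 2) * (dl V₂ U * b ^ 2) := by rw [e3, e4]
      _ = (dl V₁ U * dl V₂ U) * (a * b) ^ 2 := by ring
  have hpos : 0 < (x * y) ^ 2 := by positivity
  refine Nat.le_of_mul_le_mul_right ?_ hpos
  rw [key]
  exact Nat.mul_le_mul_left _ (Nat.pow_le_pow_left hab 2)

/-- the product of the distances to the members of a family -/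
noncomputable def Pr (F : Finset (AddSubgroup Γ)) (V : AddSubgroup Γ) : ℕ := ∏ U ∈ F, dl V U

theorem Pr_pos (F : Finset (AddSubgroup Γ)) (hF : ∀ U ∈ F, Finite U) (V : AddSubgroup Γ)
    [Finite V] : 0 < Pr F V :=
  Finset.prod_pos fun U hU => by
    have := hF U hU
    exact dl_pos V U

theorem Pr_submod (F : Finset (AddSubgroup Γ)) (hF : ∀ U ∈ F, Finite U) (V₁ V₂ : AddSubgroup Γ)
    [Finite V₁] [Finite V₂] : Pr F (V₁ ⊓ V₂) * Pr F (V₁ ⊔ V₂) ≤ Pr F V₁ * Pr F V₂ := by
  unfold Pr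
  rw [← Finset.prod_mul_distrib, ← Finset.prod_mul_distrib]
  refine Finset.prod_le_prod' fun U hU => ?_
  have := hF U hU
  exact dl_submod V₁ V₂ U

/-- the smallest minimiser -/
theorem exists_min (F : Finset (AddSubgroup Γ)) (hF : ∀ U ∈ F, Finite U) :
    ∃ N : AddSubgroup Γ, Finite N ∧ (∀ V : AddSubgroup Γ, Finite V → Pr F N ≤ Pr F V) ∧
      ∀ V : AddSubgroup Γ, Finite V → Pr F V ≤ Pr F N → N ≤ V := by
  classical
  have hne : ∃ k, ∃ V : AddSubgroup Γ, Finite V ∧ Pr F V = k :=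
    ⟨_, ⊥, inferInstance, rfl⟩
  set k := Nat.find hne with hk
  obtain ⟨V₀, hV₀, hV₀k⟩ := Nat.find_spec hne
  have hmin : ∀ V : AddSubgroup Γ, Finite V → k ≤ Pr F V := fun V hV =>
    Nat.find_min' hne ⟨V, hV, rfl⟩
  have hne2 : ∃ c, ∃ V : AddSubgroup Γ, Finite V ∧ Pr F V = k ∧ Nat.card V = c :=
    ⟨_, V₀, hV₀, hV₀k, rfl⟩
  obtain ⟨N, hNf, hNk, hNc⟩ := Nat.find_spec hne2
  refine ⟨N, hNf, fun V hV => hNk ▸ hmin V hV, ?_⟩
  intro V hV hVN
  have hVk : Pr F V = k := le_antisymm (hNk ▸ hVN) (hmin V hV)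
  have := finite_inf N V
  have := finite_sup N V
  have h1 := Pr_submod F hF N V
  have h2 := hmin (N ⊓ V) inferInstance
  have h3 := hmin (N ⊔ V) inferInstance
  have hk0 : 0 < k := by
    rw [← hNk]; exact Pr_pos F hF N
  have h4 : Pr F (N ⊓ V) = k := by
    refine le_antisymm ?_ h2
    rw [hNk, hVk] at h1
    by_contra hlt
    push Not at hlt
    have : k * k < Pr F (N ⊓ V) * Pr F (N ⊔ V) :=
      calc k * k < Pr F (N ⊓ V) * k := Nat.mul_lt_mul_of_pos_right hlt hk0
        _ ≤ _ := Nat.mul_le_mul_left _ h3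
    omega
  have h5 : Nat.card N ≤ Nat.card (N ⊓ V : AddSubgroup Γ) := by
    rw [hNc]
    exact Nat.find_min' hne2 ⟨_, inferInstance, h4, rfl⟩
  have h6 : N ⊓ V = N := by
    apply SetLike.coe_injective
    refine Set.eq_of_subset_of_ncard_le (inf_le_left : N ⊓ V ≤ N) ?_ (Set.toFinite _)
    rw [← Nat.card_coe_set_eq, ← Nat.card_coe_set_eq]
    exact h5
  exact inf_eq_left.1 h6

end lattice

section action
variable {Γ : Type*} [AddCommGroup Γ] {G : Type*} [Group G] [DistribMulAction G Γ]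

theorem card_smul (g : G) (V : AddSubgroup Γ) : Nat.card (g • V : AddSubgroup Γ) = Nat.card V := by
  refine Nat.card_congr (Equiv.ofBijective
    (fun x : V => (⟨g • x.1, AddSubgroup.smul_mem_pointwise_smul _ _ _ x.2⟩ :
      (g • V : AddSubgroup Γ))) ⟨?_, ?_⟩).symm
  · intro x y h
    have := congrArg Subtype.val h
    simp only at this
    exact Subtype.ext (MulAction.injective g this)
  · rintro ⟨y, hy⟩
    obtain ⟨x, hx, rfl⟩ := (AddSubgroup.mem_smul_pointwise_iff_exists _ _ _).1 hy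
    exact ⟨⟨x, hx⟩, rfl⟩

theorem smul_inf' (g : G) (V U : AddSubgroup Γ) : g • (V ⊓ U) = g • V ⊓ g • U := by
  ext x
  simp only [AddSubgroup.mem_inf, AddSubgroup.mem_pointwise_smul_iff_inv_smul_mem]

theorem finite_smul (g : G) (V : AddSubgroup Γ) [Finite V] : Finite (g • V : AddSubgroup Γ) := by
  refine Nat.finite_of_card_ne_zero ?_
  rw [card_smul]
  exact Nat.card_pos.ne'

theorem dl_smul (g : G) (V U : AddSubgroup Γ) [Finite V] [Finite U] :
    dl (g • V) (g • U) = dl V U := by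
  have h1 := dl_mul (g • V) (g • U)
  have h2 := dl_mul V U
  rw [← smul_inf', card_smul, card_smul, card_smul, ← h2] at h1
  have := finite_inf V U
  have h3 : 0 < Nat.card (V ⊓ U : AddSubgroup Γ) ^ 2 := by
    have : 0 < Nat.card (V ⊓ U : AddSubgroup Γ) := Nat.card_pos
    positivity
  exact Nat.eq_of_mul_eq_mul_right h3 h1

/-- **Invariant subgroups close to almost invariant ones.** -/
theorem exists_invariant (H : AddSubgroup Γ) [Finite H]
    (hfin : (Set.range fun g : G => g • H).Finite) (n : ℕ)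
    (hn : ∀ g : G, (g • H).relIndex H ≤ n) :
    ∃ N : AddSubgroup Γ, Finite N ∧ (∀ g : G, g • N = N) ∧
      H.relIndex N * N.relIndex H ≤ n ^ 2 := by
  classical
  set F : Finset (AddSubgroup Γ) := hfin.toFinset with hFdef
  have hmem : ∀ U, U ∈ F ↔ ∃ g : G, g • H = U := by
    intro U
    rw [hFdef, Set.Finite.mem_toFinset, Set.mem_range]
  have hF : ∀ U ∈ F, Finite U := by
    intro U hU
    obtain ⟨g, rfl⟩ := (hmem U).1 hU
    exact finite_smul g H
  have hPr : ∀ (g : G) (V : AddSubgroup Γ), Finite V → Pr F (g • V) = Pr F V := by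
    intro g V hV
    unfold Pr
    refine (Finset.prod_bij (fun U _ => g • U) ?_ ?_ ?_ ?_).symm
    · intro U hU
      obtain ⟨k, rfl⟩ := (hmem U).1 hU
      exact (hmem _).2 ⟨g * k, mul_smul _ _ _⟩
    · intro U _ U' _ h
      exact MulAction.injective g h
    · intro U hU
      obtain ⟨k, rfl⟩ := (hmem U).1 hU
      refine ⟨(g⁻¹ * k) • H, (hmem _).2 ⟨_, rfl⟩, ?_⟩
      rw [← mul_smul]
      congr 1
      group
    · intro U hU
      have := hF U hU
      exact (dl_smul g V U).symm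
  obtain ⟨N, hNf, hNmin, hNle⟩ := exists_min F hF
  have hle : ∀ g : G, N ≤ g • N := fun g =>
    hNle (g • N) (finite_smul g N) (hPr g N hNf).le
  have hinv : ∀ g : G, g • N = N := by
    intro g
    refine le_antisymm ?_ (hle g)
    have := hle g⁻¹
    rw [← AddSubgroup.pointwise_smul_le_pointwise_smul_iff (a := g), smul_inv_smul] at this
    exact this
  refine ⟨N, hNf, hinv, ?_⟩
  have hHF : H ∈ F := (hmem _).2 ⟨1, one_smul _ _⟩
  have h1 : Pr F N = dl N H ^ F.card := by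
    unfold Pr
    refine Finset.prod_eq_pow_card fun U hU => ?_
    obtain ⟨g, rfl⟩ := (hmem U).1 hU
    conv_lhs => rw [← hinv g]
    exact dl_smul g N H
  have h2 : Pr F H ≤ (n ^ 2) ^ F.card := by
    unfold Pr
    refine Finset.prod_le_pow_card _ _ _ fun U hU => ?_
    obtain ⟨g, rfl⟩ := (hmem U).1 hU
    have e1 := hn g
    have e2 := hn g⁻¹
    have e3 : H.relIndex (g • H) = (g⁻¹ • H).relIndex H := by
      have := finite_inf H (g • H)
      have := finite_smul g H
      have := finite_smul g⁻¹ H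
      have a1 := card_inf_mul (g • H) H
      have a2 := card_inf_mul H (g⁻¹ • H)
      have a3 : Nat.card (H ⊓ g⁻¹ • H : AddSubgroup Γ) = Nat.card (g • H ⊓ H : AddSubgroup Γ) := by
        rw [← card_smul g (H ⊓ g⁻¹ • H), smul_inf', smul_inv_smul]
      rw [a3] at a2
      rw [card_smul, ← a2] at a1
      have := finite_inf (g • H) H
      exact Nat.eq_of_mul_eq_mul_left Nat.card_pos a1
    unfold dl
    rw [e3, sq]
    exact Nat.mul_le_mul e1 e2
  have h3 := hNmin H inferInstance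
  rw [h1] at h3
  have h4 := h3.trans h2
  have hc : F.card ≠ 0 := Finset.card_ne_zero_of_mem hHF
  have h5 := (Nat.pow_le_pow_iff_left hc).1 h4
  exact h5

end action

end Pool.Agent.U128.Eqv
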