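import Mathlib
import Pool.Agent.TH404.Tor.Final
import Pool.Agent.U128.Eqv

/-!
# Marton's conjecture for sets which are almost invariant under a group of automorphisms
-/

set_option autoImplicit false
open scoped Pointwise

namespace Pool.Agent.U128.EqvSet

open Pool.Agent.U128.Eqv

variable {Γ : Type*} [AddCommGroup Γ] [DecidableEq Γ] {G : Type*} [Group G] [DistribMulAction G Γ]

/-- the intersection of `H` and `g H` is large -/
theorem inter_large (A T : Finset Γ) (hA : A.Nonempty) (K : ℝ) (H : AddSubgroup Γ) [Finite H]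
    (hcov : ∀ a ∈ A, ∃ t ∈ T, a - t ∈ H) (g : G)
    (hK : ((A + g • A).card : ℝ) ≤ K * A.card) :
    (A.card : ℝ) ≤ K * (T.card : ℝ) ^ 2 * Nat.card (H ⊓ g • H : AddSubgroup Γ) := by
  classical
  have hpos : (0 : ℝ) < A.card := by exact_mod_cast hA.card_pos
  have hfI : Finite (H ⊓ g • H : AddSubgroup Γ) := finite_inf _ _
  -- pigeonhole
  obtain ⟨t, ht, hAt⟩ : ∃ t ∈ T, A.card ≤ T.card * (A.filter fun a => a - t ∈ H).card := by
    by_contra hcon
    push Not at hcon
    have hTne : T.Nonempty := by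
      obtain ⟨a, ha⟩ := hA
      obtain ⟨t, ht, _⟩ := hcov a ha
      exact ⟨t, ht⟩
    have h1 : A ⊆ T.biUnion fun t => A.filter fun a => a - t ∈ H := by
      intro a ha
      obtain ⟨t, ht, hat⟩ := hcov a ha
      exact Finset.mem_biUnion.2 ⟨t, ht, Finset.mem_filter.2 ⟨ha, hat⟩⟩
    have h2 : A.card ≤ ∑ t ∈ T, (A.filter fun a => a - t ∈ H).card :=
      (Finset.card_le_card h1).trans Finset.card_biUnion_le
    have h3 : T.card * A.card ≤ ∑ t ∈ T, T.card * (A.filter fun a => a - t ∈ H).card := by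
      rw [← Finset.mul_sum]
      exact Nat.mul_le_mul_left _ h2
    have h4 : ∑ t ∈ T, T.card * (A.filter fun a => a - t ∈ H).card < ∑ _t ∈ T, A.card :=
      Finset.sum_lt_sum_of_nonempty hTne hcon
    rw [Finset.sum_const, smul_eq_mul] at h4
    omega
  set B := A.filter fun a => a - t ∈ H with hB
  have hfib : (B ×ˢ B).card ≤ Nat.card (H ⊓ g • H : AddSubgroup Γ) * (A + g • A).card := by
    refine Finset.card_le_mul_card_image_of_maps_to (f := fun p : Γ × Γ => p.1 + g • p.2) ?_ _ ?_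
    · rintro ⟨a, b⟩ hab
      rw [Finset.mem_product] at hab
      exact Finset.add_mem_add (Finset.mem_filter.1 hab.1).1
        (Finset.smul_mem_smul_finset (Finset.mem_filter.1 hab.2).1)
    · intro s _
      rcases Finset.eq_empty_or_nonempty ((B ×ˢ B).filter fun p : Γ × Γ => p.1 + g • p.2 = s)
        with he | ⟨⟨a₀, b₀⟩, h₀⟩
      · rw [he]; simp
      · rw [Finset.mem_filter, Finset.mem_product] at h₀
        simp only at h₀
        obtain ⟨⟨ha₀, hb₀⟩, hs₀⟩ := h₀
        rw [← Nat.card_eq_finsetCard]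
        refine Nat.card_le_card_of_injective
          (fun p => (⟨p.1.1 - a₀, ?_⟩ : (H ⊓ g • H : AddSubgroup Γ))) ?_
        · have hp := p.2
          rw [Finset.mem_filter, Finset.mem_product] at hp
          obtain ⟨⟨ha, hb⟩, hs⟩ := hp
          refine AddSubgroup.mem_inf.2 ⟨?_, ?_⟩
          · have h1 := H.sub_mem (Finset.mem_filter.1 ha).2 (Finset.mem_filter.1 ha₀).2
            rwa [sub_sub_sub_cancel_right] at h1
          · have h1 := H.sub_mem (Finset.mem_filter.1 hb₀).2 (Finset.mem_filter.1 hb).2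
            rw [sub_sub_sub_cancel_right] at h1
            have h2 : p.1.1 - a₀ = g • (b₀ - p.1.2) := by
              rw [smul_sub]
              have h3 : p.1.1 + g • p.1.2 = a₀ + g • b₀ := hs.trans hs₀.symm
              rw [sub_eq_sub_iff_add_eq_add, h3]
              abel
            rw [h2]
            exact AddSubgroup.smul_mem_pointwise_smul _ _ _ h1
        · intro p q hpq
          have h1 : p.1.1 - a₀ = q.1.1 - a₀ := congrArg Subtype.val hpq
          have h2 : p.1.1 = q.1.1 := sub_left_injective h1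
          have hp := (Finset.mem_filter.1 p.2).2
          have hq := (Finset.mem_filter.1 q.2).2
          have h3 : g • p.1.2 = g • q.1.2 := by
            have h4 : p.1.1 + g • p.1.2 = q.1.1 + g • q.1.2 := hp.trans hq.symm
            rw [h2] at h4
            exact add_left_cancel h4
          exact Subtype.ext (Prod.ext h2 (MulAction.injective g h3))
  rw [Finset.card_product] at hfib
  set I : ℝ := ((Nat.card (H ⊓ g • H : AddSubgroup Γ) : ℕ) : ℝ) with hI
  have hI0 : 0 ≤ I := by positivity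
  have h1 : (B.card : ℝ) * B.card ≤ I * (K * A.card) := by
    have h2 : (B.card : ℝ) * B.card ≤ I * (A + g • A).card := by
      rw [hI]
      exact_mod_cast hfib
    exact h2.trans (mul_le_mul_of_nonneg_left hK hI0)
  have h2 : (A.card : ℝ) ≤ T.card * B.card := by exact_mod_cast hAt
  have h3 : (A.card : ℝ) * A.card ≤ (K * (T.card : ℝ) ^ 2 * I) * A.card := by
    calc (A.card : ℝ) * A.card ≤ (T.card * B.card) * (T.card * B.card) :=
          mul_le_mul h2 h2 hpos.le (by positivity)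
      _ = (T.card : ℝ) ^ 2 * (B.card * B.card) := by ring
      _ ≤ (T.card : ℝ) ^ 2 * (I * (K * A.card)) := mul_le_mul_of_nonneg_left h1 (by positivity)
      _ = _ := by ring
  exact le_of_mul_le_mul_right h3 hpos

/-- **The principle.** -/
theorem principle (A T : Finset Γ) (hA : A.Nonempty) (K L : ℝ) (H : AddSubgroup Γ) [Finite H]
    (hcov : ∀ a ∈ A, ∃ t ∈ T, a - t ∈ H) (hHL : (Nat.card H : ℝ) ≤ L * A.card)
    (hfin : (Set.range fun g : G => g • H).Finite)
    (hK : ∀ g : G, ((A + g • A).card : ℝ) ≤ K * A.card) :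
    ∃ (N : AddSubgroup Γ) (T' : Finset Γ), Finite N ∧ (∀ g : G, g • N = N) ∧
      (Nat.card N : ℝ) ≤ (L * K * (T.card : ℝ) ^ 2) ^ 2 * Nat.card H ∧
      (T'.card : ℝ) ≤ (L * K * (T.card : ℝ) ^ 2) ^ 2 * T.card ∧
      ∀ a ∈ A, ∃ t ∈ T', a - t ∈ N := by
  classical
  have hpos : (0 : ℝ) < A.card := by exact_mod_cast hA.card_pos
  have hK0 : 0 ≤ K := by
    have h1 := hK 1
    have h2 : (0 : ℝ) ≤ (A + (1 : G) • A).card := by positivity
    by_contra hneg
    push Not at hneg
    nlinarith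
  have hL0 : 0 ≤ L := by
    have h2 : (0 : ℝ) ≤ Nat.card H := by positivity
    by_contra hneg
    push Not at hneg
    nlinarith
  have hc : 0 ≤ L * K * (T.card : ℝ) ^ 2 := by positivity
  have hn : ∀ g : G, (g • H).relIndex H ≤ ⌊L * K * (T.card : ℝ) ^ 2⌋₊ := by
    intro g
    have hfI : Finite (H ⊓ g • H : AddSubgroup Γ) := finite_inf _ _
    have h1 := inter_large A T hA K H hcov g (hK g)
    have h2 := card_inf_mul H (g • H)
    have hI : (0 : ℝ) < Nat.card (H ⊓ g • H : AddSubgroup Γ) := by exact_mod_cast Nat.card_pos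
    refine Nat.le_floor ?_
    have h3 : (Nat.card (H ⊓ g • H : AddSubgroup Γ) : ℝ) * ((g • H).relIndex H : ℝ) =
        Nat.card H := by exact_mod_cast h2
    have h4 : (Nat.card (H ⊓ g • H : AddSubgroup Γ) : ℝ) * ((g • H).relIndex H : ℝ) ≤
        Nat.card (H ⊓ g • H : AddSubgroup Γ) * (L * K * (T.card : ℝ) ^ 2) := by
      rw [h3]
      calc (Nat.card H : ℝ) ≤ L * A.card := hHL
        _ ≤ L * (K * (T.card : ℝ) ^ 2 * Nat.card (H ⊓ g • H : AddSubgroup Γ)) :=
            mul_le_mul_of_nonneg_left h1 hL0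
        _ = _ := by ring
    exact le_of_mul_le_mul_left h4 hI
  obtain ⟨N, hNf, hinv, hNH⟩ := exists_invariant H hfin _ hn
  set n := ⌊L * K * (T.card : ℝ) ^ 2⌋₊ with hndef
  have hnle : (n : ℝ) ≤ L * K * (T.card : ℝ) ^ 2 := Nat.floor_le hc
  have hn2 : ((n ^ 2 : ℕ) : ℝ) ≤ (L * K * (T.card : ℝ) ^ 2) ^ 2 := by
    push_cast
    exact pow_le_pow_left₀ (by positivity) hnle 2
  have hfNH : Finite (N ⊓ H : AddSubgroup Γ) := finite_inf _ _
  have hfHN : Finite (H ⊓ N : AddSubgroup Γ) := finite_inf _ _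
  have e1 := card_inf_mul N H
  have e2 := card_inf_mul H N
  have p1 : 0 < H.relIndex N := by
    rcases Nat.eq_zero_or_pos (H.relIndex N) with h | h
    · rw [h, Nat.mul_zero] at e1
      have : 0 < Nat.card N := Nat.card_pos
      omega
    · exact h
  have p2 : 0 < N.relIndex H := by
    rcases Nat.eq_zero_or_pos (N.relIndex H) with h | h
    · rw [h, Nat.mul_zero] at e2
      have : 0 < Nat.card H := Nat.card_pos
      omega
    · exact h
  have q1 : H.relIndex N ≤ n ^ 2 := (Nat.le_mul_of_pos_right _ p2).trans hNH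
  have q2 : N.relIndex H ≤ n ^ 2 := (Nat.le_mul_of_pos_left _ p1).trans hNH
  have hNcard : Nat.card N ≤ n ^ 2 * Nat.card H := by
    rw [← e1, Nat.mul_comm]
    exact Nat.mul_le_mul q1 (card_le_of_le inf_le_right)
  obtain ⟨S, hS, hScov⟩ := Pool.Agent.TH404.Tor.transversal H (N ⊓ H) inf_le_right
  have hScard : S.card ≤ n ^ 2 := by
    have h1 : S.card * Nat.card (N ⊓ H : AddSubgroup Γ) =
        N.relIndex H * Nat.card (N ⊓ H : AddSubgroup Γ) := by
      rw [hS, ← e2, inf_comm, Nat.mul_comm]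
    have h2 := Nat.eq_of_mul_eq_mul_right Nat.card_pos h1
    omega
  refine ⟨N, T + S, hNf, hinv, ?_, ?_, ?_⟩
  · calc (Nat.card N : ℝ) ≤ ((n ^ 2 : ℕ) : ℝ) * Nat.card H := by exact_mod_cast hNcard
      _ ≤ _ := mul_le_mul_of_nonneg_right hn2 (by positivity)
  · calc ((T + S).card : ℝ) ≤ (T.card : ℝ) * S.card := by exact_mod_cast Finset.card_add_le
      _ ≤ T.card * ((n ^ 2 : ℕ) : ℝ) := by
          refine mul_le_mul_of_nonneg_left ?_ (by positivity)
          exact_mod_cast hScard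
      _ ≤ T.card * (L * K * (T.card : ℝ) ^ 2) ^ 2 := mul_le_mul_of_nonneg_left hn2 (by positivity)
      _ = _ := by ring
  · intro a ha
    obtain ⟨t, ht, hat⟩ := hcov a ha
    obtain ⟨s, hs, hsN⟩ := hScov _ hat
    refine ⟨t + s, Finset.add_mem_add ht hs, ?_⟩
    have := (AddSubgroup.mem_inf.1 hsN).1
    rwa [sub_sub] at this

/-- **Marton's conjecture with a group of automorphisms**, bounded exponent -/
theorem torsion (m : ℕ) (hm : 0 < m) (htor : ∀ x : Γ, m • x = 0) (K : ℝ) (A : Finset Γ)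
    (hA : A.Nonempty) (hfin : {x : Γ | ∃ g : G, g • x ∈ A}.Finite)
    (hK : ∀ g : G, ((A + g • A).card : ℝ) ≤ K * A.card) :
    ∃ (N : AddSubgroup Γ) (T : Finset Γ), Finite N ∧ (∀ g : G, g • N = N) ∧
      (Nat.card N : ℝ) ≤ (2 * K) ^ (164022 * (Nat.log 2 m + 1)) * A.card ∧
      (T.card : ℝ) ≤ (2 * K) ^ (205027 * (Nat.log 2 m + 1)) ∧
      ∀ a ∈ A, ∃ t ∈ T, a - t ∈ N := by
  classical
  have hpos : (0 : ℝ) < A.card := by exact_mod_cast hA.card_pos
  have hK1' := hK 1
  rw [one_smul] at hK1'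
  have hK1 : 1 ≤ K := by
    have h1 : (A.card : ℝ) ≤ (A + A).card := by
      exact_mod_cast Finset.card_le_card_add_right hA
    nlinarith
  obtain ⟨H, T, hHf, hHA, hTc, hcov⟩ := Pool.Agent.TH404.Tor.upper m hm htor K A hA hK1'
  obtain ⟨e, he⟩ : ∃ e : ℕ, e = 41005 * (Nat.log 2 m + 1) := ⟨_, rfl⟩
  rw [← he] at hTc
  -- the group generated by the orbit
  set S : Finset Γ := hfin.toFinset with hSdef
  set W := AddSubgroup.closure (S : Set Γ) with hW
  have hWf : Finite W := Pool.Agent.TH404.Tor.closure_finite m hm htor S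
  have hSmem : ∀ x, x ∈ S ↔ ∃ g : G, g • x ∈ A := by
    intro x
    rw [hSdef, Set.Finite.mem_toFinset, Set.mem_ofPred_eq]
  have hWinv : ∀ (g : G) (x : Γ), x ∈ W → g • x ∈ W := by
    intro g
    have h1 : W ≤ W.comap (DistribSMul.toAddMonoidHom Γ g) := by
      rw [hW, AddSubgroup.closure_le]
      intro x hx
      obtain ⟨k, hk⟩ := (hSmem x).1 hx
      refine AddSubgroup.subset_closure ?_
      refine (hSmem _).2 ⟨k * g⁻¹, ?_⟩
      rw [DistribSMul.toAddMonoidHom_apply, ← mul_smul, inv_mul_cancel_right]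
      exact hk
    exact fun x hx => h1 hx
  have hAW : ∀ a ∈ A, a ∈ W := fun a ha =>
    AddSubgroup.subset_closure ((hSmem a).2 ⟨1, by rwa [one_smul]⟩)
  have hfH' : Finite (H ⊓ W : AddSubgroup Γ) := finite_inf _ _
  have hrange : (Set.range fun g : G => g • (H ⊓ W)).Finite := by
    have h1 : {V : AddSubgroup Γ | V ≤ W}.Finite := by
      have h2 : {s : Set Γ | s ⊆ (W : Set Γ)}.Finite := (Set.toFinite (W : Set Γ)).finite_subsets
      exact h2.preimage (SetLike.coe_injective.injOn)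
    refine h1.subset ?_
    rintro _ ⟨g, rfl⟩
    intro x hx
    obtain ⟨y, hy, rfl⟩ := (AddSubgroup.mem_smul_pointwise_iff_exists _ _ _).1 hx
    exact hWinv g y hy.2
  -- new representatives
  let f : Γ → Γ := fun t => if h : ∃ a ∈ A, a - t ∈ H then h.choose else 0
  have hcov' : ∀ a ∈ A, ∃ t ∈ T.image f, a - t ∈ H ⊓ W := by
    intro a ha
    obtain ⟨t, ht, hat⟩ := hcov a ha
    have hex : ∃ a ∈ A, a - t ∈ H := ⟨a, ha, hat⟩
    refine ⟨f t, Finset.mem_image_of_mem f ht, ?_⟩
    have hft : f t = hex.choose := dif_pos hex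
    have h1 := hex.choose_spec
    rw [← hft] at h1
    refine AddSubgroup.mem_inf.2 ⟨?_, W.sub_mem (hAW a ha) (hAW _ h1.1)⟩
    have h2 := H.sub_mem hat h1.2
    rwa [sub_sub_sub_cancel_right] at h2
  have hH'A : (Nat.card (H ⊓ W : AddSubgroup Γ) : ℝ) ≤ 1 * A.card := by
    rw [one_mul]
    exact_mod_cast (card_le_of_le (inf_le_left : H ⊓ W ≤ H)).trans hHA
  obtain ⟨N, T', hNf, hinv, hNc, hT', hN⟩ :=
    principle A (T.image f) hA K 1 (H ⊓ W) hcov' hH'A hrange hK
  have hTi : ((T.image f).card : ℝ) ≤ (2 * K) ^ e :=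
    le_trans (by exact_mod_cast Finset.card_image_le) hTc
  have h2K : 1 ≤ 2 * K := by linarith
  have hKK : K ≤ 2 * K := by linarith
  have hB : (1 * K * ((T.image f).card : ℝ) ^ 2) ^ 2 ≤ (2 * K) ^ (4 * e + 2) := by
    have h1 : 1 * K * ((T.image f).card : ℝ) ^ 2 ≤ (2 * K) ^ (2 * e + 1) := by
      calc 1 * K * ((T.image f).card : ℝ) ^ 2 ≤ (2 * K) * ((2 * K) ^ e) ^ 2 := by
            rw [one_mul]
            exact mul_le_mul hKK (pow_le_pow_left₀ (by positivity) hTi 2) (by positivity)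
              (by positivity)
        _ = _ := by ring
    calc (1 * K * ((T.image f).card : ℝ) ^ 2) ^ 2 ≤ ((2 * K) ^ (2 * e + 1)) ^ 2 :=
          pow_le_pow_left₀ (by positivity) h1 2
      _ = _ := by ring
  have he1 : 4 * e + 2 ≤ 164022 * (Nat.log 2 m + 1) := by rw [he]; omega
  have he2 : 5 * e + 2 ≤ 205027 * (Nat.log 2 m + 1) := by rw [he]; omega
  refine ⟨N, T', hNf, hinv, ?_, ?_, hN⟩
  · calc (Nat.card N : ℝ) ≤ (1 * K * ((T.image f).card : ℝ) ^ 2) ^ 2 *
          Nat.card (H ⊓ W : AddSubgroup Γ) := hNc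
      _ ≤ (2 * K) ^ (4 * e + 2) * A.card := by
          refine mul_le_mul hB ?_ (by positivity) (by positivity)
          rwa [one_mul] at hH'A
      _ ≤ _ := by
          refine mul_le_mul_of_nonneg_right ?_ (by positivity)
          exact pow_le_pow_right₀ h2K he1
  · calc (T'.card : ℝ) ≤ (1 * K * ((T.image f).card : ℝ) ^ 2) ^ 2 * (T.image f).card := hT'
      _ ≤ (2 * K) ^ (4 * e + 2) * (2 * K) ^ e :=
          mul_le_mul hB hTi (by positivity) (by positivity)
      _ = (2 * K) ^ (5 * e + 2) := by rw [← pow_add]; congr 1; ring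
      _ ≤ _ := pow_le_pow_right₀ h2K he2

theorem growth_aux [Finite Γ] (e : ℕ) (he0 : e ≠ 0) (A : Finset Γ) (hA : A.Nonempty)
    (h : ∀ K : ℝ, 1 ≤ K → (∀ g : G, ((A + g • A).card : ℝ) ≤ K * A.card) →
      (A.card : ℝ) ≤ (2 * K) ^ e ∨ (Nat.card Γ : ℝ) ≤ (2 * K) ^ e * A.card) :
    ∃ g : G, 1 / 2 * (min (A.card : ℝ) (Nat.card Γ / A.card)) ^ ((1 : ℝ) / e) * A.card ≤
      (A + g • A).card := by
  classical
  have hpos : (0 : ℝ) < A.card := by exact_mod_cast hA.card_pos
  have hfin : (Set.range fun g : G => (A + g • A).card).Finite := by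
    refine (Set.finite_Iic (Nat.card Γ)).subset ?_
    rintro _ ⟨g, rfl⟩
    have := Fintype.ofFinite Γ
    rw [Set.mem_Iic, Nat.card_eq_fintype_card]
    exact Finset.card_le_univ _
  obtain ⟨_, ⟨g₀, rfl⟩, hmax⟩ := Set.exists_max_image _ id hfin ⟨_, Set.mem_range_self 1⟩
  simp only [id] at hmax
  refine ⟨g₀, ?_⟩
  obtain ⟨K, hKdef⟩ : ∃ K : ℝ, K = (A + g₀ • A).card / A.card := ⟨_, rfl⟩
  have hKA : K * A.card = (A + g₀ • A).card := by
    rw [hKdef]; exact div_mul_cancel₀ _ hpos.ne'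
  have hK : ∀ g : G, ((A + g • A).card : ℝ) ≤ K * A.card := by
    intro g
    rw [hKA]
    exact_mod_cast hmax _ ⟨g, rfl⟩
  have hK1 : 1 ≤ K := by
    have h0 : A.card ≤ (A + g₀ • A).card :=
      Finset.card_le_card_add_right (hA.smul_finset (a := g₀))
    have h1 : (A.card : ℝ) ≤ (A + g₀ • A).card := by exact_mod_cast h0
    rw [← hKA] at h1
    by_contra hlt
    push Not at hlt
    nlinarith
  have h2K : 1 ≤ 2 * K := by linarith
  have hmin : min (A.card : ℝ) (Nat.card Γ / A.card) ≤ (2 * K) ^ e := by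
    rcases h K hK1 hK with h | h
    · exact (min_le_left _ _).trans h
    · refine (min_le_right _ _).trans ?_
      rwa [div_le_iff₀ hpos]
  have hmin0 : 0 ≤ min (A.card : ℝ) (Nat.card Γ / A.card) := by positivity
  have h3 : (min (A.card : ℝ) (Nat.card Γ / A.card)) ^ ((1 : ℝ) / e) ≤ 2 * K := by
    calc (min (A.card : ℝ) (Nat.card Γ / A.card)) ^ ((1 : ℝ) / e)
        ≤ ((2 * K) ^ e) ^ ((1 : ℝ) / e) :=
          Real.rpow_le_rpow hmin0 hmin (by positivity)
      _ = 2 * K := by
          rw [one_div]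
          exact Real.pow_rpow_inv_natCast (by linarith) he0
  calc 1 / 2 * (min (A.card : ℝ) (Nat.card Γ / A.card)) ^ ((1 : ℝ) / e) * A.card
      ≤ 1 / 2 * (2 * K) * A.card := by gcongr
    _ = K * A.card := by ring
    _ = _ := hKA

/-- **Growth in modules without proper invariant subgroups** -/
theorem irreducible [Finite Γ] (m : ℕ) (hm : 0 < m) (htor : ∀ x : Γ, m • x = 0)
    (hirr : ∀ V : AddSubgroup Γ, (∀ g : G, g • V = V) → V = ⊥ ∨ V = ⊤) (A : Finset Γ)
    (hA : A.Nonempty) (e : ℕ) (he : 205027 * (Nat.log 2 m + 1) ≤ e) :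
    ∃ g : G, 1 / 2 * (min (A.card : ℝ) (Nat.card Γ / A.card)) ^ ((1 : ℝ) / e) * A.card ≤
      (A + g • A).card := by
  have he3 : 164022 * (Nat.log 2 m + 1) ≤ e := by omega
  refine growth_aux e (by omega) A hA fun K hK1 hK => ?_
  have h2K : 1 ≤ 2 * K := by linarith
  obtain ⟨N, T, hNf, hinv, hNc, hTc, hcov⟩ :=
    torsion m hm htor K A hA (Set.toFinite _) hK
  rcases hirr N hinv with h | h
  · left
    have h1 : A ⊆ T := by
      intro a ha
      obtain ⟨t, ht, hat⟩ := hcov a ha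
      rw [h, AddSubgroup.mem_bot, sub_eq_zero] at hat
      rwa [hat]
    calc (A.card : ℝ) ≤ T.card := by exact_mod_cast Finset.card_le_card h1
      _ ≤ _ := hTc
      _ ≤ _ := pow_le_pow_right₀ h2K he
  · right
    have h1 : Nat.card N = Nat.card Γ := by
      rw [h]
      exact Nat.card_congr AddSubgroup.topEquiv.toEquiv
    rw [h1] at hNc
    exact hNc.trans (mul_le_mul_of_nonneg_right (pow_le_pow_right₀ h2K he3) (by positivity))

/-- the converse -/
theorem converse (A T : Finset Γ) (L : ℝ) (N : AddSubgroup Γ) [Finite N]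
    (hinv : ∀ g : G, g • N = N) (hcov : ∀ a ∈ A, ∃ t ∈ T, a - t ∈ N) (hT : (T.card : ℝ) ≤ L)
    (hN : (Nat.card N : ℝ) ≤ L * A.card) (g : G) :
    ((A + g • A).card : ℝ) ≤ L ^ 3 * A.card := by
  classical
  have := Fintype.ofFinite N
  set F : Finset Γ := Finset.univ.image (fun x : N => (x : Γ)) with hF
  have hFc : F.card = Nat.card N := by
    rw [hF, Finset.card_image_of_injective _ Subtype.val_injective, Finset.card_univ,
      Nat.card_eq_fintype_card]
  have hsub : A + g • A ⊆ (T + g • T) + F := by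
    intro x hx
    obtain ⟨a, ha, b', hb', rfl⟩ := Finset.mem_add.1 hx
    obtain ⟨b, hb, rfl⟩ := Finset.mem_smul_finset.1 hb'
    obtain ⟨t, ht, hat⟩ := hcov a ha
    obtain ⟨s, hs, hbs⟩ := hcov b hb
    have h1 : g • (b - s) ∈ N := by
      rw [← hinv g]
      exact AddSubgroup.smul_mem_pointwise_smul _ _ _ hbs
    have h2 : (a - t) + g • (b - s) ∈ N := N.add_mem hat h1
    refine Finset.mem_add.2 ⟨t + g • s, Finset.add_mem_add ht (Finset.smul_mem_smul_finset hs),
      (a - t) + g • (b - s), ?_, ?_⟩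
    · rw [hF]
      exact Finset.mem_image.2 ⟨⟨_, h2⟩, Finset.mem_univ _, rfl⟩
    · rw [smul_sub]
      abel
  have h1 : (A + g • A).card ≤ (T.card * T.card) * Nat.card N := by
    refine (Finset.card_le_card hsub).trans (Finset.card_add_le.trans ?_)
    rw [hFc]
    refine Nat.mul_le_mul_right _ (Finset.card_add_le.trans ?_)
    rw [Finset.card_smul_finset]
  have hL0 : 0 ≤ L := le_trans (by positivity) hT
  calc ((A + g • A).card : ℝ) ≤ ((T.card : ℝ) * T.card) * Nat.card N := by exact_mod_cast h1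
    _ ≤ (L * L) * (L * A.card) := by
        refine mul_le_mul (mul_le_mul hT hT (by positivity) hL0) hN (by positivity) (by positivity)
    _ = _ := by ring

end Pool.Agent.U128.EqvSet
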