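import Pool.Agent.U128.Exists

/-!
# Operators without invariant subspaces on reflexive spaces have half-spaces of defect one
-/

set_option autoImplicit false

namespace Pool.Agent.U128.Reflexive

open Filter Topology Module Pool.Agent.U128.Comm Pool.Agent.U128.ClosedAlg
  Pool.Agent.U128.Transitive Pool.Agent.U128.Exists

variable {X : Type*} [NormedAddCommGroup X] [NormedSpace ℂ X]

/-- weak limits along ultrafilters -/
theorem weak_limit (hrefl : Function.Surjective (NormedSpace.inclusionInDoubleDual ℂ X))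
    (w : ℕ → X) (hw : ∀ k, ‖w k‖ ≤ 1) (𝒰 : Ultrafilter ℕ) :
    ∃ x : X, ∀ f : X →L[ℂ] ℂ, Tendsto (fun k => f (w k)) 𝒰 (𝓝 (f x)) := by
  have h1 : ∀ f : X →L[ℂ] ℂ, ∃ z : ℂ, ‖z‖ ≤ ‖f‖ ∧ Tendsto (fun k => f (w k)) 𝒰 (𝓝 z) := by
    intro f
    have h2 : ∀ k, f (w k) ∈ Metric.closedBall (0 : ℂ) ‖f‖ := by
      intro k
      rw [mem_closedBall_zero_iff]
      calc _ ≤ ‖f‖ * ‖w k‖ := f.le_opNorm _
        _ ≤ ‖f‖ * 1 := mul_le_mul_of_nonneg_left (hw k) (norm_nonneg _)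
        _ = _ := mul_one _
    obtain ⟨z, hz, hz'⟩ := (isCompact_closedBall (0 : ℂ) ‖f‖).ultrafilter_le_nhds
      (𝒰.map fun k => f (w k)) (by
        rw [le_principal_iff]
        exact Filter.mem_map.2 (Filter.univ_mem' h2))
    exact ⟨z, mem_closedBall_zero_iff.1 hz, hz'⟩
  choose φ hφ1 hφ2 using h1
  let Φ₀ : (X →L[ℂ] ℂ) →ₗ[ℂ] ℂ :=
    { toFun := φ
      map_add' := fun f g => tendsto_nhds_unique (hφ2 (f + g)) ((hφ2 f).add (hφ2 g))
      map_smul' := fun a f => tendsto_nhds_unique (hφ2 (a • f)) ((hφ2 f).const_smul a) }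
  let Φ : (X →L[ℂ] ℂ) →L[ℂ] ℂ := Φ₀.mkContinuous 1 fun f => by
    rw [one_mul]
    exact hφ1 f
  obtain ⟨x, hx⟩ := hrefl Φ
  refine ⟨x, fun f => ?_⟩
  have h3 : f x = φ f := by
    have := congrArg (fun ψ => ψ f) hx
    exact this
  rw [h3]
  exact hφ2 f

theorem no_eigen (hX : ¬ FiniteDimensional ℂ X) {T : X →L[ℂ] X} (hT : NoInv T) {l : ℂ} {x : X}
    (hx : T x = l • x) : x = 0 := by
  by_contra hx0
  set Z : Submodule ℂ X := LinearMap.ker ((T - l • ContinuousLinearMap.id ℂ X : X →L[ℂ] X) :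
    X →ₗ[ℂ] X) with hZ
  have hmem : ∀ z, z ∈ Z ↔ T z = l • z := by
    intro z
    rw [hZ, LinearMap.mem_ker]
    exact sub_eq_zero
  have hcl : IsClosed (Z : Set X) := by
    exact (T - l • ContinuousLinearMap.id ℂ X).isClosed_ker
  rcases hT Z hcl (fun z hz => by
    rw [hmem] at hz ⊢
    rw [hz, map_smul, hz]) with h1 | h1
  · have := (hmem x).2 hx
    rw [h1, Submodule.mem_bot] at this
    exact hx0 this
  · rcases hT (Submodule.span ℂ {x}) (Submodule.closed_of_finiteDimensional _) (fun z hz => by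
      have h2 : z ∈ Z := by rw [h1]; trivial
      rw [(hmem z).1 h2]
      exact Submodule.smul_mem _ _ hz) with h2 | h2
    · exact hx0 (Submodule.span_singleton_eq_bot.1 h2)
    · apply hX
      have h3 : FiniteDimensional ℂ (Submodule.span ℂ {x}) := inferInstance
      rw [h2] at h3
      exact LinearEquiv.finiteDimensional Submodule.topEquiv

theorem direction (l : ℂ) : ∃ u : ℂ, ‖u‖ = 1 ∧ ∀ t : ℝ, 0 ≤ t → ‖l + t * u‖ = ‖l‖ + t := by
  by_cases hl : l = 0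
  · refine ⟨1, norm_one, fun t ht => ?_⟩
    rw [hl, zero_add, mul_one, norm_zero, zero_add, Complex.norm_real, Real.norm_of_nonneg ht]
  · have hn : 0 < ‖l‖ := norm_pos_iff.2 hl
    refine ⟨((‖l‖⁻¹ : ℝ) : ℂ) * l, ?_, fun t ht => ?_⟩
    · rw [norm_mul, Complex.norm_real, Real.norm_of_nonneg (by positivity),
        inv_mul_cancel₀ hn.ne']
    · have e : l + t * (((‖l‖⁻¹ : ℝ) : ℂ) * l) = ((1 + t * ‖l‖⁻¹ : ℝ) : ℂ) * l := by
        push_cast; ring
      rw [e, norm_mul, Complex.norm_real, Real.norm_of_nonneg (by positivity)]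
      field_simp

variable [CompleteSpace X]

/-- resolvents at points tending to the spectrum -/
theorem resolvents [Nontrivial X] (T : X →L[ℂ] X) : ∃ (l : ℂ) (μ : ℕ → ℂ) (R : ℕ → X →L[ℂ] X) (e : X),
    Tendsto μ atTop (𝓝 l) ∧ (∀ n x, μ n • R n x - T (R n x) = x) ∧
    ∀ K N : ℕ, ∃ n ≥ N, (K : ℝ) ≤ ‖R n e‖ := by
  obtain ⟨l, hl, hmax⟩ := (spectrum.isCompact T).exists_isMaxOn (spectrum.nonempty T)
    (f := fun z : ℂ => ‖z‖) continuous_norm.continuousOn
  obtain ⟨u, hu, hu'⟩ := direction l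
  set μ : ℕ → ℂ := fun n => l + ((1 / ((n : ℝ) + 1) : ℝ) : ℂ) * u with hμ
  have hμn : ∀ n, μ n ∉ spectrum ℂ T := by
    intro n hn
    have h1 := hmax hn
    have h2 := hu' (1 / ((n : ℝ) + 1)) (by positivity)
    have h3 : (0 : ℝ) < 1 / ((n : ℝ) + 1) := by positivity
    have h4 : ‖μ n‖ ≤ ‖l‖ := h1
    rw [hμ] at h4
    linarith
  have hdist : ∀ n, ‖l - μ n‖ = 1 / ((n : ℝ) + 1) := by
    intro n
    rw [hμ, sub_add_cancel_left, norm_neg, norm_mul, hu, mul_one, Complex.norm_real,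
      Real.norm_of_nonneg (by positivity)]
  have hunit : ∀ n, ∃ U : (X →L[ℂ] X)ˣ, (U : X →L[ℂ] X) = algebraMap ℂ (X →L[ℂ] X) (μ n) - T := by
    intro n
    exact spectrum.notMem_iff.1 (hμn n)
  choose U hU using hunit
  have hlim : Tendsto μ atTop (𝓝 l) := by
    rw [tendsto_iff_norm_sub_tendsto_zero]
    have : (fun n => ‖μ n - l‖) = fun n : ℕ => 1 / ((n : ℝ) + 1) := by
      ext n
      rw [norm_sub_rev, hdist]
    rw [this]
    exact tendsto_one_div_add_atTop_nhds_zero_nat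
  have hexp : ∃ e : X, ∀ K N : ℕ, ∃ n ≥ N, (K : ℝ) ≤ ‖((U n)⁻¹ : (X →L[ℂ] X)ˣ).1 e‖ := by
    by_contra hcon
    push Not at hcon
    obtain ⟨C, hC⟩ := banach_steinhaus (g := fun n => ((U n)⁻¹ : (X →L[ℂ] X)ˣ).1) (by
      intro e
      obtain ⟨K, N, hKN⟩ := hcon e
      refine ⟨K + ∑ i ∈ Finset.range N, ‖((U i)⁻¹ : (X →L[ℂ] X)ˣ).1 e‖, fun n => ?_⟩
      rcases Nat.lt_or_ge n N with h1 | h1
      · have h2 := Finset.single_le_sum (f := fun i => ‖((U i)⁻¹ : (X →L[ℂ] X)ˣ).1 e‖)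
          (fun i _ => norm_nonneg _) (Finset.mem_range.2 h1)
        have h3 : (0 : ℝ) ≤ K := Nat.cast_nonneg K
        linarith
      · have h2 := hKN n h1
        have h3 : 0 ≤ ∑ i ∈ Finset.range N, ‖((U i)⁻¹ : (X →L[ℂ] X)ˣ).1 e‖ :=
          Finset.sum_nonneg fun i _ => norm_nonneg _
        linarith)
    obtain ⟨n, hn⟩ := exists_nat_gt C
    have h1 : 0 < ‖((U n)⁻¹ : (X →L[ℂ] X)ˣ).1‖ := norm_pos_iff.2 (Units.ne_zero _)
    have h2 : ‖algebraMap ℂ (X →L[ℂ] X) (l - μ n)‖ < ‖((U n)⁻¹ : (X →L[ℂ] X)ˣ).1‖⁻¹ := by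
      rw [norm_algebraMap', hdist, one_div]
      refine inv_strictAnti₀ h1 ?_
      linarith [hC n]
    have h3 : ((U n).add _ h2 : X →L[ℂ] X) = algebraMap ℂ (X →L[ℂ] X) l - T := by
      rw [Units.val_add, hU, map_sub]
      abel
    exact spectrum.mem_iff.1 hl (h3 ▸ ((U n).add _ h2).isUnit)
  obtain ⟨e, he⟩ := hexp
  refine ⟨l, μ, fun n => ((U n)⁻¹ : (X →L[ℂ] X)ˣ).1, e, hlim, ?_, he⟩
  intro n x
  have h1 : ((U n : X →L[ℂ] X) * ((U n)⁻¹ : (X →L[ℂ] X)ˣ).1) x = x := by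
    rw [Units.mul_inv]
    rfl
  rw [hU] at h1
  exact h1

/-- **Existence of half-spaces of defect one.** -/
theorem exists_half (hX : ¬ FiniteDimensional ℂ X)
    (hrefl : Function.Surjective (NormedSpace.inclusionInDoubleDual ℂ X))
    {T : X →L[ℂ] X} (hT : NoInv T) : ∃ Y : Submodule ℂ X, Half Y ∧ defect T Y ≤ 1 := by
  have _ : Nontrivial X := by
    by_contra h
    rw [not_nontrivial_iff_subsingleton] at h
    exact hX inferInstance
  obtain ⟨l, μ, R, e, hμ, hR, hexp⟩ := resolvents T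
  refine half_of_admissible T e fun G δ hδ => ?_
  choose n hn hnK using fun k : ℕ => hexp (k + 1) k
  have hpos : ∀ k, 0 < ‖R (n k) e‖ := by
    intro k
    have h1 := hnK k
    have h2 : (0 : ℝ) < ((k + 1 : ℕ) : ℝ) := by positivity
    linarith
  set w : ℕ → X := fun k => (((‖R (n k) e‖⁻¹ : ℝ)) : ℂ) • R (n k) e with hw
  have hw1 : ∀ k, ‖w k‖ = 1 := by
    intro k
    rw [hw, norm_smul, Complex.norm_real, Real.norm_of_nonneg (inv_nonneg.2 (norm_nonneg _)),
      inv_mul_cancel₀ (hpos k).ne']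
  have hTw : ∀ k, T (w k) = μ (n k) • w k + (-(((‖R (n k) e‖⁻¹ : ℝ)) : ℂ)) • e := by
    intro k
    have h1 : T (R (n k) e) = μ (n k) • R (n k) e - e := by
      rw [eq_sub_iff_add_eq, ← eq_sub_iff_add_eq', hR]
    rw [hw, map_smul, h1, smul_sub, smul_comm, neg_smul, sub_eq_add_neg]
  have hμn : Tendsto (fun k => μ (n k)) atTop (𝓝 l) :=
    hμ.comp (tendsto_atTop_mono hn tendsto_id)
  have hβ : Tendsto (fun k => (((‖R (n k) e‖⁻¹ : ℝ)) : ℂ)) atTop (𝓝 0) := by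
    have h1 : Tendsto (fun k => ‖R (n k) e‖) atTop atTop := by
      refine tendsto_atTop_mono hnK ?_
      exact tendsto_natCast_atTop_atTop.comp (tendsto_add_atTop_nat 1)
    have h2 := tendsto_inv_atTop_zero.comp h1
    have h3 := (Complex.continuous_ofReal.tendsto 0).comp h2
    rw [Complex.ofReal_zero] at h3
    exact h3
  set 𝒰 : Ultrafilter ℕ := Filter.hyperfilter ℕ with h𝒰
  have hle : (𝒰 : Filter ℕ) ≤ atTop := by
    rw [← Nat.cofinite_eq_atTop]
    exact Filter.hyperfilter_le_cofinite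
  obtain ⟨x, hx⟩ := weak_limit hrefl w (fun k => (hw1 k).le) 𝒰
  have hTx : T x = l • x := by
    rw [← sub_eq_zero]
    by_contra hne
    obtain ⟨f, -, hf⟩ := exists_dual_vector'' ℂ (T x - l • x)
    have h1 : Tendsto (fun k => (f.comp T) (w k) - l * f (w k)) 𝒰 (𝓝 (f (T x) - l * f x)) :=
      (hx (f.comp T)).sub ((hx f).const_mul l)
    have h2 : ∀ k, (f.comp T) (w k) - l * f (w k) =
        (μ (n k) - l) * f (w k) - (((‖R (n k) e‖⁻¹ : ℝ)) : ℂ) * f e := by
      intro k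
      rw [ContinuousLinearMap.comp_apply, hTw, map_add, map_smul, smul_eq_mul,
        map_smul f (-(((‖R (n k) e‖⁻¹ : ℝ)) : ℂ)) e, smul_eq_mul]
      ring
    have h3 : Tendsto (fun k => (f.comp T) (w k) - l * f (w k)) 𝒰 (𝓝 0) := by
      have e1 : Tendsto (fun k => (μ (n k) - l) * f (w k)) 𝒰 (𝓝 0) := by
        have h4 : Tendsto (fun k => μ (n k) - l) 𝒰 (𝓝 0) := by
          have := (hμn.mono_left hle).sub_const l
          rwa [sub_self] at this
        have := h4.mul (hx f)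
        rwa [zero_mul] at this
      have e2 : Tendsto (fun k => (((‖R (n k) e‖⁻¹ : ℝ)) : ℂ) * f e) 𝒰 (𝓝 0) := by
        have := (hβ.mono_left hle).mul_const (f e)
        rwa [zero_mul] at this
      have := e1.sub e2
      rw [sub_zero] at this
      exact this.congr fun k => (h2 k).symm
    have h4 := tendsto_nhds_unique h1 h3
    have h5 : f (T x - l • x) = f (T x) - l * f x := by
      rw [map_sub, map_smul, smul_eq_mul]
    rw [← h5, hf] at h4
    have h6 : ‖T x - l • x‖ = 0 := by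
      simpa using h4
    exact hne (norm_eq_zero.1 h6)
  have hx0 := no_eigen hX hT hTx
  have hsmall : ∀ᶠ k in (𝒰 : Filter ℕ), ∀ f ∈ G, ‖f (w k)‖ ≤ δ := by
    rw [Filter.eventually_all_finset]
    intro f _
    have h1 := hx f
    rw [hx0, map_zero] at h1
    have h2 := h1.norm
    rw [norm_zero] at h2
    exact (h2.eventually (gt_mem_nhds hδ)).mono fun k hk => hk.le
  obtain ⟨k, hk⟩ := hsmall.exists
  exact ⟨w k, ⟨hw1 k, _, _, hTw k⟩, hk⟩

end Pool.Agent.U128.Reflexive
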