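import Pool.Agent.U128.HalfSpace

/-!
# Norm closed algebras with an almost invariant closed subspace
-/

set_option autoImplicit false

namespace Pool.Agent.U128.ClosedAlg

open Module Pool.Agent.U128.Comm Pool.Agent.U128.HalfSpace

variable {X : Type*} [NormedAddCommGroup X] [NormedSpace ℂ X]

/-- the dimension of `(R Y + Y) / Y` (a cardinal) -/
noncomputable def defect (R : X →L[ℂ] X) (Y : Submodule ℂ X) : Cardinal :=
  Module.rank ℂ ((Y.map (R : X →ₗ[ℂ] X)).map Y.mkQ)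

theorem defect_le_iff (R : X →L[ℂ] X) (Y : Submodule ℂ X) (n : ℕ) :
    defect R Y ≤ n ↔ AC Y (Y.map (R : X →ₗ[ℂ] X)) ∧ rd Y (Y.map (R : X →ₗ[ℂ] X)) ≤ n := by
  unfold defect AC rd
  constructor
  · intro h
    have h1 : FiniteDimensional ℂ ((Y.map (R : X →ₗ[ℂ] X)).map Y.mkQ) :=
      Module.rank_lt_aleph0_iff.1 (h.trans_lt Cardinal.natCast_lt_aleph0)
    refine ⟨h1, ?_⟩
    rw [← finrank_eq_rank] at h
    exact_mod_cast h
  · rintro ⟨h1, h2⟩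
    rw [← finrank_eq_rank]
    exact_mod_cast h2

theorem defect_lt_aleph0_iff (R : X →L[ℂ] X) (Y : Submodule ℂ X) :
    defect R Y < Cardinal.aleph0 ↔ ∃ n : ℕ, defect R Y ≤ n := by
  constructor
  · intro h
    obtain ⟨n, hn⟩ := Cardinal.lt_aleph0.1 h
    exact ⟨n, hn.le⟩
  · rintro ⟨n, hn⟩
    exact hn.trans_lt Cardinal.natCast_lt_aleph0

/-- the compression -/
noncomputable def cmp (Y : Submodule ℂ X) (R : X →L[ℂ] X) : Y →L[ℂ] X ⧸ Y :=
  Y.mkQL ∘L (R ∘L Y.subtypeL)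

theorem rank_cmp (Y : Submodule ℂ X) (R : X →L[ℂ] X) :
    LinearMap.rank (cmp Y R : Y →ₗ[ℂ] X ⧸ Y) = defect R Y := by
  unfold defect LinearMap.rank
  have : LinearMap.range (cmp Y R : Y →ₗ[ℂ] X ⧸ Y) = (Y.map (R : X →ₗ[ℂ] X)).map Y.mkQ := by
    have e : (cmp Y R : Y →ₗ[ℂ] X ⧸ Y) = Y.mkQ ∘ₗ ((R : X →ₗ[ℂ] X) ∘ₗ Y.subtype) := rfl
    rw [e, LinearMap.range_comp, LinearMap.range_comp, Submodule.range_subtype]
  rw [this]

theorem isClosed_defect {Y : Submodule ℂ X} (hY : IsClosed (Y : Set X)) (n : ℕ) :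
    IsClosed {R : X →L[ℂ] X | defect R Y ≤ n} := by
  have hY' := hY
  have h1 : IsClosed {f : Y →L[ℂ] X ⧸ Y | ¬ ((n + 1 : ℕ) : Cardinal) ≤
      LinearMap.rank (f : Y →ₗ[ℂ] X ⧸ Y)} :=
    (isOpen_setOfPred_nat_le_rank (n + 1)).isClosed_compl
  have h2 : Continuous (cmp Y) :=
    continuous_const.clm_comp (continuous_id.clm_comp continuous_const)
  have h3 := h1.preimage h2
  convert h3 using 1
  ext R
  show defect R Y ≤ n ↔ ¬ ((n + 1 : ℕ) : Cardinal) ≤ LinearMap.rank (cmp Y R : Y →ₗ[ℂ] X ⧸ Y)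
  rw [rank_cmp, not_le, Nat.cast_succ, Cardinal.lt_natCast_add_one_iff]

theorem map_le_sup (Y : Submodule ℂ X) (R R₀ : X →L[ℂ] X) {t : ℂ} (ht : t ≠ 0) :
    Y.map (R : X →ₗ[ℂ] X) ≤
      Y.map ((R₀ + t • R : X →L[ℂ] X) : X →ₗ[ℂ] X) ⊔ Y.map (R₀ : X →ₗ[ℂ] X) := by
  rintro _ ⟨y, hy, rfl⟩
  have e : R y = t⁻¹ • ((R₀ + t • R) y) + (-t⁻¹) • R₀ y := by
    rw [_root_.add_apply, _root_.smul_apply, smul_add, smul_smul,
      inv_mul_cancel₀ ht, one_smul, neg_smul]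
    abel
  show R y ∈ _
  rw [e]
  exact Submodule.add_mem_sup (Submodule.smul_mem _ _ (Submodule.mem_map_of_mem hy))
    (Submodule.smul_mem _ _ (Submodule.mem_map_of_mem hy))

theorem defect_le_add (Y : Submodule ℂ X) (R R₀ : X →L[ℂ] X) {t : ℂ} (ht : t ≠ 0) (n m : ℕ)
    (h1 : defect (R₀ + t • R) Y ≤ n) (h2 : defect R₀ Y ≤ m) : defect R Y ≤ (n + m : ℕ) := by
  unfold defect at h1 h2 ⊢
  have h3 := Submodule.map_mono (f := Y.mkQ) (map_le_sup Y R R₀ ht)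
  rw [Submodule.map_sup] at h3
  have h4 := Submodule.rank_mono h3
  have h5 := Submodule.rank_add_le_rank_add_rank
    ((Y.map ((R₀ + t • R : X →L[ℂ] X) : X →ₗ[ℂ] X)).map Y.mkQ)
    ((Y.map (R₀ : X →ₗ[ℂ] X)).map Y.mkQ)
  refine h4.trans (h5.trans ?_)
  push_cast
  exact add_le_add h1 h2

/-- uniform boundedness of the defects -/
theorem uniform (A : Subalgebra ℂ (X →L[ℂ] X))
    {Y : Submodule ℂ X} (hY : IsClosed (Y : Set X))
    (h : ¬ IsMeagre {R : A | defect (R : X →L[ℂ] X) Y < Cardinal.aleph0}) :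
    ∃ c : ℕ, ∀ R ∈ A, defect R Y ≤ c := by
  have h1 : {R : A | defect (R : X →L[ℂ] X) Y < Cardinal.aleph0} ⊆
      ⋃ n : ℕ, {R : A | defect (R : X →L[ℂ] X) Y ≤ n} := by
    intro R hR
    obtain ⟨n, hn⟩ := (defect_lt_aleph0_iff _ _).1 hR
    exact Set.mem_iUnion.2 ⟨n, hn⟩
  obtain ⟨n, hn⟩ : ∃ n : ℕ, ¬ IsNowhereDense {R : A | defect (R : X →L[ℂ] X) Y ≤ n} := by
    by_contra hcon
    push Not at hcon
    exact h ((isMeagre_iUnion fun n => (hcon n).isMeagre).mono h1)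
  have hcl : IsClosed {R : A | defect (R : X →L[ℂ] X) Y ≤ n} :=
    (isClosed_defect hY n).preimage continuous_subtype_val
  rw [hcl.isNowhereDense_iff, ← Ne, ← Set.nonempty_iff_ne_empty] at hn
  obtain ⟨R₀, hR₀⟩ := hn
  rw [mem_interior_iff_mem_nhds, Metric.mem_nhds_iff] at hR₀
  obtain ⟨ε, hε, hball⟩ := hR₀
  refine ⟨n + n, fun R hR => ?_⟩
  obtain ⟨t, ht0, ht⟩ : ∃ t : ℝ, 0 < t ∧ t * ‖R‖ < ε := by
    refine ⟨ε / (2 * (‖R‖ + 1)), by positivity, ?_⟩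
    rw [div_mul_eq_mul_div, div_lt_iff₀ (by positivity)]
    nlinarith [norm_nonneg R]
  refine defect_le_add Y R R₀ (t := (t : ℂ)) (by exact_mod_cast ht0.ne') n n ?_
    (hball (Metric.mem_ball_self hε))
  have h2 : (R₀ + (t : ℂ) • (⟨R, hR⟩ : A) : A) ∈ Metric.ball R₀ ε := by
    rw [Metric.mem_ball, dist_eq_norm, add_sub_cancel_left]
    change ‖(t : ℂ) • R‖ < ε
    rw [norm_smul, Complex.norm_real, Real.norm_of_nonneg ht0.le]
    exact ht
  exact hball h2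

/-- the group of the units of the algebra -/
noncomputable def hom (A : Subalgebra ℂ (X →L[ℂ] X)) : Aˣ →* (X ≃L[ℂ] X) :=
  (ContinuousLinearEquiv.unitsEquiv ℂ X).toMonoidHom.comp (Units.map (A.val : A →* (X →L[ℂ] X)))

theorem hom_apply (A : Subalgebra ℂ (X →L[ℂ] X)) (u : Aˣ) (x : X) :
    hom A u x = ((u : A) : X →L[ℂ] X) x := rfl

theorem im_hom (A : Subalgebra ℂ (X →L[ℂ] X)) (u : Aˣ) (Y : Submodule ℂ X) :
    im (hom A u) Y = Y.map ((((u : A) : X →L[ℂ] X)) : X →ₗ[ℂ] X) := rfl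

variable [CompleteSpace X]

/-- **Norm closed algebras.** -/
theorem closed_algebra (A : Subalgebra ℂ (X →L[ℂ] X)) (hA : IsClosed (A : Set (X →L[ℂ] X)))
    {Y : Submodule ℂ X} (hY : IsClosed (Y : Set X)) (c : ℕ)
    (h : ∀ R ∈ A, defect R Y ≤ c) :
    ∃ Z : Submodule ℂ X, IsClosed (Z : Set X) ∧ (∀ R ∈ A, ∀ x ∈ Z, R x ∈ Z) ∧
      dst Y Z ≤ (2 * c : ℕ) := by
  have _ : CompleteSpace A := hA.completeSpace_coe
  obtain ⟨Z, hZ, hinv, hd⟩ := groups hY (2 * c) (hom A).range (by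
    rintro _ ⟨u, rfl⟩
    obtain ⟨h1, h2⟩ := (defect_le_iff _ _ _).1 (h _ (u : A).2)
    obtain ⟨h3, h4⟩ := (defect_le_iff _ _ _).1 (h _ ((u⁻¹ : Aˣ) : A).2)
    rw [← im_hom] at h1 h2
    rw [← im_hom, map_inv] at h3 h4
    have h5 := ac_im (hom A u) h3
    rw [im_im_inv] at h5
    have h6 := rd_im (hom A u) Y (im (hom A u)⁻¹ Y)
    rw [im_im_inv] at h6
    rw [dst_le_iff]
    refine ⟨h1, h5, ?_⟩
    omega)
  refine ⟨Z, hZ, ?_, hd⟩
  intro R hR x hx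
  obtain ⟨t, ht0, ht⟩ : ∃ t : ℝ, 0 < t ∧ t * ‖R‖ < 1 := by
    refine ⟨1 / (2 * (‖R‖ + 1)), by positivity, ?_⟩
    rw [div_mul_eq_mul_div, div_lt_iff₀ (by positivity)]
    nlinarith [norm_nonneg R]
  have h1 : ‖((t : ℂ) • (⟨R, hR⟩ : A))‖ < 1 := by
    have e : ‖((t : ℂ) • (⟨R, hR⟩ : A) : A)‖ = ‖(t : ℂ) • R‖ := rfl
    rw [e, norm_smul, Complex.norm_real, Real.norm_of_nonneg ht0.le]
    exact ht
  have h2 := hinv _ ⟨Units.oneSub _ h1, rfl⟩
  have h3 : hom A (Units.oneSub _ h1) x ∈ Z := by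
    rw [← h2]
    exact mem_im.2 ⟨x, hx, rfl⟩
  have h4 : hom A (Units.oneSub _ h1) x = x - (t : ℂ) • R x := rfl
  rw [h4] at h3
  have h5 : (t : ℂ) • R x ∈ Z := by
    have := Z.sub_mem hx h3
    rwa [sub_sub_cancel] at this
  exact (Submodule.smul_mem_iff Z (by exact_mod_cast ht0.ne')).1 h5

/-- **Algebras with uniformly bounded defects.** -/
theorem algebra (A : Subalgebra ℂ (X →L[ℂ] X)) {Y : Submodule ℂ X} (hY : IsClosed (Y : Set X))
    (c : ℕ) (h : ∀ R ∈ A, defect R Y ≤ c) :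
    ∃ Z : Submodule ℂ X, IsClosed (Z : Set X) ∧ (∀ R ∈ A, ∀ x ∈ Z, R x ∈ Z) ∧
      dst Y Z ≤ (2 * c : ℕ) := by
  obtain ⟨Z, h1, h2, h3⟩ := closed_algebra A.topologicalClosure
    A.isClosed_topologicalClosure hY c (by
      intro R hR
      have h4 : closure (A : Set (X →L[ℂ] X)) ⊆ {R | defect R Y ≤ c} :=
        closure_minimal (fun R hR => h R hR) (isClosed_defect hY c)
      exact h4 hR)
  exact ⟨Z, h1, fun R hR => h2 R (A.le_topologicalClosure hR), h3⟩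

/-- the commutant -/
theorem commutant (S : X →L[ℂ] X) {Y : Submodule ℂ X} (hY : IsClosed (Y : Set X))
    (h : ∀ R : X →L[ℂ] X, R * S = S * R → defect R Y < Cardinal.aleph0) :
    ∃ c : ℕ, ∀ R : X →L[ℂ] X, R * S = S * R → defect R Y ≤ c := by
  set A : Subalgebra ℂ (X →L[ℂ] X) := Subalgebra.centralizer ℂ {S} with hAdef
  have hmem : ∀ R, R ∈ A ↔ R * S = S * R := by
    intro R
    rw [hAdef, Subalgebra.mem_centralizer_iff]
    constructor
    · intro h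
      exact (h S rfl).symm
    · rintro h _ rfl
      exact h.symm
  have hA : IsClosed (A : Set (X →L[ℂ] X)) := Set.isClosed_centralizer _
  have _ : CompleteSpace A := hA.completeSpace_coe
  have _ : BaireSpace A := BaireSpace.of_completelyPseudoMetrizable
  obtain ⟨c, hc⟩ := uniform A hY (by
    have e : {R : A | defect (R : X →L[ℂ] X) Y < Cardinal.aleph0} = Set.univ :=
      Set.eq_univ_of_forall fun R => h R ((hmem R).1 R.2)
    rw [e]
    exact not_isMeagre_of_isOpen isOpen_univ Set.univ_nonempty)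
  exact ⟨c, fun R hR => hc R ((hmem R).2 hR)⟩

end Pool.Agent.U128.ClosedAlg
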