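import Mathlib

/-!
# Commensurable subspaces of a vector space

`rd A B` is the dimension of `B / (A ∩ B)`; `AC A B` says that it is finite.
-/

set_option autoImplicit false

namespace Pool.Agent.U128.Comm

open Module

variable {K V : Type*} [Field K] [AddCommGroup V] [Module K V]

/-- `B` is almost contained in `A` -/
def AC (A B : Submodule K V) : Prop := FiniteDimensional K (B.map A.mkQ)

/-- the dimension of `B / (A ∩ B)` -/
noncomputable def rd (A B : Submodule K V) : ℕ := finrank K (B.map A.mkQ)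

theorem ac_iff (A B : Submodule K V) :
    AC A B ↔ ∃ F : Submodule K V, FiniteDimensional K F ∧ B ≤ A ⊔ F := by
  constructor
  · intro h
    obtain ⟨g, hg⟩ := A.mkQ.exists_rightInverse_of_surjective (Submodule.range_mkQ A)
    have h' : FiniteDimensional K (B.map A.mkQ) := h
    refine ⟨(B.map A.mkQ).map g, inferInstance, ?_⟩
    intro b hb
    have h1 : b - g (A.mkQ b) ∈ A := by
      rw [← Submodule.Quotient.mk_eq_zero, ← Submodule.mkQ_apply, map_sub]
      have h2 : A.mkQ (g (A.mkQ b)) = A.mkQ b := LinearMap.congr_fun hg _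
      rw [h2, sub_self]
    rw [Submodule.mem_sup]
    exact ⟨_, h1, g (A.mkQ b), Submodule.mem_map_of_mem (Submodule.mem_map_of_mem hb), by abel⟩
  · rintro ⟨F, hF, hB⟩
    have h1 : B.map A.mkQ ≤ F.map A.mkQ := by
      refine (Submodule.map_mono hB).trans ?_
      rw [Submodule.map_sup]
      refine sup_le ?_ le_rfl
      rw [Submodule.mkQ_map_self]
      exact bot_le
    exact Submodule.finiteDimensional_of_le h1

theorem AC.of_le {A B : Submodule K V} (h : B ≤ A) : AC A B :=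
  (ac_iff A B).2 ⟨⊥, inferInstance, h.trans le_sup_left⟩

theorem AC.mono_left {A A' B : Submodule K V} (h : A ≤ A') (hB : AC A B) : AC A' B := by
  obtain ⟨F, hF, h1⟩ := (ac_iff A B).1 hB
  exact (ac_iff A' B).2 ⟨F, hF, h1.trans (sup_le_sup_right h F)⟩

theorem AC.mono_right {A B B' : Submodule K V} (h : B' ≤ B) (hB : AC A B) : AC A B' := by
  obtain ⟨F, hF, h1⟩ := (ac_iff A B).1 hB
  exact (ac_iff A B').2 ⟨F, hF, h.trans h1⟩

theorem AC.trans {A B C : Submodule K V} (h : AC A B) (h' : AC B C) : AC A C := by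
  obtain ⟨F, hF, h1⟩ := (ac_iff A B).1 h
  obtain ⟨F', hF', h2⟩ := (ac_iff B C).1 h'
  refine (ac_iff A C).2 ⟨F ⊔ F', inferInstance, h2.trans ?_⟩
  rw [← sup_assoc]
  exact sup_le_sup_right h1 F'

theorem AC.sup {A B C : Submodule K V} (h : AC A B) (h' : AC A C) : AC A (B ⊔ C) := by
  obtain ⟨F, hF, h1⟩ := (ac_iff A B).1 h
  obtain ⟨F', hF', h2⟩ := (ac_iff A C).1 h'
  refine (ac_iff A _).2 ⟨F ⊔ F', inferInstance, sup_le (h1.trans ?_) (h2.trans ?_)⟩
  · exact sup_le_sup_left le_sup_left A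
  · exact sup_le_sup_left le_sup_right A

theorem mem_ker_prod (A B : Submodule K V) (x : V) :
    A.mkQ.prod B.mkQ x = 0 ↔ x ∈ A ∧ x ∈ B := by
  have h : A.mkQ.prod B.mkQ x = (A.mkQ x, B.mkQ x) := rfl
  rw [h, Prod.mk_eq_zero, Submodule.mkQ_apply, Submodule.mkQ_apply,
    Submodule.Quotient.mk_eq_zero, Submodule.Quotient.mk_eq_zero]

theorem AC.inf {A B C : Submodule K V} (h : AC A C) (h' : AC B C) : AC (A ⊓ B) C := by
  have h1 : FiniteDimensional K (C.map A.mkQ) := h
  have h2 : FiniteDimensional K (C.map B.mkQ) := h'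
  have hle : A ⊓ B ≤ LinearMap.ker (A.mkQ.prod B.mkQ) := by
    intro x hx
    rw [LinearMap.mem_ker]
    exact (mem_ker_prod A B x).2 ⟨hx.1, hx.2⟩
  set f : (V ⧸ (A ⊓ B)) →ₗ[K] (V ⧸ A) × (V ⧸ B) := (A ⊓ B).liftQ (A.mkQ.prod B.mkQ) hle with hf
  have hinj : Function.Injective f := by
    rw [← LinearMap.ker_eq_bot, hf]
    refine Submodule.ker_liftQ_eq_bot _ _ _ ?_
    intro x hx
    rw [LinearMap.mem_ker] at hx
    exact ⟨((mem_ker_prod A B x).1 hx).1, ((mem_ker_prod A B x).1 hx).2⟩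
  have hmap : (C.map (A ⊓ B).mkQ).map f ≤ (C.map A.mkQ).prod (C.map B.mkQ) := by
    rintro _ ⟨_, ⟨x, hx, rfl⟩, rfl⟩
    exact ⟨Submodule.mem_map_of_mem hx, Submodule.mem_map_of_mem hx⟩
  have h3 : FiniteDimensional K ((C.map A.mkQ).prod (C.map B.mkQ)) :=
    Submodule.fg_iff_finiteDimensional _ |>.1
      (((Submodule.fg_iff_finiteDimensional _).2 h1).prod
        ((Submodule.fg_iff_finiteDimensional _).2 h2))
  have h4 : FiniteDimensional K ((C.map (A ⊓ B).mkQ).map f) :=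
    Submodule.finiteDimensional_of_le hmap
  exact LinearEquiv.finiteDimensional
    (Submodule.equivMapOfInjective f hinj (C.map (A ⊓ B).mkQ)).symm

/-- the chain rule -/
theorem rd_chain {U A B : Submodule K V} (h1 : U ≤ A) (h2 : A ≤ B) (hf : AC U B) :
    rd A B + rd U A = rd U B := by
  have hf' : FiniteDimensional K (B.map U.mkQ) := hf
  set P := B.map U.mkQ with hP
  set f : P →ₗ[K] (V ⧸ A) := (Submodule.factor h1).comp P.subtype with hfdef
  have e1 := LinearMap.finrank_range_add_finrank_ker f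
  have e2 : LinearMap.range f = B.map A.mkQ := by
    rw [hfdef, LinearMap.range_comp, Submodule.range_subtype, hP, ← Submodule.map_comp]
    rfl
  have e3 : (LinearMap.ker f).map P.subtype = A.map U.mkQ := by
    apply le_antisymm
    · rintro _ ⟨⟨x, hx⟩, hk, rfl⟩
      obtain ⟨b, _, rfl⟩ := hx
      have h3 : A.mkQ b = 0 := hk
      exact Submodule.mem_map_of_mem ((Submodule.Quotient.mk_eq_zero A).1 h3)
    · rintro _ ⟨a, ha, rfl⟩
      refine ⟨⟨U.mkQ a, Submodule.mem_map_of_mem (h2 ha)⟩, ?_, rfl⟩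
      show A.mkQ a = 0
      exact (Submodule.Quotient.mk_eq_zero A).2 ha
  have e4 : finrank K (LinearMap.ker f) = finrank K (A.map U.mkQ) := by
    rw [← e3]
    exact (LinearEquiv.finrank_eq
      (Submodule.equivMapOfInjective P.subtype P.injective_subtype (LinearMap.ker f)))
  unfold rd
  rw [← e2, ← e4]
  exact e1

theorem rd_self_sup (A B : Submodule K V) : rd A (B ⊔ A) = rd A B := by
  unfold rd
  rw [Submodule.map_sup, Submodule.mkQ_map_self, sup_bot_eq]

/-- the modular law -/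
theorem rd_mod {U A B : Submodule K V} (h1 : U ≤ A) (h2 : U ≤ B) (hA : AC U A) (hB : AC U B) :
    rd U (A ⊔ B) + rd U (A ⊓ B) = rd U A + rd U B := by
  have hA' : FiniteDimensional K (A.map U.mkQ) := hA
  have hB' : FiniteDimensional K (B.map U.mkQ) := hB
  have e1 := Submodule.finrank_sup_add_finrank_inf_eq (A.map U.mkQ) (B.map U.mkQ)
  have e2 : A.map U.mkQ ⊓ B.map U.mkQ = (A ⊓ B).map U.mkQ := by
    apply le_antisymm
    · rintro _ ⟨⟨a, ha, rfl⟩, ⟨b, hb, hab⟩⟩
      have h3 : b - a ∈ U := by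
        rw [← Submodule.Quotient.mk_eq_zero, ← Submodule.mkQ_apply, map_sub, hab, sub_self]
      have h4 : a ∈ B := by
        have := B.sub_mem hb (h2 h3)
        rwa [sub_sub_cancel] at this
      exact ⟨a, ⟨ha, h4⟩, rfl⟩
    · exact Submodule.map_inf_le _
  rw [← Submodule.map_sup, e2] at e1
  exact e1

/-- the relative dimension -/
noncomputable def rel (Y Z : Submodule K V) : ℤ := (rd Y Z : ℤ) - rd Z Y

theorem rel_eq {U Y Z : Submodule K V} (h1 : U ≤ Y) (h2 : U ≤ Z) (hY : AC U Y) (hZ : AC U Z) :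
    rel Y Z = (rd U Z : ℤ) - rd U Y := by
  have e1 := rd_chain h1 (le_sup_right : Y ≤ Z ⊔ Y) (hZ.sup hY)
  have e2 := rd_chain h2 (le_sup_left : Z ≤ Z ⊔ Y) (hZ.sup hY)
  rw [rd_self_sup] at e1
  rw [sup_comm, rd_self_sup] at e2
  rw [sup_comm] at e2
  unfold rel
  omega

theorem rd_add {U Y Z : Submodule K V} (h1 : U ≤ Y) (h2 : U ≤ Z) (hY : AC U Y) (hZ : AC U Z) :
    rd Y Z + rd U (Y ⊓ Z) = rd U Z := by
  have e1 := rd_chain h1 (le_sup_right : Y ≤ Z ⊔ Y) (hZ.sup hY)
  rw [rd_self_sup] at e1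
  have e2 := rd_mod h2 h1 hZ hY
  rw [inf_comm] at e2
  omega

section mapping

variable (e : V ≃ₗ[K] V)

theorem map_mkQ_equiv (A B : Submodule K V) :
    (B.map (e : V →ₗ[K] V)).map (A.map (e : V →ₗ[K] V)).mkQ =
      (B.map A.mkQ).map (Submodule.Quotient.equiv A (A.map (e : V →ₗ[K] V)) e rfl :
        (V ⧸ A) →ₗ[K] (V ⧸ A.map (e : V →ₗ[K] V))) := by
  rw [← Submodule.map_comp, ← Submodule.map_comp]
  rfl

theorem rd_map (A B : Submodule K V) :
    rd (A.map (e : V →ₗ[K] V)) (B.map (e : V →ₗ[K] V)) = rd A B := by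
  unfold rd
  rw [map_mkQ_equiv]
  exact LinearEquiv.finrank_map_eq _ _

theorem AC.map {A B : Submodule K V} (h : AC A B) :
    AC (A.map (e : V →ₗ[K] V)) (B.map (e : V →ₗ[K] V)) := by
  have h' : FiniteDimensional K (B.map A.mkQ) := h
  unfold AC
  rw [map_mkQ_equiv]
  infer_instance

theorem rel_map (A B : Submodule K V) :
    rel (A.map (e : V →ₗ[K] V)) (B.map (e : V →ₗ[K] V)) = rel A B := by
  unfold rel
  rw [rd_map, rd_map]

end mapping

/-- additivity of the relative dimension -/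
theorem rel_add {W Y Z : Submodule K V} (h1 : AC Y Z) (h2 : AC Z Y) (h3 : AC W Y) (h4 : AC Y W) :
    rel W Z = rel W Y + rel Y Z := by
  have hWZ : AC W Z := h3.trans h1
  have hZW : AC Z W := h2.trans h4
  set U := W ⊓ (Y ⊓ Z) with hU
  have a1 : AC U W := (AC.of_le le_rfl).inf (h4.inf hZW)
  have a2 : AC U Y := h3.inf ((AC.of_le le_rfl).inf h2)
  have a3 : AC U Z := hWZ.inf (h1.inf (AC.of_le le_rfl))
  have b1 : U ≤ W := inf_le_left
  have b2 : U ≤ Y := inf_le_right.trans inf_le_left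
  have b3 : U ≤ Z := inf_le_right.trans inf_le_right
  rw [rel_eq b1 b3 a1 a3, rel_eq b1 b2 a1 a2, rel_eq b2 b3 a2 a3]
  ring

/-- modularity -/
theorem rel_mod {Y A B : Submodule K V} (h1 : AC Y A) (h2 : AC A Y) (h3 : AC Y B) (h4 : AC B Y) :
    rel Y (A ⊓ B) + rel Y (A ⊔ B) = rel Y A + rel Y B := by
  have hAB : AC A B := h2.trans h3
  have hBA : AC B A := h4.trans h1
  set U := Y ⊓ (A ⊓ B) with hU
  have a1 : AC U Y := (AC.of_le le_rfl).inf (h2.inf h4)
  have a2 : AC U A := h1.inf ((AC.of_le le_rfl).inf hBA)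
  have a3 : AC U B := h3.inf (hAB.inf (AC.of_le le_rfl))
  have b1 : U ≤ Y := inf_le_left
  have b2 : U ≤ A := inf_le_right.trans inf_le_left
  have b3 : U ≤ B := inf_le_right.trans inf_le_right
  rw [rel_eq b1 (le_inf b2 b3) a1 (a2.mono_right inf_le_left),
    rel_eq b1 (b2.trans le_sup_left) a1 (a2.sup a3), rel_eq b1 b2 a1 a2, rel_eq b1 b3 a1 a3]
  have := rd_mod b2 b3 a2 a3
  omega

/-- strict monotonicity -/
theorem rel_lt {Y A B : Submodule K V} (h1 : AC Y A) (h2 : AC A Y) (h3 : AC Y B) (h4 : AC B Y)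
    (h : A < B) : rel Y A < rel Y B := by
  have hAB : AC A B := h2.trans h3
  have e1 := rel_add (W := Y) (Y := A) (Z := B) hAB (AC.of_le h.le) h1 h2
  have e2 : rd B A = 0 := by
    unfold rd
    have : A.map B.mkQ = ⊥ := by
      rw [eq_bot_iff]
      rintro _ ⟨a, ha, rfl⟩
      exact (Submodule.Quotient.mk_eq_zero B).2 (h.le ha)
    rw [this]
    exact finrank_bot K _
  have e3 : 0 < rd A B := by
    have hf : FiniteDimensional K (B.map A.mkQ) := hAB
    rw [Nat.pos_iff_ne_zero]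
    intro h0
    have h5 : B.map A.mkQ = ⊥ := Submodule.finrank_eq_zero.1 h0
    have h6 : B ≤ A := by
      intro b hb
      have : A.mkQ b ∈ B.map A.mkQ := Submodule.mem_map_of_mem hb
      rw [h5, Submodule.mem_bot] at this
      exact (Submodule.Quotient.mk_eq_zero A).1 this
    exact absurd (h.trans_le h6) (lt_irrefl _)
  have e4 : rel A B = (rd A B : ℤ) - rd B A := rfl
  omega

/-- the distance in terms of the relative dimension: `rd Y Z + rd Z Y` -/
theorem rd_sum {Y Z : Submodule K V} (h1 : AC Y Z) (h2 : AC Z Y) :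
    ((rd Y Z + rd Z Y : ℕ) : ℤ) = rel Y Z - 2 * rel Y (Y ⊓ Z) := by
  have e1 := rel_eq (U := Y ⊓ Z) (Y := Y) (Z := Y ⊓ Z) inf_le_left le_rfl
    ((AC.of_le le_rfl).inf h2) (AC.of_le le_rfl)
  have e2 := rd_add (U := Y ⊓ Z) (Y := Z) (Z := Y) inf_le_right inf_le_left
    (h1.inf (AC.of_le le_rfl)) ((AC.of_le le_rfl).inf h2)
  have e3 := rd_add (U := Y ⊓ Z) (Y := Y) (Z := Z) inf_le_left inf_le_right
    ((AC.of_le le_rfl).inf h2) (h1.inf (AC.of_le le_rfl))
  have e4 := rel_eq (U := Y ⊓ Z) (Y := Y) (Z := Z) inf_le_left inf_le_right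
    ((AC.of_le le_rfl).inf h2) (h1.inf (AC.of_le le_rfl))
  rw [inf_comm Z Y] at e2
  have e0 : rd (Y ⊓ Z) (Y ⊓ Z) = 0 := by
    unfold rd
    rw [Submodule.mkQ_map_self]
    exact finrank_bot K _
  push_cast
  omega

section rank

theorem rank_eq (A B : Submodule K V) :
    Module.rank K (B ⧸ A.submoduleOf B) = Module.rank K (B.map A.mkQ) := by
  set f : B →ₗ[K] (V ⧸ A) := A.mkQ.comp B.subtype with hf
  have h1 : LinearMap.ker f = A.submoduleOf B := by
    rw [hf, LinearMap.ker_comp, Submodule.ker_mkQ]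
    rfl
  have h2 : LinearMap.range f = B.map A.mkQ := by
    rw [hf, LinearMap.range_comp, Submodule.range_subtype]
  rw [← h1, ← h2]
  exact f.quotKerEquivRange.rank_eq

/-- the codimensions of `Y ∩ Z` in `Y` and in `Z`, added (a cardinal) -/
noncomputable def dst (Y Z : Submodule K V) : Cardinal :=
  Module.rank K (Y ⧸ Z.submoduleOf Y) + Module.rank K (Z ⧸ Y.submoduleOf Z)

theorem dst_le_iff (Y Z : Submodule K V) (c : ℕ) :
    dst Y Z ≤ c ↔ AC Y Z ∧ AC Z Y ∧ rd Y Z + rd Z Y ≤ c := by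
  unfold dst
  rw [rank_eq, rank_eq]
  constructor
  · intro h
    have h1 : Module.rank K (Y.map Z.mkQ) ≤ c := (self_le_add_right _ _).trans h
    have h2 : Module.rank K (Z.map Y.mkQ) ≤ c := (self_le_add_left _ _).trans h
    have f1 : FiniteDimensional K (Y.map Z.mkQ) :=
      Module.rank_lt_aleph0_iff.1 (h1.trans_lt (Cardinal.natCast_lt_aleph0))
    have f2 : FiniteDimensional K (Z.map Y.mkQ) :=
      Module.rank_lt_aleph0_iff.1 (h2.trans_lt (Cardinal.natCast_lt_aleph0))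
    refine ⟨f2, f1, ?_⟩
    rw [← finrank_eq_rank, ← finrank_eq_rank] at h
    have h3 : finrank K (Y.map Z.mkQ) + finrank K (Z.map Y.mkQ) ≤ c := by exact_mod_cast h
    unfold rd
    omega
  · rintro ⟨f2, f1, h⟩
    have f1' : FiniteDimensional K (Y.map Z.mkQ) := f1
    have f2' : FiniteDimensional K (Z.map Y.mkQ) := f2
    rw [← finrank_eq_rank, ← finrank_eq_rank]
    unfold rd at h
    have h3 : finrank K (Y.map Z.mkQ) + finrank K (Z.map Y.mkQ) ≤ c := by omega
    exact_mod_cast h3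

end rank

end Pool.Agent.U128.Comm
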