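import Pool.Agent.U128.Comm

/-!
# Growth of the defects of the powers of an operator: linear algebra
-/

set_option autoImplicit false

namespace Pool.Agent.U128.Growth

open Module Pool.Agent.U128.Comm

variable {K V : Type*} [Field K] [AddCommGroup V] [Module K V]

theorem rd_mono_right {A B C : Submodule K V} (h : B ≤ C) (hC : AC A C) : rd A B ≤ rd A C := by
  have hC' : FiniteDimensional K (C.map A.mkQ) := hC
  exact Submodule.finrank_mono (Submodule.map_mono h)

/-- `rd` does not increase under linear maps -/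
theorem rd_map_le (f : V →ₗ[K] V) {A B A' : Submodule K V} (hA : A.map f ≤ A') (hB : AC A B) :
    AC A' (B.map f) ∧ rd A' (B.map f) ≤ rd A B := by
  have hB' : FiniteDimensional K (B.map A.mkQ) := hB
  have e : (B.map f).map A'.mkQ =
      (B.map A.mkQ).map (A.mapQ A' f (Submodule.map_le_iff_le_comap.1 hA)) := by
    rw [← Submodule.map_comp, ← Submodule.map_comp, Submodule.mapQ_mkQ]
  constructor
  · unfold AC
    rw [e]
    infer_instance
  · unfold rd
    rw [e]
    exact Submodule.finrank_map_le _ _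

theorem rd_mono_left {A A' B : Submodule K V} (h : A ≤ A') (hB : AC A B) : rd A' B ≤ rd A B := by
  have := (rd_map_le (LinearMap.id : V →ₗ[K] V) (A := A) (B := B) (A' := A')
    (by rw [Submodule.map_id]; exact h) hB).2
  rwa [Submodule.map_id] at this

/-- the triangle inequality -/
theorem rd_triangle {A B C : Submodule K V} (h1 : AC A B) (h2 : AC B C) :
    rd A C ≤ rd A B + rd B C := by
  have h3 : AC A (C ⊔ (B ⊔ A)) := (h1.trans h2).sup (h1.sup (AC.of_le le_rfl))
  have e1 := rd_chain (U := A) (A := B ⊔ A) (B := C ⊔ (B ⊔ A)) le_sup_right le_sup_right h3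
  rw [rd_self_sup, rd_self_sup] at e1
  have e2 : rd (B ⊔ A) C ≤ rd B C := rd_mono_left le_sup_left h2
  have e3 : rd A C ≤ rd A (C ⊔ (B ⊔ A)) := rd_mono_right le_sup_left h3
  omega

theorem rd_pos {A B : Submodule K V} (h : AC A B) (hne : ¬ B ≤ A) : 1 ≤ rd A B := by
  have hf : FiniteDimensional K (B.map A.mkQ) := h
  rw [Nat.one_le_iff_ne_zero]
  intro h0
  have h5 : B.map A.mkQ = ⊥ := Submodule.finrank_eq_zero.1 h0
  apply hne
  intro b hb
  have : A.mkQ b ∈ B.map A.mkQ := Submodule.mem_map_of_mem hb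
  rw [h5, Submodule.mem_bot] at this
  exact (Submodule.Quotient.mk_eq_zero A).1 this

/-- inverse images -/
theorem comap_equiv (f : V →ₗ[K] V) (U W : Submodule K V) :
    Nonempty ((W.map (U.comap f).mkQ) ≃ₗ[K] ((W.map f).map U.mkQ)) := by
  set g : V ⧸ U.comap f →ₗ[K] V ⧸ U := (U.comap f).mapQ U f le_rfl with hg
  have hinj : Function.Injective g := by
    rw [← LinearMap.ker_eq_bot, hg]
    rw [eq_bot_iff]
    intro x hx
    obtain ⟨x, rfl⟩ := Submodule.mkQ_surjective _ x
    rw [LinearMap.mem_ker] at hx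
    have h1 : U.mkQ (f x) = 0 := hx
    rw [Submodule.mem_bot]
    exact (Submodule.Quotient.mk_eq_zero (U.comap f)).2
      (show f x ∈ U from (Submodule.Quotient.mk_eq_zero U).1 h1)
  have e : (W.map f).map U.mkQ = (W.map (U.comap f).mkQ).map g := by
    rw [← Submodule.map_comp, ← Submodule.map_comp, hg, Submodule.mapQ_mkQ]
  rw [e]
  exact ⟨Submodule.equivMapOfInjective g hinj _⟩

theorem ac_comap {f : V →ₗ[K] V} {U W : Submodule K V} (h : AC U (W.map f)) :
    AC (U.comap f) W := by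
  obtain ⟨e⟩ := comap_equiv f U W
  have h' : FiniteDimensional K ((W.map f).map U.mkQ) := h
  exact LinearEquiv.finiteDimensional e.symm

theorem rd_comap (f : V →ₗ[K] V) (U W : Submodule K V) :
    rd (U.comap f) W = rd U (W.map f) := by
  obtain ⟨e⟩ := comap_equiv f U W
  exact e.finrank_eq

theorem rd_inf (A B : Submodule K V) : rd (B ⊓ A) B = rd A B := by
  have e1 := rank_eq (B ⊓ A) B
  have e2 := rank_eq A B
  have e3 : (B ⊓ A).submoduleOf B = A.submoduleOf B := by
    ext x
    simp [Submodule.submoduleOf]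
  rw [e3, e2] at e1
  unfold rd finrank
  rw [e1]

/-! ### The two sequences -/

variable (T : V →ₗ[K] V)

/-- `Z + T Z` -/
def up (Z : Submodule K V) : Submodule K V := Z ⊔ Z.map T

/-- `{z ∈ Z : T z ∈ Z}` -/
def down (Z : Submodule K V) : Submodule K V := Z ⊓ Z.comap T

/-- `Y + T Y + ... + T ^ n Y` -/
def A (Y : Submodule K V) (n : ℕ) : Submodule K V := (up T)^[n] Y

/-- `{y : y, T y, ..., T ^ n y ∈ Y}` -/
def J (Y : Submodule K V) (n : ℕ) : Submodule K V := (down T)^[n] Y

variable {T} {Y : Submodule K V}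

theorem A_zero : A T Y 0 = Y := rfl

theorem A_succ (n : ℕ) : A T Y (n + 1) = A T Y n ⊔ (A T Y n).map T :=
  Function.iterate_succ_apply' _ _ _

theorem A_add (n m : ℕ) : A T Y (n + m) = A T (A T Y m) n :=
  Function.iterate_add_apply _ _ _ _

theorem J_zero : J T Y 0 = Y := rfl

theorem J_succ (n : ℕ) : J T Y (n + 1) = J T Y n ⊓ (J T Y n).comap T :=
  Function.iterate_succ_apply' _ _ _

theorem A_le_succ (n : ℕ) : A T Y n ≤ A T Y (n + 1) := by
  rw [A_succ]; exact le_sup_left

theorem A_mono {n m : ℕ} (h : n ≤ m) : A T Y n ≤ A T Y m :=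
  monotone_nat_of_le_succ A_le_succ h

theorem T_mem {n : ℕ} {x : V} (hx : x ∈ A T Y n) : T x ∈ A T Y (n + 1) := by
  rw [A_succ]
  exact Submodule.mem_sup_right (Submodule.mem_map_of_mem hx)

theorem T_pow_mem {n : ℕ} (k : ℕ) {x : V} (hx : x ∈ A T Y n) : (T ^ k) x ∈ A T Y (n + k) := by
  induction k with
  | zero => exact hx
  | succ k ih =>
    rw [pow_succ']
    exact T_mem ih

theorem J_succ_le (n : ℕ) : J T Y (n + 1) ≤ J T Y n := by
  rw [J_succ]; exact inf_le_left

theorem J_le (n : ℕ) : J T Y n ≤ Y := by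
  induction n with
  | zero => exact le_rfl
  | succ n ih => exact (J_succ_le n).trans ih

theorem mem_J (n : ℕ) (x : V) : x ∈ J T Y n ↔ ∀ j ≤ n, (T ^ j) x ∈ Y := by
  induction n generalizing x with
  | zero =>
    rw [J_zero]
    constructor
    · intro h j hj
      rw [Nat.le_zero.1 hj]
      exact h
    · intro h
      exact h 0 le_rfl
  | succ n ih =>
    rw [J_succ, Submodule.mem_inf, Submodule.mem_comap, ih, ih]
    constructor
    · rintro ⟨h1, h2⟩ j hj
      rcases Nat.eq_or_lt_of_le hj with rfl | h3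
      · have := h2 n le_rfl
        rwa [pow_succ]
      · exact h1 j (Nat.lt_succ_iff.1 h3)
    · intro h
      refine ⟨fun j hj => h j (by omega), fun j hj => ?_⟩
      have := h (j + 1) (by omega)
      rwa [pow_succ] at this

/-! ### Finiteness -/

theorem ac_A (h : AC Y (Y.map T)) (n : ℕ) :
    AC (A T Y n) ((A T Y n).map T) ∧ AC (A T Y n) (A T Y (n + 1)) := by
  have key : ∀ n, AC (A T Y n) ((A T Y n).map T) := by
    intro n
    induction n with
    | zero => exact h
    | succ n ih =>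
      rw [A_succ, Submodule.map_sup]
      refine (AC.of_le le_sup_right).sup ?_
      exact (rd_map_le T (A' := A T Y n ⊔ (A T Y n).map T) le_sup_right ih).1
  refine ⟨key n, ?_⟩
  rw [A_succ]
  exact (AC.of_le le_rfl).sup (key n)

theorem ac_YA (h : AC Y (Y.map T)) (n : ℕ) : AC Y (A T Y n) := by
  induction n with
  | zero => exact AC.of_le le_rfl
  | succ n ih => exact ih.trans (ac_A h n).2

/-- the increments -/
noncomputable def e (T : V →ₗ[K] V) (Y : Submodule K V) (n : ℕ) : ℕ :=
  rd (A T Y n) (A T Y (n + 1))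

theorem e_eq (n : ℕ) : e T Y n = rd (A T Y n) ((A T Y n).map T) := by
  unfold e
  rw [A_succ, sup_comm, rd_self_sup]

theorem e_succ_le (h : AC Y (Y.map T)) (n : ℕ) : e T Y (n + 1) ≤ e T Y n := by
  rw [e_eq (n + 1)]
  refine (rd_map_le T (A := A T Y n) ?_ (ac_A h n).2).2
  rw [A_succ]
  exact le_sup_right

theorem e_anti (h : AC Y (Y.map T)) : Antitone (e T Y) :=
  antitone_nat_of_succ_le (e_succ_le h)

theorem e_add (m n : ℕ) : e T (A T Y m) n = e T Y (n + m) := by
  unfold e
  rw [← A_add, ← A_add, Nat.add_right_comm]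

theorem rd_YA (h : AC Y (Y.map T)) (n : ℕ) : rd Y (A T Y n) ≤ n * e T Y 0 := by
  induction n with
  | zero =>
    rw [A_zero, zero_mul]
    unfold rd
    rw [Submodule.mkQ_map_self]
    exact (finrank_bot K _).le
  | succ n ih =>
    have h1 := rd_chain (U := Y) (A := A T Y n) (B := A T Y (n + 1))
      (A_mono (Nat.zero_le n)) (A_le_succ n) (ac_YA h (n + 1))
    have h2 := e_anti h (Nat.zero_le n)
    unfold e at h2 ih ⊢
    rw [Nat.succ_mul]
    omega

/-- equal increments: `T` is injective on the quotients -/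
theorem inj (h : AC Y (Y.map T)) {n : ℕ} (he : e T Y (n + 1) = e T Y n) {x : V}
    (hx : x ∈ A T Y (n + 1)) (hTx : T x ∈ A T Y (n + 1)) : x ∈ A T Y n := by
  have hfin : FiniteDimensional K ((A T Y (n + 1)).map (A T Y n).mkQ) := (ac_A h n).2
  have hle : A T Y n ≤ (A T Y (n + 1)).comap T := by
    rw [← Submodule.map_le_iff_le_comap, A_succ]
    exact le_sup_right
  set g : ((A T Y (n + 1)).map (A T Y n).mkQ) →ₗ[K] V ⧸ A T Y (n + 1) :=
    ((A T Y n).mapQ (A T Y (n + 1)) T hle).comp (Submodule.subtype _) with hg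
  have e1 := LinearMap.finrank_range_add_finrank_ker g
  have e2 : LinearMap.range g = ((A T Y (n + 1)).map T).map (A T Y (n + 1)).mkQ := by
    rw [hg, LinearMap.range_comp, Submodule.range_subtype, ← Submodule.map_comp,
      ← Submodule.map_comp, Submodule.mapQ_mkQ]
  have e3 : finrank K (LinearMap.range g) = e T Y (n + 1) := by
    rw [e2, e_eq]
    rfl
  have e4 : finrank K ((A T Y (n + 1)).map (A T Y n).mkQ) = e T Y n := rfl
  have e5 : finrank K (LinearMap.ker g) = 0 := by omega
  have e6 : LinearMap.ker g = ⊥ := Submodule.finrank_eq_zero.1 e5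
  have h1 : (⟨(A T Y n).mkQ x, Submodule.mem_map_of_mem hx⟩ :
      (A T Y (n + 1)).map (A T Y n).mkQ) ∈ LinearMap.ker g := by
    rw [LinearMap.mem_ker]
    exact (Submodule.Quotient.mk_eq_zero _).2 hTx
  rw [e6, Submodule.mem_bot] at h1
  exact (Submodule.Quotient.mk_eq_zero _).1 (congrArg Subtype.val h1)

/-- the orbit of an exit vector -/
theorem exit_orbit (h : AC Y (Y.map T)) {n : ℕ} (he : ∀ j < n, e T Y j = e T Y 0) {v : V}
    (hv1 : v ∈ A T Y 1) (hv0 : v ∉ Y) : ∀ j < n, (T ^ j) v ∈ A T Y (j + 1) ∧ (T ^ j) v ∉ A T Y j := by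
  intro j
  induction j with
  | zero => intro _; exact ⟨hv1, hv0⟩
  | succ j ih =>
    intro hj
    obtain ⟨h1, h2⟩ := ih (by omega)
    have e1 : (T ^ (j + 1)) v = T ((T ^ j) v) := by rw [pow_succ']; rfl
    rw [e1]
    refine ⟨T_mem h1, fun h3 => h2 (inj h ?_ h1 h3)⟩
    rw [he (j + 1) hj, he j (by omega)]

open Polynomial in
/-- **Constant increments**: `p(T) x ∈ Y` forces `T x, ..., T ^ n x ∈ Y`. -/
theorem poly_mem (h : AC Y (Y.map T)) (p : K[X]) (hn : 0 < p.natDegree)
    (he : ∀ j < p.natDegree, e T Y j = e T Y 0) {x : V} (hx : x ∈ Y) (hp : aeval T p x ∈ Y) :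
    x ∈ J T Y p.natDegree := by
  classical
  obtain ⟨n, hndef⟩ : ∃ n, n = p.natDegree := ⟨_, rfl⟩
  rw [← hndef] at hn he ⊢
  rw [mem_J]
  by_contra hcon
  push Not at hcon
  -- the exit time
  have hex : ∃ i, (T ^ i) x ∉ Y := by
    obtain ⟨j, _, hj⟩ := hcon
    exact ⟨j, hj⟩
  obtain ⟨i, hi1, hi2⟩ : ∃ i, (T ^ i) x ∉ Y ∧ ∀ j < i, (T ^ j) x ∈ Y :=
    ⟨Nat.find hex, Nat.find_spec hex, fun j hj => by
      by_contra h'; exact Nat.find_min hex hj h'⟩
  have hin : i ≤ n := by
    obtain ⟨j, hj, hj'⟩ := hcon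
    by_contra hlt
    exact hj' (hi2 j (by omega))
  obtain ⟨i, rfl⟩ : ∃ i', i = i' + 1 := by
    cases i with
    | zero => exact absurd hx hi1
    | succ i => exact ⟨i, rfl⟩
  set v := (T ^ (i + 1)) x with hv
  have hv1 : v ∈ A T Y 1 := by
    have h1 : (T ^ i) x ∈ A T Y 0 := hi2 i (Nat.lt_succ_self i)
    have := T_mem h1
    rw [hv, pow_succ']
    exact this
  have horb := exit_orbit h he hv1 hi1
  have hpow : ∀ k, (T ^ (i + 1 + k)) x = (T ^ k) v := by
    intro k
    rw [hv, add_comm, pow_add]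
    rfl
  -- the lower terms
  have hlow : ∀ j < n, (T ^ j) x ∈ A T Y (n - (i + 1)) := by
    intro j hj
    rcases Nat.lt_or_ge j (i + 1) with h1 | h1
    · exact A_mono (Nat.zero_le _) (hi2 j h1)
    · obtain ⟨k, rfl⟩ := Nat.exists_eq_add_of_le h1
      rw [hpow]
      exact A_mono (by omega) (horb k (by omega)).1
  have htop : (T ^ n) x ∉ A T Y (n - (i + 1)) := by
    obtain ⟨k, hk⟩ := Nat.exists_eq_add_of_le hin
    rw [hk, hpow, Nat.add_sub_cancel_left]
    exact (horb k (by omega)).2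
  have hsum : aeval T p x = (∑ j ∈ Finset.range n, p.coeff j • (T ^ j) x) +
      p.coeff n • (T ^ n) x := by
    rw [aeval_eq_sum_range, ← hndef, Finset.sum_range_succ, LinearMap.add_apply,
      LinearMap.sum_apply]
    rfl
  have hc : p.coeff n ≠ 0 := by
    rw [hndef]
    intro h0
    have : p = 0 := leadingCoeff_eq_zero.1 h0
    rw [this, natDegree_zero] at hndef
    omega
  apply htop
  have h1 : aeval T p x ∈ A T Y (n - (i + 1)) := A_mono (Nat.zero_le _) hp
  have h2 : (∑ j ∈ Finset.range n, p.coeff j • (T ^ j) x) ∈ A T Y (n - (i + 1)) :=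
    Submodule.sum_mem _ fun j hj => Submodule.smul_mem _ _ (hlow j (Finset.mem_range.1 hj))
  have h3 : p.coeff n • (T ^ n) x ∈ A T Y (n - (i + 1)) := by
    have := Submodule.sub_mem _ h1 h2
    rwa [hsum, add_sub_cancel_left] at this
  exact (Submodule.smul_mem_iff _ hc).1 h3

theorem ac_J (h : AC Y (Y.map T)) (n : ℕ) : AC (J T Y n) Y := by
  induction n with
  | zero => exact AC.of_le le_rfl
  | succ n ih =>
    rw [J_succ]
    exact ih.inf (ac_comap (ih.trans h))

open Polynomial in
theorem poly_mem_A (p : K[X]) {n : ℕ} (hn : p.natDegree ≤ n) {x : V} (hx : x ∈ Y) :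
    aeval T p x ∈ A T Y n := by
  rw [aeval_eq_sum_range, LinearMap.sum_apply]
  refine Submodule.sum_mem _ fun j hj => ?_
  rw [Finset.mem_range] at hj
  refine Submodule.smul_mem _ _ ?_
  have h1 := T_pow_mem (T := T) (Y := Y) (n := 0) j hx
  exact A_mono (by omega) h1

open Polynomial in
theorem ac_poly (h : AC Y (Y.map T)) (p : K[X]) : AC Y (Y.map (aeval T p)) := by
  refine (ac_YA h p.natDegree).mono_right ?_
  rintro _ ⟨x, hx, rfl⟩
  exact poly_mem_A p le_rfl hx

open Polynomial in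
/-- the upper bound -/
theorem upper (h : AC Y (Y.map T)) (p : K[X]) :
    rd Y (Y.map (aeval T p)) ≤ p.natDegree * rd Y (Y.map T) := by
  refine (rd_mono_right ?_ (ac_YA h p.natDegree)).trans ((rd_YA h _).trans ?_)
  · rintro _ ⟨x, hx, rfl⟩
    exact poly_mem_A p le_rfl hx
  · rw [e_eq]
    exact le_rfl

theorem J_ge (h : AC Y (Y.map T)) (hJ : ∀ n, J T Y (n + 1) ≠ J T Y n) (n : ℕ) :
    n ≤ rd (J T Y n) Y := by
  induction n with
  | zero => exact Nat.zero_le _
  | succ n ih =>
    have h1 := rd_chain (U := J T Y (n + 1)) (A := J T Y n) (B := Y) (J_succ_le n) (J_le n)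
      (ac_J h (n + 1))
    have h2 : 1 ≤ rd (J T Y (n + 1)) (J T Y n) := by
      refine rd_pos ((ac_J h (n + 1)).mono_right (J_le n)) fun h3 => ?_
      exact hJ n (le_antisymm (J_succ_le n) h3)
    omega

open Polynomial in
/-- the lower bound for constant increments -/
theorem lower (h : AC Y (Y.map T)) (hJ : ∀ n, J T Y (n + 1) ≠ J T Y n) (p : K[X])
    (he : ∀ j < p.natDegree, e T Y j = e T Y 0) : p.natDegree ≤ rd Y (Y.map (aeval T p)) := by
  rcases Nat.eq_zero_or_pos p.natDegree with h0 | h0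
  · rw [h0]; exact Nat.zero_le _
  rw [← rd_comap, ← rd_inf]
  refine (J_ge h hJ _).trans ?_
  refine rd_mono_left ?_ ((AC.of_le le_rfl).inf (ac_comap (ac_poly h p)))
  rintro x ⟨hx, hpx⟩
  exact poly_mem h p h0 he hx hpx

open Polynomial in
/-- comparison of the defects on `Y` and on `Y + T Y + ... + T ^ m Y` -/
theorem compare (h : AC Y (Y.map T)) (p : K[X]) (m : ℕ) :
    rd (A T Y m) ((A T Y m).map (aeval T p)) ≤ rd Y (Y.map (aeval T p)) + rd Y (A T Y m) := by
  have h1 : AC Y (A T Y m) := ac_YA h m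
  have h2 : AC Y (Y.map (aeval T p)) := ac_poly h p
  obtain ⟨h3, h4⟩ := rd_map_le (aeval T p) (A := Y) (B := A T Y m) (A' := Y.map (aeval T p))
    le_rfl h1
  have h5 : AC (A T Y m) (Y.map (aeval T p)) := h2.mono_left (A_mono (Nat.zero_le m))
  have h6 := rd_triangle h5 h3
  have h7 : rd (A T Y m) (Y.map (aeval T p)) ≤ rd Y (Y.map (aeval T p)) :=
    rd_mono_left (A_mono (Nat.zero_le m)) h2
  omega

theorem ac_A_map (h : AC Y (Y.map T)) (m : ℕ) : AC (A T Y m) ((A T Y m).map T) := (ac_A h m).1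

open Polynomial in
/-- the lower bound when the increments are constant from `m` on -/
theorem lower_shift (h : AC Y (Y.map T)) (m : ℕ)
    (hJ : ∀ n, J T (A T Y m) (n + 1) ≠ J T (A T Y m) n) (p : K[X])
    (he : ∀ j < p.natDegree, e T Y (j + m) = e T Y m) :
    p.natDegree ≤ rd Y (Y.map (aeval T p)) + rd Y (A T Y m) := by
  refine (lower (ac_A_map h m) hJ p fun j hj => ?_).trans (compare h p m)
  rw [e_add, e_add, he j hj, Nat.zero_add]

/-- the increments stabilise -/
theorem stable (h : AC Y (Y.map T)) : ∃ m, ∀ j, e T Y (j + m) = e T Y m := by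
  obtain ⟨m, hm⟩ : ∃ m, ∀ n, e T Y m ≤ e T Y n := by
    obtain ⟨_, ⟨m, rfl⟩, hm⟩ := WellFounded.has_min Nat.lt_wfRel.wf (Set.range (e T Y))
      ⟨_, Set.mem_range_self 0⟩
    exact ⟨m, fun n => not_lt.1 (hm _ ⟨n, rfl⟩)⟩
  exact ⟨m, fun j => le_antisymm (e_anti h (Nat.le_add_left m j)) (hm _)⟩

/-- the bounds for the stages -/
def stage (c d : ℕ) : ℕ → ℕ
  | 0 => 0
  | (j + 1) => stage c d j + (c + 1 + d * stage c d j)

theorem stage_eq (c d j : ℕ) : c + 1 + d * stage c d j = (c + 1) * (d + 1) ^ j := by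
  induction j with
  | zero => simp [stage]
  | succ j ih =>
    rw [stage, pow_succ]
    have : (c + 1) * ((d + 1) ^ j * (d + 1)) = ((c + 1) * (d + 1) ^ j) * (d + 1) := by ring
    rw [this, ← ih]
    ring

open Polynomial in
/-- **The uniform lower bound.** -/
theorem uniform (h : AC Y (Y.map T)) (hA : ∀ n, A T Y (n + 1) ≠ A T Y n)
    (hJ : ∀ m n, J T (A T Y m) (n + 1) ≠ J T (A T Y m) n) (P : ℕ → K[X])
    (hP : ∀ k, (P k).natDegree = k) (c d : ℕ) (hd : rd Y (Y.map T) = d) :
    ∃ k ≤ (c + 1) * (d + 1) ^ (d - 1), c < rd Y (Y.map (aeval T (P k))) := by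
  by_contra hcon
  push Not at hcon
  have he0 : e T Y 0 = d := by rw [e_eq, A_zero, hd]
  have key : ∀ j ≤ d, e T Y (stage c d j) + j ≤ d := by
    intro j
    induction j with
    | zero => intro _; rw [stage, he0, add_zero]
    | succ j ih =>
      intro hj
      have h1 := ih (by omega)
      by_contra hlt
      have h2 := e_anti h (show stage c d j ≤ stage c d (j + 1) by rw [stage]; omega)
      have heq : e T Y (stage c d (j + 1)) = e T Y (stage c d j) := by omega
      have hL : c + 1 + d * stage c d j ≤ (c + 1) * (d + 1) ^ (d - 1) := by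
        rw [stage_eq]
        exact Nat.mul_le_mul_left _ (Nat.pow_le_pow_right (Nat.succ_pos d) (by omega))
      have h3 := hcon _ hL
      have h4 := lower_shift h (stage c d j) (hJ (stage c d j))
        (P (c + 1 + d * stage c d j)) (by
          intro i hi
          rw [hP] at hi
          refine le_antisymm (e_anti h (Nat.le_add_left _ _)) ?_
          rw [← heq]
          refine e_anti h ?_
          rw [stage]
          omega)
      rw [hP] at h4
      have h5 := rd_YA h (stage c d j)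
      rw [he0, mul_comm] at h5
      omega
  have h1 := key d le_rfl
  have h2 : 1 ≤ e T Y (stage c d d) :=
    rd_pos (ac_A h _).2 fun h3 => hA _ (le_antisymm h3 (A_le_succ _))
  omega

end Pool.Agent.U128.Growth
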