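import Pool.Agent.U128.ClosedAlg
import Pool.Agent.U128.Growth

/-!
# Half-spaces of an operator without invariant subspaces
-/

set_option autoImplicit false

namespace Pool.Agent.U128.Transitive

open Module Pool.Agent.U128.Comm Pool.Agent.U128.Growth Pool.Agent.U128.ClosedAlg
open Pool.Agent.U128.HalfSpace (closed_sup)

variable {X : Type*} [NormedAddCommGroup X] [NormedSpace ℂ X]

/-- `T` has no closed invariant subspace except `0` and `X` -/
def NoInv (T : X →L[ℂ] X) : Prop :=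
  ∀ Z : Submodule ℂ X, IsClosed (Z : Set X) → (∀ x ∈ Z, T x ∈ Z) → Z = ⊥ ∨ Z = ⊤

/-- closed subspaces of infinite dimension and codimension -/
structure Half (Y : Submodule ℂ X) : Prop where
  closed : IsClosed (Y : Set X)
  inf : ¬ FiniteDimensional ℂ Y
  coinf : ¬ FiniteDimensional ℂ (X ⧸ Y)

theorem Half.ne_top {Y : Submodule ℂ X} (h : Half Y) : Y ≠ ⊤ := by
  rintro rfl
  exact h.coinf inferInstance

theorem Half.of_sup {Y Z : Submodule ℂ X} (h : Half Y) (hZ : IsClosed (Z : Set X)) (hle : Y ≤ Z)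
    (hac : AC Y Z) : Half Z := by
  refine ⟨hZ, fun hf => ?_, fun hf => ?_⟩
  · exact h.inf (Submodule.finiteDimensional_of_le hle)
  · have e3 : AC Z (⊤ : Submodule ℂ X) := by
      unfold AC
      infer_instance
    have e4 : FiniteDimensional ℂ ((⊤ : Submodule ℂ X).map Y.mkQ) := hac.trans e3
    rw [Submodule.map_top, Submodule.range_mkQ] at e4
    exact h.coinf (LinearEquiv.finiteDimensional Submodule.topEquiv)

section

variable {T : X →L[ℂ] X} {Y : Submodule ℂ X}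

theorem closed_A (hY : IsClosed (Y : Set X)) (h : AC Y (Y.map (T : X →ₗ[ℂ] X))) (n : ℕ) :
    IsClosed ((A (T : X →ₗ[ℂ] X) Y n : Submodule ℂ X) : Set X) := by
  induction n with
  | zero => exact hY
  | succ n ih =>
    rw [A_succ]
    exact closed_sup ih (ac_A h n).1

theorem closed_J (hY : IsClosed (Y : Set X)) (n : ℕ) :
    IsClosed ((J (T : X →ₗ[ℂ] X) Y n : Submodule ℂ X) : Set X) := by
  induction n with
  | zero => exact hY
  | succ n ih =>
    rw [J_succ]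
    exact ih.inter (ih.preimage T.continuous)

theorem A_ne (hT : NoInv T) (hY : Half Y) (h : AC Y (Y.map (T : X →ₗ[ℂ] X))) (n : ℕ) :
    A (T : X →ₗ[ℂ] X) Y (n + 1) ≠ A (T : X →ₗ[ℂ] X) Y n := by
  intro he
  have hH : Half (A (T : X →ₗ[ℂ] X) Y n) :=
    hY.of_sup (closed_A hY.closed h n) (A_mono (Nat.zero_le n)) (ac_YA h n)
  rcases hT _ hH.closed (fun x hx => by
    have := T_mem hx
    rwa [he] at this) with h1 | h1
  · apply hH.inf
    rw [h1]
    infer_instance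
  · exact hH.ne_top h1

theorem J_ne (hT : NoInv T) (hY : Half Y) (h : AC Y (Y.map (T : X →ₗ[ℂ] X))) (n : ℕ) :
    J (T : X →ₗ[ℂ] X) Y (n + 1) ≠ J (T : X →ₗ[ℂ] X) Y n := by
  intro he
  rcases hT _ (closed_J hY.closed n) (fun x hx => by
    rw [← he, J_succ] at hx
    exact hx.2) with h1 | h1
  · have h2 := ac_J h n
    rw [h1] at h2
    obtain ⟨F, hF, hle⟩ := (ac_iff _ _).1 h2
    rw [bot_sup_eq] at hle
    exact hY.inf (Submodule.finiteDimensional_of_le hle)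
  · exact hY.ne_top (top_le_iff.1 (h1 ▸ J_le n))

theorem J_ne' (hT : NoInv T) (hY : Half Y) (h : AC Y (Y.map (T : X →ₗ[ℂ] X))) (m n : ℕ) :
    J (T : X →ₗ[ℂ] X) (A (T : X →ₗ[ℂ] X) Y m) (n + 1) ≠
      J (T : X →ₗ[ℂ] X) (A (T : X →ₗ[ℂ] X) Y m) n :=
  J_ne hT (hY.of_sup (closed_A hY.closed h m) (A_mono (Nat.zero_le m)) (ac_YA h m))
    (ac_A_map h m) n

theorem A_ne' (hT : NoInv T) (hY : Half Y) (h : AC Y (Y.map (T : X →ₗ[ℂ] X))) (n : ℕ) :
    1 ≤ e (T : X →ₗ[ℂ] X) Y n :=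
  rd_pos (ac_A h _).2 fun h3 => A_ne hT hY h n (le_antisymm h3 (A_le_succ _))

open Polynomial

/-- the forgetful homomorphism -/
def forget : (X →L[ℂ] X) →ₐ[ℂ] (X →ₗ[ℂ] X) :=
  { (ContinuousLinearMap.toLinearMapRingHom : (X →L[ℂ] X) →+* (X →ₗ[ℂ] X)) with
    commutes' := fun _ => rfl }

theorem aeval_coe (p : ℂ[X]) :
    ((aeval T p : X →L[ℂ] X) : X →ₗ[ℂ] X) = aeval (T : X →ₗ[ℂ] X) p :=
  (aeval_algHom_apply (forget (X := X)) T p).symm

theorem defect_eq (R : X →L[ℂ] X) (h : AC Y (Y.map (R : X →ₗ[ℂ] X))) :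
    defect R Y = (rd Y (Y.map (R : X →ₗ[ℂ] X)) : ℕ) := by
  have h' : FiniteDimensional ℂ ((Y.map (R : X →ₗ[ℂ] X)).map Y.mkQ) := h
  exact (finrank_eq_rank _ _).symm

/-- **Defect one.** -/
theorem exact_one (hT : NoInv T) (hY : Half Y) (h : defect T Y = 1) (p : ℂ[X]) :
    defect (aeval T p) Y = p.natDegree := by
  obtain ⟨h1, h2⟩ := (defect_le_iff T Y 1).1 (by rw [h]; exact_mod_cast le_rfl)
  have h3 : AC Y (Y.map ((aeval T p : X →L[ℂ] X) : X →ₗ[ℂ] X)) := by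
    rw [aeval_coe]; exact ac_poly h1 p
  rw [defect_eq _ h3, aeval_coe]
  congr 1
  refine le_antisymm ?_ ?_
  · refine (upper h1 p).trans ?_
    calc _ ≤ p.natDegree * 1 := Nat.mul_le_mul_left _ h2
      _ = _ := mul_one _
  · refine lower h1 (J_ne hT hY h1) p fun j _ => ?_
    have e0 : e (T : X →ₗ[ℂ] X) Y 0 ≤ 1 := by rw [e_eq]; exact h2
    have e1 := A_ne' hT hY h1 j
    have e2 := A_ne' hT hY h1 0
    have e3 := e_anti h1 (Nat.zero_le j)
    omega

/-- **Finite defect.** -/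
theorem asymptotic (hT : NoInv T) (hY : Half Y) (d : ℕ) (h : defect T Y = d) :
    (∃ C : ℕ, ∀ p : ℂ[X], (p.natDegree : Cardinal) ≤ defect (aeval T p) Y + C) ∧
    (∀ p : ℂ[X], defect (aeval T p) Y ≤ (d * p.natDegree : ℕ)) ∧
    (∀ P : ℕ → ℂ[X], (∀ k, (P k).natDegree = k) → ∀ c : ℕ,
      ∃ k ≤ (c + 1) * (d + 1) ^ (d - 1), (c : Cardinal) < defect (aeval T (P k)) Y) := by
  obtain ⟨h1, h2⟩ := (defect_le_iff T Y d).1 h.le
  have h2' : rd Y (Y.map (T : X →ₗ[ℂ] X)) = d := by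
    have := defect_eq T h1
    rw [h] at this
    exact_mod_cast this.symm
  have h3 : ∀ p : ℂ[X], defect (aeval T p) Y =
      (rd Y (Y.map (aeval (T : X →ₗ[ℂ] X) p)) : ℕ) := by
    intro p
    have h4 : AC Y (Y.map ((aeval T p : X →L[ℂ] X) : X →ₗ[ℂ] X)) := by
      rw [aeval_coe]; exact ac_poly h1 p
    rw [defect_eq _ h4, aeval_coe]
  refine ⟨?_, ?_, ?_⟩
  · obtain ⟨m, hm⟩ := stable h1
    refine ⟨rd Y (A (T : X →ₗ[ℂ] X) Y m), fun p => ?_⟩
    rw [h3]
    exact_mod_cast lower_shift h1 m (J_ne' hT hY h1 m) p fun j _ => hm j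
  · intro p
    rw [h3, mul_comm]
    have := upper h1 p
    rw [h2'] at this
    exact_mod_cast this
  · intro P hP c
    obtain ⟨k, hk, hk'⟩ := uniform h1 (A_ne hT hY h1) (J_ne' hT hY h1) P hP c d h2'
    refine ⟨k, hk, ?_⟩
    rw [h3]
    exact_mod_cast hk'

end

end Pool.Agent.U128.Transitive
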