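import Pool.Agent.U128.Mazur
import Pool.Agent.U128.Transitive

/-!
# Half-spaces of defect one
-/

set_option autoImplicit false

namespace Pool.Agent.U128.Exists

open Filter Topology Module Pool.Agent.U128.Comm Pool.Agent.U128.ClosedAlg
  Pool.Agent.U128.Transitive Pool.Agent.U128.Mazur
open Pool.Agent.U128.HalfSpace (closed_sup)

variable {X : Type*} [NormedAddCommGroup X] [NormedSpace ℂ X]

theorem bas_injective {v : ℕ → X} (h : Bas v) :
    Function.Injective (Finsupp.linearCombination ℂ v) := by
  rw [← LinearMap.ker_eq_bot, eq_bot_iff]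
  intro c hc
  rw [LinearMap.mem_ker] at hc
  rw [Submodule.mem_bot]
  ext n
  have := h c n
  rw [hc, norm_zero, mul_zero] at this
  exact norm_le_zero_iff.1 this

/-- the closed span of the vectors with indices in `s` -/
def sp (v : ℕ → X) (s : Set ℕ) : Submodule ℂ X :=
  (Submodule.span ℂ (v '' s)).topologicalClosure

theorem infinite_map {v : ℕ → X} (h : Bas v) {s : Set ℕ} (hs : s.Infinite) :
    ¬ FiniteDimensional ℂ (Submodule.span ℂ (v '' s)) := by
  intro hf
  have hli : LinearIndependent ℂ v := bas_injective h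
  have h1 : LinearIndependent ℂ (fun i : s => v i) := hli.comp _ Subtype.val_injective
  have h2 : LinearIndependent ℂ (fun i : s => (⟨v i, Submodule.subset_span ⟨i, i.2, rfl⟩⟩ :
      Submodule.span ℂ (v '' s))) := by
    refine LinearIndependent.of_comp (Submodule.subtype _) ?_
    exact h1
  have h3 : Infinite s := hs.to_subtype
  have h4 : Finite s := h2.finite
  exact not_finite s

theorem half_sp {v : ℕ → X} (h : Bas v) : Half (sp v {n | Even n}) := by
  have hev : {n : ℕ | Even n}.Infinite :=
    Set.infinite_of_injective_forall_mem (f := fun n : ℕ => 2 * n)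
      (fun a b h => by simpa using h) (fun n => even_two_mul n)
  have hodd : {n : ℕ | Odd n}.Infinite :=
    Set.infinite_of_injective_forall_mem (f := fun n : ℕ => 2 * n + 1)
      (fun a b h => by simpa using h) (fun n => odd_two_mul_add_one n)
  refine ⟨Submodule.isClosed_topologicalClosure _, ?_, ?_⟩
  · intro hf
    have hf' : FiniteDimensional ℂ (Submodule.span ℂ (v '' {n | Even n})).topologicalClosure := hf
    exact infinite_map h hev (Submodule.finiteDimensional_of_le (Submodule.le_topologicalClosure _))
  · intro hf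
    apply infinite_map h hodd
    have hinj : ∀ x ∈ Submodule.span ℂ (v '' {n | Odd n}), x ∈ sp v {n | Even n} → x = 0 := by
      intro x hx hxY
      rw [Finsupp.mem_span_image_iff_linearCombination] at hx
      obtain ⟨b, hb, rfl⟩ := hx
      have hb0 : b = 0 := by
        ext n
        rw [Finsupp.coe_zero, Pi.zero_apply]
        by_cases hn : Odd n
        · rw [← norm_le_zero_iff]
          refine le_of_forall_pos_le_add fun ε hε => ?_
          rw [zero_add]
          have h1 : Finsupp.linearCombination ℂ v b ∈
              closure ((Submodule.span ℂ (v '' {n | Even n}) : Submodule ℂ X) : Set X) := hxY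
          obtain ⟨y, hy, hyx⟩ := Metric.mem_closure_iff.1 h1 (ε / 4) (by linarith)
          rw [SetLike.mem_coe, Finsupp.mem_span_image_iff_linearCombination] at hy
          obtain ⟨a, ha, rfl⟩ := hy
          rw [dist_eq_norm, ← map_sub] at hyx
          have h2 := h (b - a) n
          have h3 : a n = 0 := by
            rw [← Finsupp.notMem_support_iff]
            intro h4
            exact Nat.not_even_iff_odd.2 hn (ha h4)
          rw [Finsupp.sub_apply, h3, sub_zero] at h2
          linarith
        · rw [← Finsupp.notMem_support_iff]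
          intro h4
          exact hn (hb h4)
      rw [hb0, map_zero]
    set g : Submodule.span ℂ (v '' {n | Odd n}) →ₗ[ℂ] X ⧸ sp v {n | Even n} :=
      (sp v {n | Even n}).mkQ.comp (Submodule.subtype _) with hg
    refine FiniteDimensional.of_injective g ?_
    rw [← LinearMap.ker_eq_bot, eq_bot_iff]
    rintro ⟨x, hx⟩ hx'
    rw [LinearMap.mem_ker] at hx'
    rw [Submodule.mem_bot]
    exact Subtype.ext (hinj x hx ((Submodule.Quotient.mk_eq_zero _).1 hx'))

/-- **From admissible vectors to a half-space.** -/
theorem half_of_admissible (T : X →L[ℂ] X) (e : X)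
    (h : ∀ (G : Finset (X →L[ℂ] ℂ)) (δ : ℝ), 0 < δ →
      ∃ v, (‖v‖ = 1 ∧ ∃ α β : ℂ, T v = α • v + β • e) ∧ ∀ f ∈ G, ‖f v‖ ≤ δ) :
    ∃ Y : Submodule ℂ X, Half Y ∧ defect T Y ≤ 1 := by
  obtain ⟨v, hv, hB⟩ := select (fun _ h => h.1) h
  refine ⟨sp v {n | Even n}, half_sp hB, ?_⟩
  set Y := sp v {n | Even n} with hY
  have hYc : IsClosed (Y : Set X) := Submodule.isClosed_topologicalClosure _
  have hE : AC Y (Submodule.span ℂ {e}) := by
    rw [ac_iff]
    exact ⟨Submodule.span ℂ {e}, inferInstance, le_sup_right⟩
  have hcl := closed_sup hYc hE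
  have h1 : Y.map (T : X →ₗ[ℂ] X) ≤ Y ⊔ Submodule.span ℂ {e} := by
    rw [Submodule.map_le_iff_le_comap]
    have h2 : Submodule.span ℂ (v '' {n | Even n}) ≤
        (Y ⊔ Submodule.span ℂ {e}).comap (T : X →ₗ[ℂ] X) := by
      rw [Submodule.span_le]
      rintro _ ⟨n, hn, rfl⟩
      obtain ⟨-, α, β, hαβ⟩ := hv n
      show T (v n) ∈ Y ⊔ Submodule.span ℂ {e}
      rw [hαβ]
      refine Submodule.add_mem_sup (Submodule.smul_mem _ _ ?_)
        (Submodule.smul_mem _ _ (Submodule.mem_span_singleton_self e))
      exact Submodule.le_topologicalClosure _ (Submodule.subset_span ⟨n, hn, rfl⟩)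
    exact Submodule.topologicalClosure_minimal _ h2 (hcl.preimage T.continuous)
  have h3 : (Y.map (T : X →ₗ[ℂ] X)).map Y.mkQ ≤ (Submodule.span ℂ {e}).map Y.mkQ := by
    refine (Submodule.map_mono h1).trans ?_
    rw [Submodule.map_sup, Submodule.mkQ_map_self, bot_sup_eq]
  unfold defect
  refine (Submodule.rank_mono h3).trans ((rank_map_le _ _).trans ?_)
  exact (rank_span_le _).trans (by rw [Cardinal.mk_singleton])

end Pool.Agent.U128.Exists
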