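import Mathlib

/-!
# Fixed points of groups of automorphisms of a lattice with a modular valuation

Let `δ` be a strictly monotone modular valuation on the lattice `L`, and
`ds x y = δ x + δ y - 2 δ (x ⊓ y)` the distance. If the words of bounded length in finitely many
automorphisms move `y` by at most `c` (`exists_fixed`), or all elements of an arbitrary group do
(`exists_fixed_group`), then there is a fixed point within distance `c` of `y`. The mean distance from
the images of `y` under a random walk is a submodular function of `x` and nearly harmonic, so the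
near-minimisers are nearly invariant and nearly closed under intersection.
-/

set_option autoImplicit false

namespace Pool.Agent.U128.Near

open Finset

variable {L : Type*} [Lattice L]

/-- the distance attached to a valuation -/
def ds (δ : L → ℝ) (x y : L) : ℝ := δ x + δ y - 2 * δ (x ⊓ y)

/-- strictly monotone modular valuations -/
structure Val (δ : L → ℝ) : Prop where
  modular : ∀ x y, δ (x ⊓ y) + δ (x ⊔ y) = δ x + δ y
  mono : StrictMono δ

section basic

variable {δ : L → ℝ} (h : Val δ)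

include h

theorem Val.le {x y : L} (hxy : x ≤ y) : δ x ≤ δ y := h.mono.monotone hxy

theorem ds_nonneg (x y : L) : 0 ≤ ds δ x y := by
  unfold ds
  have h1 := h.le (inf_le_left : x ⊓ y ≤ x)
  have h2 := h.le (inf_le_right : x ⊓ y ≤ y)
  linarith

omit h in
theorem ds_comm (x y : L) : ds δ x y = ds δ y x := by
  unfold ds
  rw [inf_comm]
  ring

theorem ds_triangle (x y z : L) : ds δ x z ≤ ds δ x y + ds δ y z := by
  have e1 := h.modular (x ⊓ y) (y ⊓ z)
  have e2 := h.le (show (x ⊓ y) ⊔ (y ⊓ z) ≤ y from sup_le inf_le_right inf_le_left)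
  have e3 := h.le (show (x ⊓ y) ⊓ (y ⊓ z) ≤ x ⊓ z from
    le_inf (inf_le_left.trans inf_le_left) (inf_le_right.trans inf_le_right))
  unfold ds
  linarith

theorem ds_submod (x z y : L) :
    ds δ (x ⊓ z) y + ds δ (x ⊔ z) y ≤ ds δ x y + ds δ z y := by
  have e0 := h.modular x z
  have e1 := h.modular (x ⊓ y) (z ⊓ y)
  have e2 := h.le (show (x ⊓ y) ⊔ (z ⊓ y) ≤ (x ⊔ z) ⊓ y from
    sup_le (inf_le_inf_right _ le_sup_left) (inf_le_inf_right _ le_sup_right))
  have e3 := h.le (show (x ⊓ y) ⊓ (z ⊓ y) ≤ (x ⊓ z) ⊓ y from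
    le_inf (inf_le_inf inf_le_left inf_le_left) (inf_le_left.trans inf_le_right))
  unfold ds
  linarith

theorem eq_of_le_of_val_le {x y : L} (hxy : x ≤ y) (hv : δ y ≤ δ x) : x = y := by
  rcases hxy.lt_or_eq with h1 | h1
  · exact absurd (h.mono h1) (not_lt.2 hv)
  · exact h1

/-- `|δ x - δ y| ≤ ds x y` -/
theorem abs_val_sub_le (x y : L) : |δ x - δ y| ≤ ds δ x y := by
  have h1 := h.le (inf_le_left : x ⊓ y ≤ x)
  have h2 := h.le (inf_le_right : x ⊓ y ≤ y)
  unfold ds
  rw [abs_le]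
  constructor <;> linarith

theorem ds_inf_le (x y : L) : ds δ (x ⊓ y) y ≤ ds δ x y := by
  have h1 := h.le (inf_le_left : x ⊓ y ≤ x)
  unfold ds
  rw [inf_assoc, inf_idem]
  linarith

end basic

/-- words of length `k` -/
def Wd (S : Finset (L ≃o L)) : ℕ → Set (L ≃o L)
  | 0 => {1}
  | (k + 1) => {w | ∃ s ∈ S, ∃ v ∈ Wd S k, w = v * s}

/-- the mean distance from `y` after `k` steps -/
noncomputable def ph (δ : L → ℝ) (S : Finset (L ≃o L)) (y : L) : ℕ → L → ℝ
  | 0, x => ds δ x y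
  | (k + 1), x => (∑ s ∈ S, ph δ S y k (s x)) / S.card

/-- the mean of the means -/
noncomputable def Fn (δ : L → ℝ) (S : Finset (L ≃o L)) (y : L) (N : ℕ) (x : L) : ℝ :=
  (∑ k ∈ range N, ph δ S y k x) / N

section walk

variable {δ : L → ℝ} {S : Finset (L ≃o L)} {y : L}

theorem pres_word (hpres : ∀ s ∈ S, ∀ x, δ (s x) = δ x) :
    ∀ k, ∀ w ∈ Wd S k, ∀ x, δ (w x) = δ x := by
  intro k
  induction k with
  | zero =>
    intro w hw x
    rw [Wd, Set.mem_singleton_iff] at hw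
    subst hw
    rfl
  | succ k ih =>
    rintro w ⟨s, hs, v, hv, rfl⟩ x
    show δ (v (s x)) = δ x
    rw [ih v hv, hpres s hs]

theorem ds_map {w : L ≃o L} (hw : ∀ x, δ (w x) = δ x) (x z : L) :
    ds δ (w x) (w z) = ds δ x z := by
  unfold ds
  rw [← map_inf w, hw, hw, hw]

theorem ph_bounds (hS : S.Nonempty) (a b : ℝ) : ∀ k x,
    (∀ w ∈ Wd S k, a ≤ ds δ (w x) y ∧ ds δ (w x) y ≤ b) →
      a ≤ ph δ S y k x ∧ ph δ S y k x ≤ b := by
  intro k
  induction k with
  | zero =>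
    intro x h
    exact h 1 (by rw [Wd]; rfl)
  | succ k ih =>
    intro x h
    have hc : (0 : ℝ) < S.card := by exact_mod_cast hS.card_pos
    have h1 : ∀ s ∈ S, a ≤ ph δ S y k (s x) ∧ ph δ S y k (s x) ≤ b := fun s hs =>
      ih (s x) fun w hw => h (w * s) ⟨s, hs, w, hw, rfl⟩
    rw [ph, le_div_iff₀ hc, div_le_iff₀ hc]
    constructor
    · calc a * S.card = ∑ _s ∈ S, a := by rw [sum_const, nsmul_eq_mul]; ring
        _ ≤ _ := sum_le_sum fun s hs => (h1 s hs).1
    · calc _ ≤ ∑ _s ∈ S, b := sum_le_sum fun s hs => (h1 s hs).2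
        _ = b * S.card := by rw [sum_const, nsmul_eq_mul]; ring

theorem ph_submod (h : Val δ) : ∀ k x z,
    ph δ S y k (x ⊓ z) + ph δ S y k (x ⊔ z) ≤ ph δ S y k x + ph δ S y k z := by
  intro k
  induction k with
  | zero => intro x z; exact ds_submod h x z y
  | succ k ih =>
    intro x z
    simp only [ph]
    rw [← add_div, ← add_div, ← sum_add_distrib, ← sum_add_distrib]
    refine div_le_div_of_nonneg_right (sum_le_sum fun s _ => ?_) (by positivity)
    rw [map_inf, map_sup]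
    exact ih _ _

theorem Fn_submod (h : Val δ) (N : ℕ) (x z : L) :
    Fn δ S y N (x ⊓ z) + Fn δ S y N (x ⊔ z) ≤ Fn δ S y N x + Fn δ S y N z := by
  unfold Fn
  rw [← add_div, ← add_div, ← sum_add_distrib, ← sum_add_distrib]
  exact div_le_div_of_nonneg_right (sum_le_sum fun k _ => ph_submod h k x z) (by positivity)

theorem Fn_step (hS : S.Nonempty) {N : ℕ} (hN : 0 < N) (x : L) :
    ∑ s ∈ S, Fn δ S y N (s x) =
      S.card * (Fn δ S y N x + (ph δ S y N x - ph δ S y 0 x) / N) := by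
  have hc : (S.card : ℝ) ≠ 0 := by exact_mod_cast hS.card_pos.ne'
  have hN' : (N : ℝ) ≠ 0 := by exact_mod_cast hN.ne'
  have h1 : ∀ k, ∑ s ∈ S, ph δ S y k (s x) = S.card * ph δ S y (k + 1) x := by
    intro k
    rw [ph, mul_div_cancel₀ _ hc]
  have h2 : ∑ k ∈ range N, ph δ S y (k + 1) x =
      ∑ k ∈ range N, ph δ S y k x + (ph δ S y N x - ph δ S y 0 x) := by
    have e1 := sum_range_succ' (fun k => ph δ S y k x) N
    have e2 := sum_range_succ (fun k => ph δ S y k x) N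
    linarith
  unfold Fn
  rw [← sum_div, sum_comm, sum_congr rfl fun k _ => h1 k, ← mul_sum, h2]
  field_simp

theorem word_fix {x : L} (hx : ∀ s ∈ S, s x = x) : ∀ k, ∀ w ∈ Wd S k, w x = x := by
  intro k
  induction k with
  | zero =>
    intro w hw
    rw [Wd, Set.mem_singleton_iff] at hw
    subst hw
    rfl
  | succ k ih =>
    rintro w ⟨s, hs, v, hv, rfl⟩
    show v (s x) = x
    rw [hx s hs, ih v hv]

/-- **The local theorem.** -/
theorem exists_fixed (h : Val δ) (hS : S.Nonempty) (hsym : ∀ s ∈ S, s⁻¹ ∈ S)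
    (hpres : ∀ s ∈ S, ∀ x, δ (s x) = δ x) {c ε : ℝ} (hε : 0 < ε) (r : ℕ)
    (D : Finset ℝ) (hD : ∀ x, ds δ x y ≤ 2 * c + ε → δ x ∈ D) (hDr : D.card ≤ r) (N : ℕ)
    (hN0 : 0 < N) (hN : c * (2 * S.card + 1) ^ r ≤ ε * N)
    (hw : ∀ k ≤ N, ∀ w ∈ Wd S k, ds δ (w y) y ≤ c) :
    ∃ x, (∀ s ∈ S, s x = x) ∧ ds δ x y ≤ c + ε := by
  classical
  have hNR : (0 : ℝ) < N := by exact_mod_cast hN0
  have hc : 0 ≤ c := (ds_nonneg h _ _).trans (hw 0 (Nat.zero_le _) 1 (by rw [Wd]; rfl))
  -- bounds for the means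
  have hb : ∀ k ≤ N, ∀ x, ds δ x y - c ≤ ph δ S y k x ∧ ph δ S y k x ≤ ds δ x y + c := by
    intro k hk x
    refine ph_bounds hS _ _ k x fun w hww => ?_
    have hp := pres_word hpres k w hww
    have e1 := hw k hk w hww
    have e2 : ds δ (w x) (w y) = ds δ x y := ds_map hp x y
    have e3 := ds_triangle h (w x) (w y) y
    have e4 := ds_triangle h (w x) y (w y)
    rw [ds_comm y (w y)] at e4
    constructor <;> linarith
  have hFb : ∀ x, ds δ x y - c ≤ Fn δ S y N x ∧ Fn δ S y N x ≤ ds δ x y + c := by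
    intro x
    unfold Fn
    rw [le_div_iff₀ hNR, div_le_iff₀ hNR]
    constructor
    · calc (ds δ x y - c) * N = ∑ _k ∈ range N, (ds δ x y - c) := by
            rw [sum_const, card_range, nsmul_eq_mul]; ring
        _ ≤ _ := sum_le_sum fun k hk => (hb k (mem_range.1 hk).le x).1
    · calc _ ≤ ∑ _k ∈ range N, (ds δ x y + c) :=
            sum_le_sum fun k hk => (hb k (mem_range.1 hk).le x).2
        _ = _ := by rw [sum_const, card_range, nsmul_eq_mul]; ring
  have hFy : Fn δ S y N y ≤ c := by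
    unfold Fn
    rw [div_le_iff₀ hNR]
    calc _ ≤ ∑ _k ∈ range N, c := sum_le_sum fun k hk =>
          (ph_bounds hS 0 c k y fun w hww =>
            ⟨ds_nonneg h _ _, hw k (mem_range.1 hk).le w hww⟩).2
      _ = _ := by rw [sum_const, card_range, nsmul_eq_mul]; ring
  -- the infimum
  obtain ⟨m, hm⟩ : ∃ m : ℝ, m = sInf (Set.range (Fn δ S y N)) := ⟨_, rfl⟩
  have hbdd : BddBelow (Set.range (Fn δ S y N)) := by
    refine ⟨-c, ?_⟩
    rintro _ ⟨x, rfl⟩
    have := (hFb x).1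
    have := ds_nonneg h x y
    linarith
  have hm1 : ∀ x, m ≤ Fn δ S y N x := fun x => hm ▸ csInf_le hbdd ⟨x, rfl⟩
  have hm2 : ∀ η > 0, ∃ x, Fn δ S y N x ≤ m + η := by
    intro η hη
    obtain ⟨_, ⟨x, rfl⟩, hx⟩ := exists_lt_of_csInf_lt (Set.range_nonempty (h := ⟨y⟩) _)
      (show sInf (Set.range (Fn δ S y N)) < m + η by rw [← hm]; linarith)
    exact ⟨x, hx.le⟩
  have hmc : m ≤ c := (hm1 y).trans hFy
  set q : ℝ := 2 * S.card + 1 with hq
  have hq1 : 1 ≤ q := by rw [hq]; have : (0 : ℝ) ≤ S.card := by positivity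
                         linarith
  have hq0 : 0 < q := by linarith
  -- near-minimisers
  have hmeet : ∀ η : ℝ, c / N ≤ η → ∀ x, Fn δ S y N x ≤ m + η → ∀ s ∈ S,
      Fn δ S y N (x ⊓ s x) ≤ m + q * η := by
    intro η hη x hx s hs
    have h1 := Fn_step (δ := δ) (y := y) hS hN0 x
    have h2 : Fn δ S y N (s x) + (S.card - 1) * m ≤ ∑ t ∈ S, Fn δ S y N (t x) := by
      rw [← add_sum_erase _ _ hs]
      have h3 : ((S.erase s).card : ℝ) * m ≤ ∑ t ∈ S.erase s, Fn δ S y N (t x) := by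
        rw [← nsmul_eq_mul]
        exact card_nsmul_le_sum _ _ _ fun t _ => hm1 _
      have h4 : ((S.erase s).card : ℝ) = S.card - 1 := by
        rw [card_erase_of_mem hs, Nat.cast_sub (Nat.succ_le_of_lt hS.card_pos)]
        simp
      rw [h4] at h3
      linarith
    have h5 : (ph δ S y N x - ph δ S y 0 x) / N ≤ c / N := by
      refine div_le_div_of_nonneg_right ?_ hNR.le
      have := (hb N le_rfl x).2
      have h6 : ph δ S y 0 x = ds δ x y := rfl
      linarith
    have h7 : (0 : ℝ) ≤ S.card := by positivity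
    have h8 : ∑ t ∈ S, Fn δ S y N (t x) ≤ S.card * (m + 2 * η) := by
      rw [h1]
      exact mul_le_mul_of_nonneg_left (by linarith) h7
    have h9 := Fn_submod (S := S) (y := y) h N x (s x)
    have h10 := hm1 (x ⊔ s x)
    have h11 : Fn δ S y N (s x) ≤ m + 2 * S.card * η := by linarith
    rw [hq]
    linarith
  -- levels
  have hlev : ∀ j : ℕ, ∃ v ∈ D, (∃ x, Fn δ S y N x ≤ m + ε / q ^ j ∧ δ x = v) ∧
      ∀ x, Fn δ S y N x ≤ m + ε / q ^ j → v ≤ δ x := by
    intro j
    have hεj : 0 < ε / q ^ j := by positivity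
    have hεle : ε / q ^ j ≤ ε := div_le_self hε.le (one_le_pow₀ hq1)
    have hin : ∀ x, Fn δ S y N x ≤ m + ε / q ^ j → δ x ∈ D := by
      intro x hx
      have := (hFb x).1
      exact hD x (by linarith)
    set V := D.filter fun v => ∃ x, Fn δ S y N x ≤ m + ε / q ^ j ∧ δ x = v with hV
    have hVne : V.Nonempty := by
      obtain ⟨x, hx⟩ := hm2 _ hεj
      exact ⟨δ x, mem_filter.2 ⟨hin x hx, x, hx, rfl⟩⟩
    refine ⟨V.min' hVne, ?_, ?_, ?_⟩
    · exact (mem_filter.1 (V.min'_mem hVne)).1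
    · exact (mem_filter.1 (V.min'_mem hVne)).2
    · intro x hx
      exact V.min'_le _ (mem_filter.2 ⟨hin x hx, x, hx, rfl⟩)
  choose v hvD hvx hvle using hlev
  have hvmono : Monotone v := by
    refine monotone_nat_of_le_succ fun j => ?_
    obtain ⟨x, hx, hxv⟩ := hvx (j + 1)
    rw [← hxv]
    refine hvle j x (hx.trans ?_)
    have : ε / q ^ (j + 1) ≤ ε / q ^ j :=
      div_le_div_of_nonneg_left hε.le (by positivity) (pow_le_pow_right₀ hq1 (Nat.le_succ j))
    linarith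
  obtain ⟨i, hi, hvi⟩ : ∃ i < r, v i = v (i + 1) := by
    by_contra hcon
    push Not at hcon
    have hlt : ∀ i < r, v i < v (i + 1) := fun i hi =>
      lt_of_le_of_ne (hvmono (Nat.le_succ i)) (hcon i hi)
    have hinj : Set.InjOn v (range (r + 1) : Finset ℕ) := by
      intro a ha b hb' hab
      rw [Finset.mem_coe, mem_range] at ha hb'
      by_contra hne
      rcases Nat.lt_or_gt_of_ne hne with h1 | h1
      · have h2 := hlt a (by omega)
        have h3 := hvmono (show a + 1 ≤ b by omega)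
        linarith
      · have h2 := hlt b (by omega)
        have h3 := hvmono (show b + 1 ≤ a by omega)
        linarith
    have h1 := card_le_card_of_injOn v (fun a _ => hvD a) hinj
    rw [card_range] at h1
    omega
  obtain ⟨x, hx, hxv⟩ := hvx (i + 1)
  have hεi : 0 < ε / q ^ (i + 1) := by positivity
  have hcN : c / N ≤ ε / q ^ (i + 1) := by
    rw [div_le_div_iff₀ hNR (by positivity)]
    calc c * q ^ (i + 1) ≤ c * q ^ r :=
          mul_le_mul_of_nonneg_left (pow_le_pow_right₀ hq1 (by omega)) hc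
      _ ≤ ε * N := hN
  have hle : ∀ s ∈ S, x ≤ s x := by
    intro s hs
    have h1 := hmeet _ hcN x hx s hs
    have h2 : q * (ε / q ^ (i + 1)) = ε / q ^ i := by
      rw [pow_succ]
      field_simp
    rw [h2] at h1
    have h3 := hvle i _ h1
    rw [hvi, ← hxv] at h3
    have h4 := eq_of_le_of_val_le h (inf_le_left : x ⊓ s x ≤ x) h3
    exact inf_eq_left.1 h4
  have hfix : ∀ s ∈ S, s x = x := by
    intro s hs
    refine le_antisymm ?_ (hle s hs)
    have h1 := hle _ (hsym s hs)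
    have h2 := s.monotone h1
    have h3 : s (s⁻¹ x) = x := s.apply_symm_apply x
    rwa [h3] at h2
  refine ⟨x, hfix, ?_⟩
  have hFx : ds δ x y ≤ Fn δ S y N x := by
    unfold Fn
    rw [le_div_iff₀ hNR]
    calc ds δ x y * N = ∑ _k ∈ range N, ds δ x y := by
          rw [sum_const, card_range, nsmul_eq_mul]; ring
      _ ≤ _ := sum_le_sum fun k _ => (ph_bounds hS (ds δ x y) (ds δ x y) k x fun w hww => by
          rw [word_fix hfix k w hww]
          exact ⟨le_rfl, le_rfl⟩).1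
  have hεle : ε / q ^ (i + 1) ≤ ε := div_le_self hε.le (one_le_pow₀ hq1)
  linarith

end walk

section group

variable {δ : L → ℝ} {y : L} {G : Type*} [Group G]

/-- **The theorem for arbitrary groups.** -/
theorem exists_fixed_group (h : Val δ) (ρ : G →* (L ≃o L)) (hpres : ∀ g x, δ (ρ g x) = δ x)
    {c : ℝ} (hc : ∀ g, ds δ (ρ g y) y ≤ c)
    (hdisc : ∀ R : ℝ, ∃ D : Finset ℝ, ∀ x, ds δ x y ≤ R → δ x ∈ D) :
    ∃ x, (∀ g, ρ g x = x) ∧ ds δ x y ≤ c := by
  classical
  have hc0 : 0 ≤ c := (ds_nonneg h _ _).trans (hc 1)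
  -- fixed points of finite sets
  have hfin : ∀ (T : Finset G) (ε : ℝ), 0 < ε → ε ≤ 1 →
      ∃ x, (∀ g ∈ T, ρ g x = x) ∧ ds δ x y ≤ c + ε := by
    intro T ε hε _
    obtain ⟨D, hD⟩ := hdisc (2 * c + ε)
    set S : Finset (L ≃o L) := insert 1 ((T ∪ T.image fun g => g⁻¹).image ρ) with hS
    have hSρ : ∀ s ∈ S, ∃ g, ρ g = s := by
      intro s hs
      rcases mem_insert.1 hs with rfl | hs
      · exact ⟨1, map_one ρ⟩
      · obtain ⟨g, _, rfl⟩ := mem_image.1 hs
        exact ⟨g, rfl⟩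
    have hword : ∀ k, ∀ w ∈ Wd S k, ∃ g, ρ g = w := by
      intro k
      induction k with
      | zero =>
        intro w hw
        rw [Wd, Set.mem_singleton_iff] at hw
        exact ⟨1, by rw [map_one, hw]⟩
      | succ k ih =>
        rintro w ⟨s, hs, v, hv, rfl⟩
        obtain ⟨g, rfl⟩ := hSρ s hs
        obtain ⟨g', rfl⟩ := ih v hv
        exact ⟨g' * g, map_mul ρ _ _⟩
    obtain ⟨N, hN⟩ := exists_nat_ge (c * (2 * S.card + 1) ^ D.card / ε)
    obtain ⟨x, hx, hxy⟩ := exists_fixed (y := y) h ⟨1, mem_insert_self _ _⟩ (S := S) (by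
        intro s hs
        rcases mem_insert.1 hs with rfl | hs
        · rw [inv_one]; exact mem_insert_self _ _
        · obtain ⟨g, hg, rfl⟩ := mem_image.1 hs
          refine mem_insert_of_mem (mem_image.2 ⟨g⁻¹, ?_, map_inv ρ g⟩)
          rcases mem_union.1 hg with hg | hg
          · exact mem_union_right _ (mem_image_of_mem _ hg)
          · obtain ⟨g', hg', rfl⟩ := mem_image.1 hg
            rw [inv_inv]
            exact mem_union_left _ hg')
      (by
        intro s hs x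
        obtain ⟨g, rfl⟩ := hSρ s hs
        exact hpres g x) hε D.card D hD le_rfl (N + 1) (Nat.succ_pos N) (by
          rw [div_le_iff₀ hε] at hN
          push_cast
          nlinarith) (by
        intro k _ w hw
        obtain ⟨g, rfl⟩ := hword k w hw
        exact hc g)
    refine ⟨x, fun g hg => hx _ ?_, hxy⟩
    exact mem_insert_of_mem (mem_image_of_mem _ (mem_union_left _ hg))
  -- the values of the distance
  obtain ⟨D, hD⟩ := hdisc (c + 1)
  obtain ⟨E, hE⟩ : ∃ E : Finset ℝ, ∀ x, ds δ x y ≤ c + 1 → ds δ x y ∈ E := by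
    refine ⟨(D ×ˢ D).image fun p => p.1 + δ y - 2 * p.2, fun x hx => ?_⟩
    refine mem_image.2 ⟨(δ x, δ (x ⊓ y)), mem_product.2 ⟨hD x hx, hD _ ?_⟩, rfl⟩
    exact (ds_inf_le h x y).trans hx
  have hne : ∀ T : Finset G, ∃ x, (∀ g ∈ T, ρ g x = x) ∧ ds δ x y ≤ c := by
    intro T
    by_contra hcon
    push Not at hcon
    set E' := E.filter fun e => c < e with hE'
    rcases E'.eq_empty_or_nonempty with he | he
    · obtain ⟨x, hx, hxy⟩ := hfin T 1 one_pos le_rfl
      have h1 : ds δ x y ∈ E' := mem_filter.2 ⟨hE x hxy, hcon x hx⟩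
      rw [he] at h1
      exact absurd h1 (notMem_empty _)
    · have h1 := (mem_filter.1 (E'.min'_mem he)).2
      set e₀ := E'.min' he with he₀
      obtain ⟨x, hx, hxy⟩ := hfin T (min 1 ((e₀ - c) / 2)) (by
        refine lt_min one_pos ?_
        linarith) (min_le_left _ _)
      have h2 : min 1 ((e₀ - c) / 2) ≤ 1 := min_le_left _ _
      have h3 : min 1 ((e₀ - c) / 2) ≤ (e₀ - c) / 2 := min_le_right _ _
      have h4 : ds δ x y ∈ E' := mem_filter.2 ⟨hE x (by linarith), hcon x hx⟩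
      have h5 := E'.min'_le _ h4
      rw [← he₀] at h5
      linarith
  -- the least distance of fixed points of `T`
  have hA : ∀ T : Finset G, ∃ a ∈ E, (∃ x, (∀ g ∈ T, ρ g x = x) ∧ ds δ x y = a) ∧ a ≤ c ∧
      ∀ x, (∀ g ∈ T, ρ g x = x) → a ≤ ds δ x y := by
    intro T
    set V := E.filter fun a => ∃ x, (∀ g ∈ T, ρ g x = x) ∧ ds δ x y = a with hV
    obtain ⟨x, hx, hxy⟩ := hne T
    have hVx : ds δ x y ∈ V := mem_filter.2 ⟨hE x (by linarith), x, hx, rfl⟩
    have hVne : V.Nonempty := ⟨_, hVx⟩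
    have h0 := V.min'_le _ hVx
    refine ⟨V.min' hVne, (mem_filter.1 (V.min'_mem hVne)).1,
      (mem_filter.1 (V.min'_mem hVne)).2, h0.trans hxy, ?_⟩
    intro z hz
    by_cases hzc : ds δ z y ≤ c + 1
    · exact V.min'_le _ (mem_filter.2 ⟨hE z hzc, z, hz, rfl⟩)
    · push Not at hzc
      linarith [h0.trans hxy]
  choose a haE hax hac hale using hA
  obtain ⟨T₀, hT₀⟩ : ∃ T₀, ∀ T, a T ≤ a T₀ := by
    have h1 : (Set.range a).Finite := (finite_toSet E).subset (by
      rintro _ ⟨T, rfl⟩; exact haE T)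
    obtain ⟨_, ⟨T₀, rfl⟩, h2⟩ := Set.exists_max_image _ id h1 ⟨_, Set.mem_range_self ∅⟩
    exact ⟨T₀, fun T => h2 _ ⟨T, rfl⟩⟩
  have hamono : ∀ T T' : Finset G, T ⊆ T' → a T ≤ a T' := by
    intro T T' hTT
    obtain ⟨x, hx, hxa⟩ := hax T'
    rw [← hxa]
    exact hale T x fun g hg => hx g (hTT hg)
  have haeq : ∀ T : Finset G, T₀ ⊆ T → a T = a T₀ := fun T hT =>
    le_antisymm (hT₀ T) (hamono _ _ hT)
  -- the least value among the fixed points at least distance
  have hB : ∀ T : Finset G, ∃ b ∈ D, (∃ x, (∀ g ∈ T, ρ g x = x) ∧ ds δ x y = a T ∧ δ x = b) ∧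
      ∀ x, (∀ g ∈ T, ρ g x = x) → ds δ x y = a T → b ≤ δ x := by
    intro T
    set V := D.filter fun b => ∃ x, (∀ g ∈ T, ρ g x = x) ∧ ds δ x y = a T ∧ δ x = b with hV
    have hDx : ∀ x, ds δ x y = a T → δ x ∈ D := fun x hx => hD x (by
      rw [hx]; linarith [hac T])
    obtain ⟨x, hx, hxa⟩ := hax T
    have hVne : V.Nonempty := ⟨_, mem_filter.2 ⟨hDx x hxa, x, hx, hxa, rfl⟩⟩
    refine ⟨V.min' hVne, (mem_filter.1 (V.min'_mem hVne)).1,
      (mem_filter.1 (V.min'_mem hVne)).2, ?_⟩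
    intro z hz hza
    exact V.min'_le _ (mem_filter.2 ⟨hDx z hza, z, hz, hza, rfl⟩)
  choose b hbD hbx hble using hB
  obtain ⟨T₁', hT₁'⟩ : ∃ T₁, ∀ T, b (T₀ ∪ T) ≤ b (T₀ ∪ T₁) := by
    have h1 : (Set.range fun T => b (T₀ ∪ T)).Finite := (finite_toSet D).subset (by
      rintro _ ⟨T, rfl⟩; exact hbD _)
    obtain ⟨_, ⟨T₁, rfl⟩, h2⟩ := Set.exists_max_image _ id h1 ⟨_, Set.mem_range_self ∅⟩
    exact ⟨T₁, fun T => h2 _ ⟨T, rfl⟩⟩
  set T₁ := T₀ ∪ T₁' with hT₁
  have h01 : T₀ ⊆ T₁ := subset_union_left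
  obtain ⟨x₁, hx₁, hx₁a, hx₁b⟩ := hbx T₁
  refine ⟨x₁, ?_, hx₁a.le.trans (hac T₁)⟩
  intro g
  have hTeq : insert g T₁ = T₀ ∪ insert g T₁' := by
    rw [hT₁, union_insert]
  obtain ⟨x, hx, hxa, hxb⟩ := hbx (insert g T₁)
  have e1 : b (insert g T₁) ≤ b T₁ := by
    rw [hTeq]; exact hT₁' _
  have ea1 := haeq T₁ h01
  have ea2 := haeq (insert g T₁) (h01.trans (subset_insert _ _))
  have hxT : ∀ g' ∈ T₁, ρ g' x = x := fun g' hg' => hx g' (mem_insert_of_mem hg')
  have e2 : ∀ g' ∈ T₁, ρ g' (x ⊓ x₁) = x ⊓ x₁ := fun g' hg' => by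
    rw [map_inf, hxT g' hg', hx₁ g' hg']
  have e3 : ∀ g' ∈ T₁, ρ g' (x ⊔ x₁) = x ⊔ x₁ := fun g' hg' => by
    rw [map_sup, hxT g' hg', hx₁ g' hg']
  have e4 := hale T₁ _ e2
  have e5 := hale T₁ _ e3
  have e6 := ds_submod h x x₁ y
  rw [hxa, hx₁a, ea2, ← ea1] at e6
  have e7 : ds δ (x ⊓ x₁) y = a T₁ := le_antisymm (by linarith) e4
  have e8 := hble T₁ _ e2 e7
  have e9 : x ⊓ x₁ = x := eq_of_le_of_val_le h inf_le_left (by
    rw [hxb]; exact e1.trans e8)
  have e10 : x ⊓ x₁ = x₁ := eq_of_le_of_val_le h inf_le_right (by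
    rw [hx₁b]; exact e8)
  have e11 : x₁ = x := e10.symm.trans e9
  rw [e11]
  exact hx g (mem_insert_self _ _)

end group



end Pool.Agent.U128.Near
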