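import Mathlib
import Pool.Agent.U128.Near
import Pool.Agent.U128.Comm

/-!
# Almost invariant subspaces of groups of operators
-/

set_option autoImplicit false

namespace Pool.Agent.U128.HalfSpace

open Module Finset
open Pool.Agent.U128.Near Pool.Agent.U128.Comm

variable {X : Type*} [NormedAddCommGroup X] [NormedSpace ℂ X]

theorem closed_sup {A B : Submodule ℂ X} (h1 : IsClosed (A : Set X)) (h : AC A B) :
    IsClosed ((A ⊔ B : Submodule ℂ X) : Set X) := by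
  have hf : FiniteDimensional ℂ (B.map A.mkQ) := h
  rw [← Submodule.comap_map_mkQ]
  exact (Submodule.closed_of_finiteDimensional (B.map A.mkQ)).preimage continuous_quot_mk

/-- the image of a subspace -/
def im (s : X ≃L[ℂ] X) (Z : Submodule ℂ X) : Submodule ℂ X :=
  Z.map (s.toLinearEquiv : X →ₗ[ℂ] X)

theorem mem_im {s : X ≃L[ℂ] X} {Z : Submodule ℂ X} {x : X} : x ∈ im s Z ↔ ∃ z ∈ Z, s z = x :=
  Iff.rfl

theorem im_closed (s : X ≃L[ℂ] X) {Z : Submodule ℂ X} (h : IsClosed (Z : Set X)) :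
    IsClosed ((im s Z : Submodule ℂ X) : Set X) := by
  have : ((im s Z : Submodule ℂ X) : Set X) = s '' Z := rfl
  rw [this]
  exact s.toHomeomorph.isClosedMap _ h

theorem im_one (Z : Submodule ℂ X) : im 1 Z = Z := by
  ext x
  rw [mem_im]
  constructor
  · rintro ⟨z, hz, rfl⟩; exact hz
  · intro h; exact ⟨x, h, rfl⟩

theorem im_mul (s t : X ≃L[ℂ] X) (Z : Submodule ℂ X) : im (s * t) Z = im s (im t Z) := by
  ext x
  rw [mem_im, mem_im]
  constructor
  · rintro ⟨z, hz, rfl⟩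
    exact ⟨t z, mem_im.2 ⟨z, hz, rfl⟩, rfl⟩
  · rintro ⟨y, hy, rfl⟩
    obtain ⟨z, hz, rfl⟩ := mem_im.1 hy
    exact ⟨z, hz, rfl⟩

theorem im_mono (s : X ≃L[ℂ] X) {Z Z' : Submodule ℂ X} (h : Z ≤ Z') : im s Z ≤ im s Z' :=
  Submodule.map_mono h

theorem im_inv_im (s : X ≃L[ℂ] X) (Z : Submodule ℂ X) : im s⁻¹ (im s Z) = Z := by
  rw [← im_mul, inv_mul_cancel, im_one]

theorem im_im_inv (s : X ≃L[ℂ] X) (Z : Submodule ℂ X) : im s (im s⁻¹ Z) = Z := by
  rw [← im_mul, mul_inv_cancel, im_one]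

theorem ac_im (s : X ≃L[ℂ] X) {A B : Submodule ℂ X} (h : AC A B) : AC (im s A) (im s B) :=
  AC.map s.toLinearEquiv h

theorem rel_im (s : X ≃L[ℂ] X) (A B : Submodule ℂ X) : rel (im s A) (im s B) = rel A B :=
  rel_map s.toLinearEquiv A B

theorem rd_im (s : X ≃L[ℂ] X) (A B : Submodule ℂ X) : rd (im s A) (im s B) = rd A B :=
  rd_map s.toLinearEquiv A B

/-- the operators which move `Y` only by a finite dimension -/
def HY (Y : Submodule ℂ X) : Subgroup (X ≃L[ℂ] X) where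
  carrier := {s | AC Y (im s Y) ∧ AC (im s Y) Y}
  mul_mem' := by
    rintro s t ⟨h1, h2⟩ ⟨h3, h4⟩
    rw [Set.mem_ofPred_eq, im_mul]
    exact ⟨h1.trans (ac_im s h3), (ac_im s h4).trans h2⟩
  one_mem' := by
    rw [Set.mem_ofPred_eq, im_one]
    exact ⟨AC.of_le le_rfl, AC.of_le le_rfl⟩
  inv_mem' := by
    rintro s ⟨h1, h2⟩
    have h3 := ac_im s⁻¹ h1
    have h4 := ac_im s⁻¹ h2
    rw [im_inv_im] at h3 h4
    exact ⟨h4, h3⟩

/-- the closed subspaces near `Y` -/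
def LY (Y : Submodule ℂ X) : Type _ :=
  {Z : Submodule ℂ X // IsClosed (Z : Set X) ∧ AC Y Z ∧ AC Z Y}

instance (Y : Submodule ℂ X) : Lattice (LY Y) :=
  Subtype.lattice
    (fun _ _ hA hB => ⟨closed_sup hA.1 (hA.2.2.trans hB.2.1), hA.2.1.sup hB.2.1,
      hA.2.2.mono_left le_sup_left⟩)
    (fun _ _ hA hB => ⟨hA.1.inter hB.1, hA.2.1.mono_right inf_le_left, hA.2.2.inf hB.2.2⟩)

theorem LY.le_iff {Y : Submodule ℂ X} {A B : LY Y} : A ≤ B ↔ A.1 ≤ B.1 := Iff.rfl

theorem LY.coe_inf {Y : Submodule ℂ X} (A B : LY Y) : (A ⊓ B).1 = A.1 ⊓ B.1 := rfl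

theorem LY.coe_sup {Y : Submodule ℂ X} (A B : LY Y) : (A ⊔ B).1 = A.1 ⊔ B.1 := rfl

/-- the action on the lattice -/
def rho (Y : Submodule ℂ X) : HY Y →* (LY Y ≃o LY Y) where
  toFun s :=
    { toFun := fun Z => ⟨im s.1 Z.1, im_closed _ Z.2.1, s.2.1.trans (ac_im s.1 Z.2.2.1),
        (ac_im s.1 Z.2.2.2).trans s.2.2⟩
      invFun := fun Z => ⟨im s.1⁻¹ Z.1, im_closed _ Z.2.1,
        ((HY Y).inv_mem s.2).1.trans (ac_im s.1⁻¹ Z.2.2.1),
        (ac_im s.1⁻¹ Z.2.2.2).trans ((HY Y).inv_mem s.2).2⟩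
      left_inv := fun Z => Subtype.ext (im_inv_im s.1 Z.1)
      right_inv := fun Z => Subtype.ext (im_im_inv s.1 Z.1)
      map_rel_iff' := by
        intro A B
        constructor
        · intro h
          have h1 := im_mono s.1⁻¹ (show im s.1 A.1 ≤ im s.1 B.1 from h)
          rw [im_inv_im, im_inv_im] at h1
          exact h1
        · intro h
          exact im_mono s.1 h }
  map_one' := by
    ext Z
    exact Subtype.ext (im_one Z.1)
  map_mul' := by
    intro s t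
    ext Z
    exact Subtype.ext (im_mul s.1 t.1 Z.1)

theorem rho_apply {Y : Submodule ℂ X} (s : HY Y) (Z : LY Y) : (rho Y s Z).1 = im s.1 Z.1 := rfl

/-- the valuation -/
noncomputable def vl (Y : Submodule ℂ X) (Z : LY Y) : ℝ := (rel Y Z.1 : ℝ)

theorem vl_val (Y : Submodule ℂ X) : Val (vl Y) := by
  constructor
  · intro A B
    have := rel_mod A.2.2.1 A.2.2.2 B.2.2.1 B.2.2.2
    unfold vl
    rw [LY.coe_inf, LY.coe_sup]
    exact_mod_cast this
  · intro A B h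
    have := rel_lt A.2.2.1 A.2.2.2 B.2.2.1 B.2.2.2 (lt_of_le_not_ge h.le h.not_ge)
    unfold vl
    exact_mod_cast this

/-- the base point -/
def base (Y : Submodule ℂ X) (hY : IsClosed (Y : Set X)) : LY Y :=
  ⟨Y, hY, AC.of_le le_rfl, AC.of_le le_rfl⟩

theorem ds_base {Y : Submodule ℂ X} (hY : IsClosed (Y : Set X)) (Z : LY Y) :
    ds (vl Y) Z (base Y hY) = ((rd Y Z.1 + rd Z.1 Y : ℕ) : ℝ) := by
  have h1 := rd_sum Z.2.2.1 Z.2.2.2
  have h0 : rel Y Y = 0 := by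
    unfold rel
    omega
  have h2 : ((rd Y Z.1 + rd Z.1 Y : ℕ) : ℝ) = ((rd Y Z.1 + rd Z.1 Y : ℕ) : ℤ) := by
    push_cast; rfl
  rw [h2, h1]
  unfold ds vl
  rw [LY.coe_inf]
  show (rel Y Z.1 : ℝ) + (rel Y Y : ℝ) - 2 * (rel Y (Z.1 ⊓ Y) : ℝ) = _
  rw [h0, inf_comm]
  push_cast
  ring

theorem abs_rel_le {Y Z : Submodule ℂ X} : |rel Y Z| ≤ ((rd Y Z + rd Z Y : ℕ) : ℤ) := by
  unfold rel
  rw [abs_le]
  push_cast
  constructor <;> omega

theorem rel_im_add {Y : Submodule ℂ X} (s : HY Y) {Z : Submodule ℂ X} (h1 : AC Y Z)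
    (h2 : AC Z Y) : rel Y (im s.1 Z) = rel Y (im s.1 Y) + rel Y Z := by
  rw [rel_add (W := Y) (Y := im s.1 Y) (Z := im s.1 Z) (ac_im s.1 h1) (ac_im s.1 h2) s.2.1 s.2.2,
    rel_im]

theorem rel_pow {Y : Submodule ℂ X} (s : HY Y) (k : ℕ) :
    rel Y (im (s.1 ^ k) Y) = k * rel Y (im s.1 Y) := by
  induction k with
  | zero =>
    rw [pow_zero, im_one]
    unfold rel
    push_cast
    ring
  | succ k ih =>
    have hk := (HY Y).pow_mem s.2 k
    rw [pow_succ', im_mul, rel_im_add s hk.1 hk.2, ih]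
    push_cast
    ring

theorem rel_zero {Y : Submodule ℂ X} (s : HY Y) (c : ℕ)
    (h : dst Y (im (s.1 ^ (c + 1)) Y) ≤ c) : rel Y (im s.1 Y) = 0 := by
  obtain ⟨_, _, h3⟩ := (dst_le_iff _ _ _).1 h
  have h4 := rel_pow s (c + 1)
  have h5 : |rel Y (im (s.1 ^ (c + 1)) Y)| ≤ c :=
    abs_rel_le.trans (by exact_mod_cast h3)
  rw [h4, abs_mul] at h5
  by_contra hne
  have h6 : 1 ≤ |rel Y (im s.1 Y)| := Int.one_le_abs hne
  have h7 : |(((c + 1 : ℕ) : ℤ))| = c + 1 := by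
    rw [abs_of_nonneg (by positivity)]; push_cast; ring
  rw [h7] at h5
  nlinarith

theorem vl_pres {Y : Submodule ℂ X} (s : HY Y) (h : rel Y (im s.1 Y) = 0) (Z : LY Y) :
    vl Y (rho Y s Z) = vl Y Z := by
  unfold vl
  rw [rho_apply, rel_im_add s Z.2.2.1 Z.2.2.2, h, zero_add]

/-- finitely many values -/
theorem vl_fin {Y : Submodule ℂ X} (hY : IsClosed (Y : Set X)) (R : ℕ) (Z : LY Y)
    (h : ds (vl Y) Z (base Y hY) < R + 1) :
    vl Y Z ∈ (Finset.Icc (-(R : ℤ)) R).image (fun n : ℤ => (n : ℝ)) := by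
  rw [ds_base hY] at h
  have h1 : rd Y Z.1 + rd Z.1 Y ≤ R := by
    have h2 : rd Y Z.1 + rd Z.1 Y < R + 1 := by exact_mod_cast h
    omega
  have h3 : |rel Y Z.1| ≤ R := abs_rel_le.trans (by exact_mod_cast h1)
  refine Finset.mem_image.2 ⟨rel Y Z.1, Finset.mem_Icc.2 (abs_le.1 h3), rfl⟩

theorem dst_comm (A B : Submodule ℂ X) : dst A B = dst B A := add_comm _ _

theorem dst_im (s : X ≃L[ℂ] X) (A B : Submodule ℂ X) (c : ℕ) :
    dst (im s A) (im s B) ≤ c ↔ dst A B ≤ c := by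
  rw [dst_le_iff, dst_le_iff, rd_im, rd_im]
  constructor
  · rintro ⟨h1, h2, h3⟩
    have e1 := ac_im s⁻¹ h1
    have e2 := ac_im s⁻¹ h2
    rw [im_inv_im, im_inv_im] at e1 e2
    exact ⟨e1, e2, h3⟩
  · rintro ⟨h1, h2, h3⟩
    exact ⟨ac_im s h1, ac_im s h2, h3⟩

/-- **Arbitrary groups of operators.** -/
theorem groups {Y : Submodule ℂ X} (hY : IsClosed (Y : Set X)) (c : ℕ)
    (G : Subgroup (X ≃L[ℂ] X)) (h : ∀ g ∈ G, dst Y (im g Y) ≤ c) :
    ∃ Z : Submodule ℂ X, IsClosed (Z : Set X) ∧ (∀ g ∈ G, im g Z = Z) ∧ dst Y Z ≤ c := by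
  have hG : G ≤ HY Y := fun g hg =>
    ⟨((dst_le_iff _ _ _).1 (h g hg)).1, ((dst_le_iff _ _ _).1 (h g hg)).2.1⟩
  obtain ⟨Z, hZ, hd⟩ := exists_fixed_group (y := base Y hY) (vl_val Y)
    ((rho Y).comp (Subgroup.inclusion hG)) (c := c)
    (by
      intro g Z
      refine vl_pres (Subgroup.inclusion hG g) (rel_zero _ c ?_) Z
      exact h _ (G.pow_mem g.2 _))
    (by
      intro g
      rw [ds_base hY]
      exact_mod_cast ((dst_le_iff _ _ _).1 (h g g.2)).2.2)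
    (by
      intro R
      obtain ⟨n, hn⟩ := exists_nat_ge R
      refine ⟨_, fun Z hZ => vl_fin hY n Z ?_⟩
      linarith)
  refine ⟨Z.1, Z.2.1, ?_, ?_⟩
  · intro g hg
    exact congrArg Subtype.val (hZ ⟨g, hg⟩)
  · rw [dst_le_iff]
    refine ⟨Z.2.2.1, Z.2.2.2, ?_⟩
    rw [ds_base hY] at hd
    exact_mod_cast hd

/-- **Finitely many operators, words of bounded length.** -/
theorem words {Y : Submodule ℂ X} (hY : IsClosed (Y : Set X)) (c m : ℕ)
    (S : Fin m → X ≃L[ℂ] X)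
    (h : ∀ l : List (X ≃L[ℂ] X), l.length ≤ 2 * (c + 1) * (4 * m + 1) ^ (4 * c + 1) →
      (∀ w ∈ l, ∃ i, w = S i ∨ w = (S i)⁻¹) → dst Y (im l.prod Y) ≤ c) :
    ∃ Z : Submodule ℂ X, IsClosed (Z : Set X) ∧ (∀ i, im (S i) Z = Z) ∧ dst Y Z ≤ c := by
  classical
  obtain ⟨N, hNdef⟩ : ∃ N, N = 2 * (c + 1) * (4 * m + 1) ^ (4 * c + 1) := ⟨_, rfl⟩
  rw [← hNdef] at h
  have hNc : c + 1 ≤ N := by
    rw [hNdef]
    calc c + 1 ≤ 2 * (c + 1) * 1 := by omega
      _ ≤ _ := Nat.mul_le_mul_left _ (Nat.one_le_pow _ _ (by omega))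
  have h0 : dst Y Y ≤ c := by
    have := h [] (Nat.zero_le _) (by simp)
    rwa [List.prod_nil, im_one] at this
  rcases Nat.eq_zero_or_pos m with hm | hm
  · subst hm
    exact ⟨Y, hY, fun i => i.elim0, h0⟩
  have h1 : ∀ i, dst Y (im (S i) Y) ≤ c := by
    intro i
    have := h [S i] (by simp; omega) (by
      intro w hw
      rw [List.mem_singleton] at hw
      exact ⟨i, Or.inl hw⟩)
    rwa [List.prod_singleton] at this
  have hmem : ∀ i, S i ∈ HY Y := fun i =>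
    ⟨((dst_le_iff _ _ _).1 (h1 i)).1, ((dst_le_iff _ _ _).1 (h1 i)).2.1⟩
  let s : Fin m → HY Y := fun i => ⟨S i, hmem i⟩
  let F : Finset (LY Y ≃o LY Y) :=
    (univ.image fun i => rho Y (s i)) ∪ (univ.image fun i => rho Y (s i)⁻¹)
  have hF : ∀ t ∈ F, ∃ g : HY Y, rho Y g = t ∧ ∃ i, g.1 = S i ∨ g.1 = (S i)⁻¹ := by
    intro t ht
    rcases Finset.mem_union.1 ht with ht | ht
    · obtain ⟨i, _, rfl⟩ := Finset.mem_image.1 ht
      exact ⟨s i, rfl, i, Or.inl rfl⟩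
    · obtain ⟨i, _, rfl⟩ := Finset.mem_image.1 ht
      exact ⟨(s i)⁻¹, rfl, i, Or.inr rfl⟩
  have hFc : F.card ≤ 2 * m := by
    refine (Finset.card_union_le _ _).trans ?_
    have e1 : (univ.image fun i => rho Y (s i)).card ≤ m :=
      Finset.card_image_le.trans (by simp)
    have e2 : (univ.image fun i => rho Y (s i)⁻¹).card ≤ m :=
      Finset.card_image_le.trans (by simp)
    omega
  have hword : ∀ k, ∀ w ∈ Wd F k, ∃ (g : HY Y) (l : List (X ≃L[ℂ] X)), rho Y g = w ∧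
      g.1 = l.prod ∧ l.length = k ∧ ∀ w ∈ l, ∃ i, w = S i ∨ w = (S i)⁻¹ := by
    intro k
    induction k with
    | zero =>
      intro w hw
      rw [Wd, Set.mem_singleton_iff] at hw
      exact ⟨1, [], by rw [map_one, hw], rfl, rfl, by simp⟩
    | succ k ih =>
      rintro w ⟨t, ht, v, hv, rfl⟩
      obtain ⟨g, rfl, hg⟩ := hF t ht
      obtain ⟨g', l, rfl, hl, hlk, hli⟩ := ih v hv
      refine ⟨g' * g, l ++ [g.1], map_mul _ _ _, ?_, by simp [hlk], ?_⟩
      · rw [List.prod_append, List.prod_singleton, ← hl]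
        rfl
      · intro w hw
        rcases List.mem_append.1 hw with hw | hw
        · exact hli w hw
        · rw [List.mem_singleton] at hw
          subst hw
          exact hg
  have hcardR : (F.card : ℝ) ≤ 2 * m := by exact_mod_cast hFc
  have hrel : ∀ g : HY Y, (∃ i, g.1 = S i ∨ g.1 = (S i)⁻¹) → rel Y (im g.1 Y) = 0 := by
    intro g hg
    refine rel_zero g c ?_
    have := h (List.replicate (c + 1) g.1) (by rw [List.length_replicate]; exact hNc) (by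
      intro w hw
      rw [List.eq_of_mem_replicate hw]
      exact hg)
    rwa [List.prod_replicate] at this
  obtain ⟨Z, hZ, hd⟩ := exists_fixed (y := base Y hY) (S := F) (vl_val Y)
    ⟨rho Y (s ⟨0, hm⟩), Finset.mem_union_left _ (Finset.mem_image_of_mem _ (Finset.mem_univ _))⟩
    (by
      intro t ht
      rcases Finset.mem_union.1 ht with ht | ht
      · obtain ⟨i, _, rfl⟩ := Finset.mem_image.1 ht
        refine Finset.mem_union_right _ (Finset.mem_image.2 ⟨i, Finset.mem_univ _, ?_⟩)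
        exact map_inv _ _
      · obtain ⟨i, _, rfl⟩ := Finset.mem_image.1 ht
        refine Finset.mem_union_left _ (Finset.mem_image.2 ⟨i, Finset.mem_univ _, ?_⟩)
        rw [map_inv, inv_inv])
    (by
      intro t ht Z
      obtain ⟨g, rfl, hg⟩ := hF t ht
      exact vl_pres g (hrel g hg) Z)
    (c := c) (ε := 1 / 2) (by norm_num) (4 * c + 1)
    ((Finset.Icc (-((2 * c : ℕ) : ℤ)) ((2 * c : ℕ) : ℤ)).image (fun n : ℤ => (n : ℝ)))
    (by
      intro Z hZ
      refine vl_fin hY (2 * c) Z ?_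
      push_cast
      linarith)
    (by
      refine Finset.card_image_le.trans ?_
      rw [Int.card_Icc]
      omega) N (by omega)
    (by
      have e1 : (2 * (F.card : ℝ) + 1) ^ (4 * c + 1) ≤ (4 * m + 1) ^ (4 * c + 1) :=
        pow_le_pow_left₀ (by positivity) (by linarith) _
      have e2 : (N : ℝ) = 2 * (c + 1) * (4 * m + 1) ^ (4 * c + 1) := by
        rw [hNdef]; push_cast; ring
      rw [e2]
      have e3 : (0 : ℝ) ≤ (4 * m + 1) ^ (4 * c + 1) := by positivity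
      calc (c : ℝ) * (2 * (F.card : ℝ) + 1) ^ (4 * c + 1)
          ≤ (c + 1) * (4 * m + 1) ^ (4 * c + 1) :=
            mul_le_mul (by linarith) e1 (by positivity) (by positivity)
        _ = _ := by ring)
    (by
      intro k hk w hw
      obtain ⟨g, l, rfl, hl, hlk, hli⟩ := hword k w hw
      rw [ds_base hY, rho_apply]
      have := h l (by omega) hli
      rw [← hl] at this
      exact_mod_cast ((dst_le_iff _ _ _).1 this).2.2)
  refine ⟨Z.1, Z.2.1, ?_, ?_⟩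
  · intro i
    exact congrArg Subtype.val (hZ (rho Y (s i))
      (Finset.mem_union_left _ (Finset.mem_image_of_mem _ (Finset.mem_univ _))))
  · rw [dst_le_iff]
    refine ⟨Z.2.2.1, Z.2.2.2, ?_⟩
    rw [ds_base hY] at hd
    have h2 : ((rd Y Z.1 + rd Z.1 Y : ℕ) : ℝ) < c + 1 := by linarith
    have h3 : rd Y Z.1 + rd Z.1 Y < c + 1 := by exact_mod_cast h2
    omega

/-- one operator -/
theorem one {Y : Submodule ℂ X} (hY : IsClosed (Y : Set X)) (c : ℕ) (S : X ≃L[ℂ] X)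
    (h : ∀ k ≤ 2 * (c + 1) * 5 ^ (4 * c + 1), dst Y (im (S ^ k) Y) ≤ c) :
    ∃ Z : Submodule ℂ X, IsClosed (Z : Set X) ∧ im S Z = Z ∧ dst Y Z ≤ c := by
  obtain ⟨Z, h1, h2, h3⟩ := words hY c 1 (fun _ => S) (by
    intro l hl hw
    obtain ⟨j, hj, hjl⟩ : ∃ j : ℤ, l.prod = S ^ j ∧ j.natAbs ≤ l.length := by
      clear hl
      induction l with
      | nil => exact ⟨0, by simp, by simp⟩
      | cons a l ih =>
        obtain ⟨j, hj, hjl⟩ := ih fun w hwl => hw w (List.mem_cons_of_mem _ hwl)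
        obtain ⟨_, ha⟩ := hw a List.mem_cons_self
        rcases ha with ha | ha
        · refine ⟨1 + j, ?_, ?_⟩
          · rw [List.prod_cons, hj, ha, zpow_add, zpow_one]
          · rw [List.length_cons]; omega
        · refine ⟨-1 + j, ?_, ?_⟩
          · rw [List.prod_cons, hj, ha, zpow_add, zpow_neg_one]
          · rw [List.length_cons]; omega
    rw [hj]
    have hjN : j.natAbs ≤ 2 * (c + 1) * 5 ^ (4 * c + 1) := hjl.trans hl
    rcases Int.natAbs_eq j with h4 | h4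
    · rw [h4, zpow_natCast]
      exact h _ hjN
    · rw [h4, zpow_neg, zpow_natCast]
      have h5 := h _ hjN
      rw [← dst_im (S ^ j.natAbs)⁻¹, im_inv_im] at h5
      rwa [dst_comm])
  exact ⟨Z, h1, h2 0, h3⟩

/-- closed subspaces near a half-space are half-spaces -/
theorem half {Y Z : Submodule ℂ X} {c : ℕ} (h : dst Y Z ≤ c) (h1 : ¬ FiniteDimensional ℂ Y)
    (h2 : ¬ FiniteDimensional ℂ (X ⧸ Y)) :
    ¬ FiniteDimensional ℂ Z ∧ ¬ FiniteDimensional ℂ (X ⧸ Z) := by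
  obtain ⟨e1, e2, -⟩ := (dst_le_iff _ _ _).1 h
  constructor
  · intro hZ
    apply h1
    obtain ⟨F, hF, hle⟩ := (ac_iff Z Y).1 e2
    have : FiniteDimensional ℂ (Z ⊔ F : Submodule ℂ X) := inferInstance
    exact Submodule.finiteDimensional_of_le hle
  · intro hZ
    apply h2
    have e3 : AC Z (⊤ : Submodule ℂ X) := by
      unfold AC
      infer_instance
    have e4 : FiniteDimensional ℂ ((⊤ : Submodule ℂ X).map Y.mkQ) := e1.trans e3
    rw [Submodule.map_top, Submodule.range_mkQ] at e4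
    exact LinearEquiv.finiteDimensional Submodule.topEquiv

end Pool.Agent.U128.HalfSpace
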