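import Mathlib

/-!
# Basic sequences of almost weakly null vectors (Mazur)
-/

set_option autoImplicit false

namespace Pool.Agent.U128.Mazur

open Filter Topology

variable {X : Type*} [NormedAddCommGroup X] [NormedSpace ℂ X]

/-- **Mazur's lemma.** -/
theorem mazur (W : Submodule ℂ X) [FiniteDimensional ℂ W] {ρ : ℝ} (hρ : 1 < ρ) :
    ∃ (G : Finset (X →L[ℂ] ℂ)) (δ : ℝ), 0 < δ ∧ ∀ y : X, ‖y‖ = 1 → (∀ f ∈ G, ‖f y‖ ≤ δ) →
      ∀ w ∈ W, ∀ a : ℂ, ‖w‖ ≤ ρ * ‖w + a • y‖ := by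
  classical
  have _ : ProperSpace W := FiniteDimensional.proper ℂ W
  obtain ⟨η, hη0, hη1, hη⟩ : ∃ η : ℝ, 0 < η ∧ η < 1 ∧ 1 ≤ ρ * (1 - η) := by
    refine ⟨(ρ - 1) / ρ, div_pos (by linarith) (by linarith), ?_, ?_⟩
    · rw [div_lt_one (by linarith)]; linarith
    · have : ρ ≠ 0 := by linarith
      field_simp
      linarith
  obtain ⟨t, ht1, ht2, ht3⟩ := (isCompact_sphere (0 : W) 1).finite_cover_balls
    (show (0 : ℝ) < η / 4 by linarith)
  choose φ hφ1 hφ2 using fun x : X => exists_dual_vector'' ℂ x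
  refine ⟨ht2.toFinset.image (fun y : W => φ (y : X)), η / 4, by linarith, ?_⟩
  intro y hy hG
  -- the case of norm one
  have hone : ∀ w ∈ W, ‖w‖ = 1 → ∀ a : ℂ, 1 - η ≤ ‖w + a • y‖ := by
    intro w hw hw1 a
    rcases le_or_gt 2 ‖a‖ with ha | ha
    · have h1 : ‖a • y‖ ≤ ‖w + a • y‖ + ‖w‖ := by
        calc ‖a • y‖ = ‖(w + a • y) - w‖ := by rw [add_sub_cancel_left]
          _ ≤ _ := norm_sub_le _ _
      rw [norm_smul, hy, mul_one, hw1] at h1
      linarith
    · have hw' : (⟨w, hw⟩ : W) ∈ Metric.sphere (0 : W) 1 := by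
        rw [mem_sphere_zero_iff_norm]
        exact hw1
      have h1 := ht3 hw'
      rw [Set.mem_iUnion₂] at h1
      obtain ⟨z, hz, hzw⟩ := h1
      rw [Metric.mem_ball, dist_eq_norm] at hzw
      have hzw' : ‖w - (z : X)‖ < η / 4 := hzw
      have hzn : ‖(z : X)‖ = 1 := by
        have := ht1 hz
        rwa [mem_sphere_zero_iff_norm] at this
      have h2 : ‖φ (z : X) y‖ ≤ η / 4 :=
        hG _ (Finset.mem_image_of_mem _ (ht2.mem_toFinset.2 hz))
      have h3 : φ (z : X) (z : X) = 1 := by rw [hφ2, hzn]; rfl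
      have h4 : φ (z : X) (w + a • y) = 1 + φ (z : X) (w - z) + a * φ (z : X) y := by
        rw [map_add, map_smul, map_sub, h3, smul_eq_mul]
        ring
      have h5 : ‖φ (z : X) (w - z)‖ ≤ η / 4 := by
        calc _ ≤ ‖φ (z : X)‖ * ‖w - (z : X)‖ := (φ (z : X)).le_opNorm _
          _ ≤ 1 * (η / 4) := mul_le_mul (hφ1 _) hzw'.le (norm_nonneg _) zero_le_one
          _ = _ := one_mul _
      have h6 : ‖a * φ (z : X) y‖ ≤ η / 2 := by
        rw [norm_mul]
        calc _ ≤ 2 * (η / 4) := mul_le_mul ha.le h2 (norm_nonneg _) (by norm_num)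
          _ = _ := by ring
      have h7 : (1 : ℝ) ≤ ‖φ (z : X) (w + a • y)‖ + η / 4 + η / 2 := by
        have e : (1 : ℂ) = φ (z : X) (w + a • y) - φ (z : X) (w - z) - a * φ (z : X) y := by
          rw [h4]; ring
        calc (1 : ℝ) = ‖(1 : ℂ)‖ := by norm_num
          _ = ‖φ (z : X) (w + a • y) - φ (z : X) (w - z) - a * φ (z : X) y‖ := by rw [← e]
          _ ≤ ‖φ (z : X) (w + a • y) - φ (z : X) (w - z)‖ + ‖a * φ (z : X) y‖ := norm_sub_le _ _
          _ ≤ ‖φ (z : X) (w + a • y)‖ + ‖φ (z : X) (w - z)‖ + ‖a * φ (z : X) y‖ := by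
              gcongr
              exact norm_sub_le _ _
          _ ≤ _ := by linarith
      have h8 : ‖φ (z : X) (w + a • y)‖ ≤ ‖w + a • y‖ := by
        calc _ ≤ ‖φ (z : X)‖ * ‖w + a • y‖ := (φ (z : X)).le_opNorm _
          _ ≤ 1 * ‖w + a • y‖ := mul_le_mul_of_nonneg_right (hφ1 _) (norm_nonneg _)
          _ = _ := one_mul _
      linarith
  intro w hw a
  by_cases hw0 : w = 0
  · rw [hw0, norm_zero]
    have := norm_nonneg (0 + a • y)
    nlinarith
  · have hn : 0 < ‖w‖ := norm_pos_iff.2 hw0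
    have h1 := hone (((‖w‖⁻¹ : ℝ) : ℂ) • w) (W.smul_mem _ hw) (by
      rw [norm_smul, Complex.norm_real, Real.norm_of_nonneg (by positivity),
        inv_mul_cancel₀ hn.ne']) (((‖w‖⁻¹ : ℝ) : ℂ) * a)
    rw [mul_smul, ← smul_add, norm_smul, Complex.norm_real,
      Real.norm_of_nonneg (by positivity)] at h1
    have h2 : (1 : ℝ) ≤ ρ * (‖w‖⁻¹ * ‖w + a • y‖) :=
      hη.trans (mul_le_mul_of_nonneg_left h1 (by linarith))
    have h3 := mul_le_mul_of_nonneg_left h2 hn.le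
    have h4 : ‖w‖ * (ρ * (‖w‖⁻¹ * ‖w + a • y‖)) = ρ * ‖w + a • y‖ := by
      field_simp
    rw [h4, mul_one] at h3
    exact h3

/-- coordinates are bounded by the norm -/
def Bas (v : ℕ → X) : Prop :=
  ∀ (c : ℕ →₀ ℂ) (n : ℕ), ‖c n‖ ≤ 4 * ‖Finsupp.linearCombination ℂ v c‖

/-- selection of a basic sequence -/
theorem select {Q : X → Prop} (hQ : ∀ v, Q v → ‖v‖ = 1)
    (h : ∀ (G : Finset (X →L[ℂ] ℂ)) (δ : ℝ), 0 < δ → ∃ v, Q v ∧ ∀ f ∈ G, ‖f v‖ ≤ δ) :
    ∃ v : ℕ → X, (∀ n, Q (v n)) ∧ Bas v := by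
  classical
  set C : ℕ → ℝ := fun n => 2 - (1 / 2) ^ n with hC
  have hC1 : ∀ n, 1 ≤ C n := by
    intro n
    have : ((1 : ℝ) / 2) ^ n ≤ 1 := pow_le_one₀ (by norm_num) (by norm_num)
    show 1 ≤ 2 - ((1 : ℝ) / 2) ^ n
    linarith
  have hC2 : ∀ n, C n ≤ 2 := by
    intro n
    have : (0 : ℝ) ≤ (1 / 2) ^ n := by positivity
    show 2 - ((1 : ℝ) / 2) ^ n ≤ 2
    linarith
  have hClt : ∀ n, C n < C (n + 1) := by
    intro n
    have h1 : (0 : ℝ) < (1 / 2) ^ n := by positivity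
    show 2 - ((1 : ℝ) / 2) ^ n < 2 - (1 / 2) ^ (n + 1)
    rw [pow_succ]
    linarith
  have step : ∀ (W : {W : Submodule ℂ X // FiniteDimensional ℂ W}) (n : ℕ), ∃ y, Q y ∧
      ∀ w ∈ W.1, ∀ a : ℂ, ‖w‖ ≤ (C (n + 1) / C n) * ‖w + a • y‖ := by
    rintro ⟨W, hW⟩ n
    obtain ⟨G, δ, hδ, hG⟩ := mazur W (ρ := C (n + 1) / C n) (by
      rw [lt_div_iff₀ (by linarith [hC1 n]), one_mul]
      exact hClt n)
    obtain ⟨y, hy, hyG⟩ := h G δ hδ
    exact ⟨y, hy, hG y (hQ y hy) hyG⟩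
  choose y hyQ hy using step
  let S : ℕ → {W : Submodule ℂ X // FiniteDimensional ℂ W} := fun n =>
    Nat.rec ⟨⊥, inferInstance⟩ (fun n W => ⟨W.1 ⊔ Submodule.span ℂ {y W n}, by
      have := W.2
      infer_instance⟩) n
  have hS : ∀ n, (S (n + 1)).1 = (S n).1 ⊔ Submodule.span ℂ {y (S n) n} := fun n => rfl
  let v : ℕ → X := fun n => y (S n) n
  have hmono : Monotone fun n => (S n).1 := monotone_nat_of_le_succ fun n => by
    show (S n).1 ≤ (S (n + 1)).1
    rw [hS]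
    exact le_sup_left
  have hv : ∀ i n, i < n → v i ∈ (S n).1 := by
    intro i n hin
    have h1 : v i ∈ (S (i + 1)).1 := by
      rw [hS]
      exact Submodule.mem_sup_right (Submodule.mem_span_singleton_self _)
    exact hmono (show i + 1 ≤ n from hin) h1
  have hs : ∀ (c : ℕ → ℂ) n, ∑ i ∈ Finset.range n, c i • v i ∈ (S n).1 := fun c n =>
    Submodule.sum_mem _ fun i hi => Submodule.smul_mem _ _ (hv i n (Finset.mem_range.1 hi))
  have hpart : ∀ (c : ℕ → ℂ) n k, ‖∑ i ∈ Finset.range n, c i • v i‖ ≤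
      (C (n + k) / C n) * ‖∑ i ∈ Finset.range (n + k), c i • v i‖ := by
    intro c n k
    induction k with
    | zero =>
      rw [add_zero, div_self (by linarith [hC1 n]), one_mul]
    | succ k ih =>
      refine ih.trans ?_
      have h1 := hy (S (n + k)) (n + k) _ (hs c (n + k)) (c (n + k))
      have h2 : ∑ i ∈ Finset.range (n + k), c i • v i + c (n + k) • y (S (n + k)) (n + k) =
          ∑ i ∈ Finset.range (n + (k + 1)), c i • v i := by
        rw [← add_assoc, Finset.sum_range_succ]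
      rw [h2] at h1
      have h3 : 0 < C n := by linarith [hC1 n]
      have h4 : 0 < C (n + k) := by linarith [hC1 (n + k)]
      calc C (n + k) / C n * ‖∑ i ∈ Finset.range (n + k), c i • v i‖
          ≤ C (n + k) / C n * (C (n + k + 1) / C (n + k) *
            ‖∑ i ∈ Finset.range (n + (k + 1)), c i • v i‖) :=
            mul_le_mul_of_nonneg_left h1 (by positivity)
        _ = C (n + (k + 1)) / C n * ‖∑ i ∈ Finset.range (n + (k + 1)), c i • v i‖ := by
            rw [← add_assoc]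
            field_simp
  have hpart2 : ∀ (c : ℕ → ℂ) n m, n ≤ m → ‖∑ i ∈ Finset.range n, c i • v i‖ ≤
      2 * ‖∑ i ∈ Finset.range m, c i • v i‖ := by
    intro c n m hnm
    obtain ⟨k, rfl⟩ := Nat.exists_eq_add_of_le hnm
    refine (hpart c n k).trans (mul_le_mul_of_nonneg_right ?_ (norm_nonneg _))
    rw [div_le_iff₀ (by linarith [hC1 n])]
    linarith [hC1 n, hC2 (n + k)]
  refine ⟨v, fun n => hyQ _ _, fun c n => ?_⟩
  obtain ⟨m, hm, hmn⟩ : ∃ m, (∀ i ∈ c.support, i < m) ∧ n < m := by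
    refine ⟨c.support.sup id + n + 1, fun i hi => ?_, by omega⟩
    have : i ≤ c.support.sup id := Finset.le_sup (f := id) hi
    omega
  have e1 : Finsupp.linearCombination ℂ v c = ∑ i ∈ Finset.range m, c i • v i := by
    rw [Finsupp.linearCombination_apply, Finsupp.sum]
    apply Finset.sum_subset
    · intro i hi
      exact Finset.mem_range.2 (hm i hi)
    · intro i _ hi
      rw [Finsupp.notMem_support_iff.1 hi, zero_smul]
  rw [e1]
  have e2 : c n • v n = ∑ i ∈ Finset.range (n + 1), c i • v i -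
      ∑ i ∈ Finset.range n, c i • v i := by
    rw [Finset.sum_range_succ, add_sub_cancel_left]
  have e3 : ‖c n‖ = ‖c n • v n‖ := by
    rw [norm_smul, hQ _ (hyQ _ _), mul_one]
  rw [e3, e2]
  have h1 := hpart2 c n m hmn.le
  have h2 := hpart2 c (n + 1) m hmn
  have h3 := norm_sub_le (∑ i ∈ Finset.range (n + 1), c i • v i) (∑ i ∈ Finset.range n, c i • v i)
  linarith

end Pool.Agent.U128.Mazur
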